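import Mathlib
import Pool.Agent.H39.Q1.ChainM
import Pool.Agent.H39.Q1.AdmX

set_option autoImplicit false
open Finset

/-!
# Chapter C for an abstract functional: definitions

`V ω P` replaces the mean `VM X Cs a Bb B TT fm co ω P`. `X, W, Bb` : geometry of one reference environment.
-/

namespace Pool.Agent.H15.W

open Pool.Agent.H75.Perc Pool.Agent.H75.TwoArm Pool.Agent.H75.Four Pool.Agent.H69.Q1
open Pool.Agent.Q1 Pool.Agent.H25.Q1.Add Pool.Agent.H99.NC Pool.Agent.H49.Perc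
open Pool.Agent.H39.Q1
open Pool.Agent.H20.Q1 (Eh CS hf)

variable {ι : Type*} [DecidableEq ι]

/-- response to cutting the class of the tie `e` -/
noncomputable def DV (V : Finset (ℤ × ℤ) → Finset (ℤ × ℤ) → ℂ) (TT : Finset (ℤ × ℤ))
    (fm : ℤ × ℤ → ι) (co : ι → Bool) (La : ι → Finset (ℤ × ℤ)) (b : ℤ × ℤ → ℤ × ℤ)
    (e : ℤ × ℤ) (ω : Finset (ℤ × ℤ)) : ℂ :=
  V ω (TT \ cls TT fm co La b ω e) - V ω TT

/-- expectation over the ties and the layer -/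
noncomputable def TotV (V : Finset (ℤ × ℤ) → Finset (ℤ × ℤ) → ℂ) (B TT : Finset (ℤ × ℤ))
    (s : ℤ × ℤ → ℂ) : ℂ := Eh B (fun ω => Ec (fun e => 1 - s e) TT (V ω))

/-- everything tied -/
noncomputable def Tot0V (V : Finset (ℤ × ℤ) → Finset (ℤ × ℤ) → ℂ) (B TT : Finset (ℤ × ℤ)) : ℂ :=
  Eh B (fun ω => V ω TT)

/-- a tie of a free class or of a tied class may be tied -/
def VTog (V : Finset (ℤ × ℤ) → Finset (ℤ × ℤ) → ℂ) (W B TT : Finset (ℤ × ℤ)) (fm : ℤ × ℤ → ι)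
    (co : ι → Bool) (Wl La : ι → Finset (ℤ × ℤ)) (b o : ℤ × ℤ → ℤ × ℤ) : Prop :=
  ∀ ω ⊆ B, ∀ P ⊆ TT, ∀ e ∈ TT, e ∉ P →
    (fre W TT fm co Wl La b o ω e ∨ ∃ e' ∈ P, e' ∈ cls TT fm co La b ω e) →
    V ω P = V ω (insert e P)

/-- the same for an extended layer -/
def VTogX (V : Finset (ℤ × ℤ) → Finset (ℤ × ℤ) → ℂ) (W Bb B TT : Finset (ℤ × ℤ))
    (fm : ℤ × ℤ → ι) (co : ι → Bool) (Wl Λ : ι → Finset (ℤ × ℤ)) (b : ℤ × ℤ → ℤ × ℤ) : Prop :=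
  ∀ i, (co i = false → Disjoint (Λ i) (TF TT fm i)) → ∀ ω ⊆ B, ∀ P ⊆ TT, ∀ e ∈ TT, fm e = i →
    e ∉ P → (∀ ω' ⊆ Bb \ B, Conf W TT fm co Wl Λ b i P ω ω' e ∨
      ∃ e' ∈ P, fm e' = i ∧ e' ∈ TT ∧
        Co (HS (co i) (Λ i) (GS W TT fm co Wl i P ω ω')) (b e) (b e')) →
    V ω P = V ω (insert e P)

/-- locality near a flat wall; `Sg` : labels of the roots and of the corners of the functional -/
def VLoc (V : Finset (ℤ × ℤ) → Finset (ℤ × ℤ) → ℂ) (X : Env) (W Bb B TT Sg : Finset (ℤ × ℤ))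
    (fm : ℤ × ℤ → ι) (co : ι → Bool) (Wl La : ι → Finset (ℤ × ℤ)) (b o : ℤ × ℤ → ℤ × ℤ) : Prop :=
  ∀ e ∈ TT, ∀ (w : ℤ × ℤ) (m ρ r R : ℤ), WallG X W Bb TT fm co Wl La b o e w m R →
    m < ρ → ρ < r → r ≤ R → (∀ l ∈ Sg, l ∉ bx (co (fm e)) w R) →
    ∃ Ψ : Finset (ℤ × ℤ) → ℂ, ∀ ω, ω ⊆ B → ∀ t,
      Gx w ρ r (gr co La (fm e) ω ∩ (BR w r \ BR w ρ)) t →
      Co (gr co La (fm e) ω) (b e) t →
      (∀ v, WV (TF TT fm (fm e)) b v → Co (gr co La (fm e) ω) (b e) v → inR w m v) →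
      DV V TT fm co La b e ω = Ψ (ω \ bx (co (fm e)) w ρ)

end Pool.Agent.H15.W
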