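import Mathlib
import Pool.Agent.H15.W.C.Base

set_option autoImplicit false
open Finset

/-!
# Chapter C for an abstract functional: free ties, far bound, admissibility
-/

namespace Pool.Agent.H15.W

open Pool.Agent.H75.Perc Pool.Agent.H75.TwoArm Pool.Agent.H75.Four Pool.Agent.H69.Q1
open Pool.Agent.Q1 Pool.Agent.H25.Q1.Add Pool.Agent.H99.NC Pool.Agent.H49.Perc
open Pool.Agent.H60.Q1 Pool.Agent.H39.Q1
open Pool.Agent.H20.Q1 (Eh CS near_iff far_iff BR_ends BR_of_ends Gd AdmC Rch mem_AL' mem_HL')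

variable {ι : Type*} [DecidableEq ι] {X : Env} {W Bb B TT Sg ω ω' θ P G : Finset (ℤ × ℤ)}
  {fm : ℤ × ℤ → ι} {co : ι → Bool} {Wl La : ι → Finset (ℤ × ℤ)}
  {b o : ℤ × ℤ → ℤ × ℤ} {V : Finset (ℤ × ℤ) → Finset (ℤ × ℤ) → ℂ} {e x w t l u v : ℤ × ℤ}
  {i : ι} {m ρ r R κ : ℤ} {ε : Bool × Bool} {c : Bool}

/-- a free tie has no response -/
lemma DV_free (h : Multi X W Bb B TT fm co Wl La b o)
    (hT : VTog V W B TT fm co Wl La b o) (hω : ω ⊆ B) (he : e ∈ TT)
    (hf : fre W TT fm co Wl La b o ω e) : DV V TT fm co La b e ω = 0 := by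
  classical
  unfold DV
  rw [sub_eq_zero]
  refine eq_of_status (Ti := TT) (R := fun e e' => e' ∈ cls TT fm co La b ω e)
    (free := fre W TT fm co Wl La b o ω) (F := V ω)
    (fun e he => self_cls he)
    (fun P hP e he heP hcase => hT ω hω P hP e he heP hcase) sdiff_subset (Subset.refl _) ?_
  intro e1 he1 hnf
  refine ⟨fun _ => ⟨e1, he1, self_cls he1⟩, fun _ => ⟨e1, mem_sdiff.2 ⟨he1, fun h1 => hnf ?_⟩,
    self_cls he1⟩⟩
  -- a tie of the class of a free tie is free
  obtain ⟨⟨h2, h3⟩, h4⟩ := mem_cls.1 h1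
  have he1F : e1 ∈ TF TT fm (fm e) := mem_TF.2 ⟨h2, h3⟩
  have heF : e ∈ TF TT fm (fm e) := mem_TF.2 ⟨he, rfl⟩
  unfold fre at hf ⊢
  rw [h3]
  unfold gr at h4
  split_ifs at hf h4 ⊢ with hco
  · have h4' : Co ((ω ∪ (W \ Wl (fm e))) ∩ La (fm e)) (b e) (b e1) := by rw [h.capO']; exact h4
    rcases hf with h5 | h5
    · left
      intro x y h6 h7 h8
      refine h5 x y (Co.trans ?_ h6) h7 h8
      rw [h.capO2]; exact h4
    · right
      have h6 : Co ((ω ∪ (W \ Wl (fm e))) ∩ La (fm e) ∪ Wl (fm e)) (o e1) (o e) :=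
        ((h.tO _ hco).conn e1 he1F e heF).mono subset_union_right
      exact (h6.trans h5).trans (h4'.mono subset_union_left)
  · have hco' : co (fm e) = false := by simpa using hco
    have h4' : Co (du (La (fm e)) (ω ∪ W)) (b e) (b e1) := by rw [h.duC']; exact h4
    rcases hf with h5 | h5
    · left
      intro x y h6 h7 h8
      exact h5 x y (h4'.trans h6) h7 h8
    · right
      have h6 : Co (du (La (fm e)) (ω ∪ W) ∪ du (Wl (fm e)) ∅) (o e1) (o e) :=
        ((h.tC _ hco').conn e1 he1F e heF).mono subset_union_right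
      exact (h6.trans h5).trans (h4'.mono subset_union_left)

/-- the response vanishes unless the class reaches distance `R` -/
theorem farV (h : Multi X W Bb B TT fm co Wl La b o) (hT : VTog V W B TT fm co Wl La b o)
    (hG : WallG X W Bb TT fm co Wl La b o e w m R) (hω : ω ⊆ B) (he : e ∈ TT)
    (hD : DV V TT fm co La b e ω ≠ 0) :
    ∃ v, Far w R v ∧ Co (gr co La (fm e) ω) (b e) v := by
  have hf : ¬ fre W TT fm co Wl La b o ω e := fun hf => hD (DV_free h hT hω he hf)
  unfold fre at hf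
  unfold WallG at hG
  unfold gr
  rcases hco : co (fm e) with _ | _
  · rw [hco] at hf hG
    rw [if_neg Bool.false_ne_true] at hf hG ⊢
    unfold FreeC at hf
    rw [not_or] at hf
    have h1 := hf.1
    unfold SmallC at h1
    push Not at h1
    obtain ⟨x, y, h2, h3, h4, h5⟩ := h1
    rw [h.duC'] at h2
    refine ⟨x, ?_, h2⟩
    rw [far_iff]
    intro h6
    have h7 : x + y - (1, 1) ∈ BD w R := by
      rw [mem_BD']
      have e1 : x + y - (1, 1) + (1, 1) = x + y := by
        refine Prod.ext ?_ ?_ <;> simp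
      rw [e1]
      have h8 := unit_cases h3
      rw [inR_iff] at h6
      refine BR_of_ends h3 ?_ ?_
      · rw [inR_iff]; omega
      · rw [inR_iff]; omega
    have h9 := hG.cov h7
    simp only [mem_union] at h4 h9
    tauto
  · rw [hco] at hf hG
    rw [if_pos rfl] at hf hG ⊢
    rw [not_or] at hf
    have h1 := hf.1
    unfold SmallO at h1
    push Not at h1
    obtain ⟨x, y, h2, h3, h4, h5⟩ := h1
    rw [h.capO2] at h2
    refine ⟨x, ?_, h2⟩
    rw [far_iff]
    intro h6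
    have h7 : x + y ∈ BR w R := by
      have h8 := unit_cases h3
      rw [inR_iff] at h6
      refine BR_of_ends h3 ?_ ?_
      · rw [inR_iff]; omega
      · rw [inR_iff]; omega
    rcases mem_union.1 h4 with h8 | h8
    · exact h5 (hG.inb _ (mem_union_left _ (h.bB (hω h8))) h7)
    · rcases mem_union.1 h8 with h8 | h8
      · exact (mem_sdiff.1 h8).2 (hG.wsub (mem_inter.2 ⟨(mem_sdiff.1 h8).1, h7⟩))
      · exact h5 (hG.inb _ (mem_union_right _ h8) h7)

/-- **The averaged response is an admissible second factor.** -/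
theorem admV (h : Multi X W Bb B TT fm co Wl La b o) (hT : VTog V W B TT fm co Wl La b o)
    (hL : VLoc V X W Bb B TT Sg fm co Wl La b o)
    (hG : WallG X W Bb TT fm co Wl La b o e w m R) (he : e ∈ TT)
    (hCs : ∀ l ∈ Sg, l ∉ bx (co (fm e)) w R)
    {M : ℝ} (hM : ∀ ω ⊆ B, ∀ P ⊆ TT, ‖V ω P‖ ≤ M)
    (habv : ∀ l ∈ B, l ∈ bx (co (fm e)) w R →
      2 * ht κ (gm ε w) ≤ ht κ (lm (co (fm e)) ε l)) :
    AdmC κ (gm ε w) (gm ε (b e)) m R ((La (fm e)).map (lm (co (fm e)) ε))
      (B.map (lm (co (fm e)) ε)) (fun v => WV (TF TT fm (fm e)) b (gm ε v)) (2 * M)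
      (fun ω => DV V TT fm co La b e (pull (co (fm e)) ε B ω)) := by
  set c := co (fm e) with hcdef
  set L' := (La (fm e)).map (lm c ε) with hL'
  have hM0 : 0 ≤ M := (norm_nonneg _).trans (hM ∅ (empty_subset _) ∅ (empty_subset _))
  have hgr : ∀ ω, ω ⊆ B.map (lm c ε) →
      ω ∩ L' = (gr co La (fm e) (pull c ε B ω)).map (gmE ε) := by
    intro ω hω
    rw [← push_gr (h.la _) pull_sub, ← hcdef, push_pull hω]
  refine ⟨by positivity, fun ω hω => ?_, fun ω hω hD => ?_, fun ρ r h1 h2 h3 => ?_⟩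
  · unfold DV
    refine (norm_sub_le _ _).trans ?_
    have g1 := hM _ (pull_sub (c := c) (ε := ε) (ω := ω)) _
      (sdiff_subset (s := TT) (t := cls TT fm co La b (pull c ε B ω) e))
    have g2 := hM _ (pull_sub (c := c) (ε := ε) (ω := ω)) TT (Subset.refl _)
    linarith
  · obtain ⟨v, g1, g2⟩ := farV h hT hG pull_sub he hD
    refine ⟨gm ε v, ?_, ?_⟩
    · rw [Far_gm, gm_gm]; exact g1
    · rw [hgr ω hω]
      exact Co_gm g2
  · obtain ⟨Ψ, hΨ⟩ := hL e he w m ρ r R hG h1 h2 h3 hCs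
    refine ⟨fun z => Ψ (pull c ε B z \ bx c w ρ), fun ω hω c0 hGd hco0 _ hcon => ?_⟩
    set ω0 := pull c ε B ω with hω0
    have hset : ω ∩ AL κ (gm ε w) ρ r =
        (gr co La (fm e) ω0 ∩ (BR w r \ BR w ρ)).map (gmE ε) := by
      ext l
      rw [mem_inter, mem_AL', mem_gmE, mem_inter, mem_sdiff, mem_BR_gm, mem_BR_gm]
      have g0 : gm ε l ∈ gr co La (fm e) ω0 ↔ l ∈ ω ∩ L' := by
        rw [hgr ω hω, mem_gmE]
      rw [g0, mem_inter]
      constructor
      · rintro ⟨g1, g2, g3, -⟩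
        refine ⟨⟨g1, ?_⟩, g2, g3⟩
        have g4 := mem_lm.1 (hω g1)
        rw [hL', mem_lm]
        have g5 : gm ε l - tc c ∈ bx c w R := by
          rw [mem_bx, sub_add_cancel]
          exact BR_mono' h3 g2
        have hG' := hG
        unfold WallG at hG'
        unfold bx at g5
        rcases hco : c with _ | _
        · rw [hco] at g4 g5
          rw [← hcdef, hco] at hG'
          rw [if_neg Bool.false_ne_true] at g5 hG'
          exact hG'.inb _ (mem_union_left _ (h.bB g4)) g5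
        · rw [hco] at g4 g5
          rw [← hcdef, hco] at hG'
          rw [if_pos rfl] at g5 hG'
          exact hG'.inb _ (mem_union_left _ (h.bB g4)) g5
      · rintro ⟨⟨g1, g2⟩, g3, g4⟩
        refine ⟨g1, g3, g4, ?_⟩
        have g5 := mem_lm.1 (hω g1)
        have g6 : gm ε l - tc c ∈ bx c w R := by
          rw [mem_bx, sub_add_cancel]
          exact BR_mono' h3 g3
        have g7 := habv _ g5 g6
        rw [lm_apply, sub_add_cancel, gm_gm] at g7
        exact g7
    have hGx : Gx w ρ r (gr co La (fm e) ω0 ∩ (BR w r \ BR w ρ)) (gm ε c0) := by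
      rw [hset] at hGd
      obtain ⟨g1, ⟨u, g2, g3⟩, -, g4⟩ := hGd
      refine ⟨Far_gm.1 g1, ⟨gm ε u, Near_gm.1 g2, Co_gm' g3⟩, fun u' v' g5 g6 g7 => ?_⟩
      have g8 := g4 (gm ε u') (gm ε v') (by rw [Near_gm, gm_gm]; exact g5)
        (by rw [Far_gm, gm_gm]; exact g6) (Co_gm g7)
      have g9 := Co_gm' g8
      rwa [gm_gm] at g9
    have hcc : Co (gr co La (fm e) ω0) (b e) (gm ε c0) := by
      rw [hgr ω hω] at hco0
      have := Co_gm' hco0
      rwa [gm_gm] at this
    have hD := hΨ ω0 pull_sub (gm ε c0) hGx hcc fun v g1 g2 => by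
      have g3 := hcon (gm ε v) (by rw [gm_gm]; exact g1) (by
        rw [hgr ω hω]
        exact Co_gm g2)
      exact inR_gm.1 g3
    simp only
    rw [hD]
    congr 1
    ext l
    rw [mem_sdiff, mem_sdiff, hω0, mem_pull, mem_pull, mem_sdiff, mem_HL']
    by_cases hl : l ∈ bx c w ρ
    · tauto
    · have hl' : lm c ε l ∉ BR (gm ε w) ρ := by
        rw [mem_BR_gm, lm_apply, gm_gm, ← mem_bx]; exact hl
      tauto

end Pool.Agent.H15.W
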