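import Mathlib
import Pool.Agent.H15.W.C.Flat

set_option autoImplicit false
open Finset

/-!
# Assembly for one environment, abstract functional

`asm_envV` : the response of `TotV` to the weights `s` of the ties is the sum over the families of `DR` times the
response to the weights `1/4` of this family.
-/

namespace Pool.Agent.H15.W

open Pool.Agent.H75.Perc Pool.Agent.H75.TwoArm Pool.Agent.H75.Four Pool.Agent.H49.Perc
open Pool.Agent.H69.Q1 Pool.Agent.H39.Q1 Pool.Agent.H25.Q1.Add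
open Pool.Agent.H99.NC Pool.Agent.H60.Q1 Pool.Agent.H20.Q1 Pool.Agent.H59.Q1 Pool.Agent.Q1
open Pool.Agent.Q1.M6e

section

variable {ι : Type} [DecidableEq ι] {X : Pool.Agent.Q1.Env} {W Bb B TT Sg ω FlT : Finset (ℤ × ℤ)}
  {fm : ℤ × ℤ → ι} {co : ι → Bool} {Wl La : ι → Finset (ℤ × ℤ)}
  {b o : ℤ × ℤ → ℤ × ℤ} {V : Finset (ℤ × ℤ) → Finset (ℤ × ℤ) → ℂ} {s : ℤ × ℤ → ℂ}
  {e e' v δ : ℤ × ℤ} {i : ι}
  {ε : Bool × Bool} {rk : ℤ × ℤ → ℤ} {h0 : ℤ} {σ M : ℝ} {m r r1 r2 R : ℤ} {s0 : ℂ}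
  {Q : Finset (ℤ × ℤ) → ℤ × ℤ → Prop}

/-- a tied family has no main terms -/
lemma TmV_zero (hs : s e = 0) (he : e ∈ TT) : TmV V B TT fm co La b rk s e = 0 := by
  unfold TmV
  have h : ∀ ω, FT (TF TT fm (fm e)) b rk s e (SM TT fm co La b e ω) = 0 := by
    intro ω
    classical
    rw [FT_cls]
    split_ifs
    · exact prod_eq_zero (self_cls he) hs
    · rfl
  have h2 : Eh B (fun ω => FT (TF TT fm (fm e)) b rk s e (SM TT fm co La b e ω) *
      DV V TT fm co La b e ω) = Eh B (fun _ => (0 : ℂ)) :=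
    Ec_congr fun ω _ => by rw [h ω, zero_mul]
  rw [h2]
  exact Ec_const _ _ _

/-- main term of a tie which is not flat -/
lemma TmV_crn (hS : Straight TT fm b rk i ε h0)
    (he : e ∈ TF TT fm i) (heF : e ∉ FlT)
    (hV : ∀ ω ⊆ B, ∀ P ⊆ TT, ‖V ω P‖ ≤ M)
    (hQ : ∀ ω ⊆ B, ∀ e ∈ TT, DV V TT fm co La b e ω ≠ 0 → Q ω e)
    (hs : ∀ e' ∈ TF TT fm i, s e' = s0) (hs0 : ‖s0‖ ≤ σ) :
    ‖TmV V B TT fm co La b rk s e‖ ≤
      2 * M * Ex hf B (crn TT fm co La b rk Q FlT σ e) := by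
  obtain ⟨heT, hei⟩ := mem_TF.1 he
  have hσ0 : 0 ≤ σ := (norm_nonneg _).trans hs0
  have hM0 : 0 ≤ M := (norm_nonneg _).trans (hV ∅ (empty_subset _) ∅ (empty_subset _))
  unfold TmV
  rw [← Ex_smul]
  refine Ec_half_norm fun ω hω => ?_
  have n3 : 0 ≤ crn TT fm co La b rk Q FlT σ e ω :=
    mul_nonneg (pow_nonneg hσ0 _) (ind_nonneg _)
  rw [norm_mul]
  by_cases hD : DV V TT fm co La b e ω = 0
  · rw [hD, norm_zero, mul_zero]
    positivity
  have hnf : Q ω e := hQ ω hω e heT hD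
  have hDb : ‖DV V TT fm co La b e ω‖ ≤ 2 * M := by
    unfold DV
    refine (norm_sub_le _ _).trans ?_
    have g1 := hV ω hω _ (sdiff_subset (s := TT) (t := cls TT fm co La b ω e))
    have g2 := hV ω hω TT (Subset.refl _)
    linarith
  rw [mul_comm]
  refine mul_le_mul hDb ?_ (norm_nonneg _) (by positivity)
  rw [FT_coord hS heT hei hs, norm_mul, norm_pow, Complex.norm_real,
    Real.norm_of_nonneg (ind_nonneg _), ncard_CSx hS hei]
  unfold crn
  refine mul_le_mul (pow_le_pow_left₀ (norm_nonneg _) hs0 _) (ind_mono fun h1 => ?_)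
    (ind_nonneg _) (pow_nonneg hσ0 _)
  exact ⟨(first_iff hS heT hei).2 h1, hnf, e, self_cls heT, heF⟩

end

/-- **Assembly for one environment.** `EF`, `EF'` : errors of the first order expansion, `Z`, `Z'` : classes which
contain a tie which is not flat, at the weights `σ`, `1/4`. -/
theorem asm_envV : ∃ K C β γ : ℝ, 0 < K ∧ 0 < C ∧ 0 < β ∧ 0 < γ ∧
    ∀ {ι : Type} [DecidableEq ι] [Fintype ι] (X : Pool.Agent.Q1.Env) (W Bb B TT Sg : Finset (ℤ × ℤ))
      (fm : ℤ × ℤ → ι) (co : ι → Bool) (Wl La : ι → Finset (ℤ × ℤ)) (b o : ℤ × ℤ → ℤ × ℤ)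
      (V : Finset (ℤ × ℤ) → Finset (ℤ × ℤ) → ℂ) (rk : ℤ × ℤ → ℤ) (δ : ι → ℤ × ℤ) (ε : ι → Bool × Bool) (h0 : ι → ℤ)
      (FlT : ι → Finset (ℤ × ℤ)) (a0 : ι → ℤ) (a1 m r1 r2 R : ℤ)
      (M EF : ℝ) (EF' σ Z Z' : ι → ℝ) (s0 : ι → ℂ) (Q : Finset (ℤ × ℤ) → ℤ × ℤ → Prop),
      Multi X W Bb B TT fm co Wl La b o → VTog V W B TT fm co Wl La b o →
      VLoc V X W Bb B TT Sg fm co Wl La b o →
      (∀ i, FlatFamV X W Bb TT Sg fm co Wl La b o rk i (ε i) (δ i) (h0 i) (FlT i) R) →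
      (∀ ω ⊆ B, ∀ P ⊆ TT, ‖V ω P‖ ≤ M) →
      (∀ ω ⊆ B, ∀ e ∈ TT, DV V TT fm co La b e ω ≠ 0 → Q ω e) →
      (∀ i, ‖s0 i‖ ≤ σ i) → (∀ i, 1 / 4 ≤ σ i) → (∀ i, σ i < 1) → (∀ i, 2 ≤ a0 i) →
      (∀ i, K ≤ (1 - σ i) ^ ((3 : ℝ) / 2) * a0 i) → (∀ i, a0 i ≤ m) → 2 ≤ a1 → a1 ≤ m →
      K ≤ (1 - 1 / 4 : ℝ) ^ ((3 : ℝ) / 2) * a1 → 2 * m ≤ r1 → 2 * r1 ≤ r2 → r2 ≤ 8 * r1 →
      8 * r2 ≤ 3 * R →
      ‖TotV V B TT (fun e => s0 (fm e)) -
        Tot0V V B TT -
        ∑ e ∈ TT, TmV V B TT fm co La b rk (fun e => s0 (fm e)) e‖ ≤ EF →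
      (∀ i, ‖TotV V B TT (s4 fm i) -
        Tot0V V B TT -
        ∑ e ∈ TT, TmV V B TT fm co La b rk (s4 fm i) e‖ ≤ EF' i) →
      (∀ i, Ex hf B (fun ω => ∑ e ∈ TF TT fm i,
        crn TT fm co La b rk Q (FlT i) (σ i) e ω) ≤ Z i) →
      (∀ i, Ex hf B (fun ω => ∑ e ∈ TF TT fm i,
        crn TT fm co La b rk Q (FlT i) (1 / 4) e ω) ≤ Z' i) →
      ‖TotV V B TT (fun e => s0 (fm e)) -
        Tot0V V B TT -
        ∑ i, DR 1 m R (s0 i) * (TotV V B TT (s4 fm i) -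
          Tot0V V B TT)‖ ≤
      EF + ∑ i, (‖DR 1 m R (s0 i)‖ * EF' i +
        ((FlT i).card * (C * M * (((m : ℝ) + 1) / R) ^ γ /
          ((1 - σ i) ^ ((3 : ℝ) / 2) * (R : ℝ) ^ 2)) +
        (remB C β M (FlT i).card (Z i) (a0 i) m r2 +
          ‖DR 1 m R (s0 i)‖ * remB C β M (FlT i).card (Z' i) a1 m r2))) := by
  obtain ⟨K1, C1, γ, hK1, hC1, hγ, hmix⟩ := tie_mixV
  obtain ⟨K2, C2, β, hK2, hC2, hβ, hrem⟩ := fam_remV
  refine ⟨max K1 K2, max C1 C2, β, γ, lt_max_of_lt_left hK1, lt_max_of_lt_left hC1, hβ, hγ, ?_⟩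
  intro ι _ _ X W Bb B TT Sg fm co Wl La b o V rk δ ε h0 FlT a0 a1 m r1 r2 R M EF EF' σ Z Z' s0 Q hM hT
    hL hF hV hQ hs0 hσ1 hσ2 ha0 hK ham ha1 ha1m hK' hmr hr12 hr28 hr2R hEF hEF' hZ hZ'
  set s : ℤ × ℤ → ℂ := fun e => s0 (fm e) with hs
  set f0 := Tot0V V B TT with hf0
  set D : ι → ℂ := fun i => DR 1 m R (s0 i) with hD
  have hM0 : 0 ≤ M := (norm_nonneg _).trans (hV ∅ (empty_subset _) ∅ (empty_subset _))
  have hsF : ∀ i, ∀ e' ∈ TF TT fm i, s e' = s0 i := fun i e' he' => by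
    rw [hs]; simp only [(mem_TF.1 he').2]
  have hs4 : ∀ i, ∀ e' ∈ TF TT fm i, s4 fm i e' = 1 / 4 := fun i e' he' => by
    unfold s4; rw [if_pos (mem_TF.1 he').2]
  -- the ties of one family
  have fam : ∀ i, ‖∑ e ∈ TF TT fm i, (TmV V B TT fm co La b rk s e -
      D i * TmV V B TT fm co La b rk (s4 fm i) e)‖ ≤
      (FlT i).card * (max C1 C2 * M * (((m : ℝ) + 1) / R) ^ γ /
        ((1 - σ i) ^ ((3 : ℝ) / 2) * (R : ℝ) ^ 2)) +
      (remB (max C1 C2) β M (FlT i).card (Z i) (a0 i) m r2 +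
        ‖D i‖ * remB (max C1 C2) β M (FlT i).card (Z' i) a1 m r2) := by
    intro i
    have hFi := hF i
    have hsub := hFi.sub
    -- flat ties
    have q1 : ∀ e ∈ FlT i, ‖TmV V B TT fm co La b rk s e -
        D i * TmV V B TT fm co La b rk (s4 fm i) e‖ ≤
        C1 * M * (((m : ℝ) + 1) / R) ^ γ / ((1 - σ i) ^ ((3 : ℝ) / 2) * (R : ℝ) ^ 2) +
        (‖TmV V B TT fm co La b rk s e - TmtV V B TT fm co La b rk s m e‖ +
        ‖D i‖ * ‖TmV V B TT fm co La b rk (s4 fm i) e -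
          TmtV V B TT fm co La b rk (s4 fm i) m e‖) := by
      intro e he
      obtain ⟨heT, hei⟩ := mem_TF.1 (hsub he)
      have hmx := hmix X W Bb B TT Sg fm co Wl La b o V rk e (δ i) (ε i) m R M (σ i) (s0 i) s
        (s4 fm i) hM hT hL heT (by rw [hei]; exact hFi.flat e he) (by rw [hei]; exact hFi.root e he)
        (by rw [hei]; exact hFi.cs e he) hV
        (fun e' he' _ => hsF i e' (by rw [← hei]; exact he'))
        (fun e' he' _ => hs4 i e' (by rw [← hei]; exact he'))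
        (fun e' he' _ => hFi.st.rk e (hsub he) e' (by rw [← hei]; exact he'))
        (hσ1 i) (hσ2 i) (hs0 i) ?_ (by omega)
      · have e1 : TmV V B TT fm co La b rk s e -
            D i * TmV V B TT fm co La b rk (s4 fm i) e =
            (TmtV V B TT fm co La b rk s m e -
              D i * TmtV V B TT fm co La b rk (s4 fm i) m e) +
            ((TmV V B TT fm co La b rk s e - TmtV V B TT fm co La b rk s m e) -
            D i * (TmV V B TT fm co La b rk (s4 fm i) e -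
              TmtV V B TT fm co La b rk (s4 fm i) m e)) := by ring
        rw [e1]
        refine (norm_add_le _ _).trans (add_le_add hmx ?_)
        refine (norm_sub_le _ _).trans ?_
        rw [norm_mul]
      · refine ((le_max_left _ _).trans (hK i)).trans ?_
        have h1 : (0 : ℝ) ≤ (1 - σ i) ^ ((3 : ℝ) / 2) :=
          Real.rpow_nonneg (by linarith [hσ2 i]) _
        exact mul_le_mul_of_nonneg_left (by exact_mod_cast ham i) h1
    -- the others
    have q2 : ∀ e ∈ TF TT fm i \ FlT i, ‖TmV V B TT fm co La b rk s e -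
        D i * TmV V B TT fm co La b rk (s4 fm i) e‖ ≤
        2 * M * Ex hf B (crn TT fm co La b rk Q (FlT i) (σ i) e) +
        ‖D i‖ * (2 * M * Ex hf B (crn TT fm co La b rk Q (FlT i) (1 / 4) e)) := by
      intro e he
      obtain ⟨g1, g2⟩ := mem_sdiff.1 he
      refine (norm_sub_le _ _).trans ?_
      rw [norm_mul]
      refine add_le_add (TmV_crn hFi.st g1 g2 hV hQ (hsF i) (hs0 i))
        (mul_le_mul_of_nonneg_left (TmV_crn hFi.st g1 g2 hV hQ (hs4 i) (by norm_num))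
          (norm_nonneg _))
    have r1' := hrem X W Bb B TT Sg (FlT i) fm co Wl La b o V rk i (δ i) (ε i) (h0 i) (a0 i) m r1 r2 R
      M (σ i) (s0 i) s Q hM hT hFi hV hQ (hsF i) (hs0 i) (hσ1 i) (hσ2 i) (ha0 i)
      ((le_max_right _ _).trans (hK i)) (ham i) hmr hr12 hr28 hr2R
    have r2' := hrem X W Bb B TT Sg (FlT i) fm co Wl La b o V rk i (δ i) (ε i) (h0 i) a1 m r1 r2 R
      M (1 / 4) (1 / 4) (s4 fm i) Q hM hT hFi hV hQ (hs4 i) (by norm_num) le_rfl (by norm_num) ha1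
      ((le_max_right _ _).trans hK') ha1m hmr hr12 hr28 hr2R
    have hsplit : ∀ g : ℤ × ℤ → ℝ, ∑ e ∈ TF TT fm i, g e =
        ∑ e ∈ FlT i, g e + ∑ e ∈ TF TT fm i \ FlT i, g e := fun g =>
      (add_comm _ _).trans (sum_sdiff hsub) |>.symm
    have hcr : ∀ t : ℝ, Ex hf B (fun ω => ∑ e ∈ FlT i,
          crn TT fm co La b rk Q (FlT i) t e ω) +
        ∑ e ∈ TF TT fm i \ FlT i, Ex hf B (crn TT fm co La b rk Q (FlT i) t e) =
        Ex hf B (fun ω => ∑ e ∈ TF TT fm i, crn TT fm co La b rk Q (FlT i) t e ω) := by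
      intro t
      rw [Ex_sum, Ex_sum]
      exact (hsplit (fun e => Ex hf B (crn TT fm co La b rk Q (FlT i) t e))).symm
    refine (norm_sum_le _ _).trans ?_
    rw [hsplit]
    refine (add_le_add (sum_le_sum q1) (sum_le_sum q2)).trans ?_
    rw [sum_add_distrib, sum_add_distrib, sum_add_distrib, sum_const, nsmul_eq_mul, ← mul_sum,
      ← mul_sum, ← mul_sum, ← mul_sum]
    set n : ℝ := ((FlT i).card : ℝ) with hn
    have hn0 : 0 ≤ n := Nat.cast_nonneg _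
    have hRR : (0 : ℝ) ≤ (((m : ℝ) + 1) / R) ^ γ := by
      have h1 : (0 : ℝ) ≤ m := by exact_mod_cast (by omega : (0 : ℤ) ≤ m)
      have h2 : (0 : ℝ) ≤ R := by exact_mod_cast (by omega : (0 : ℤ) ≤ R)
      exact Real.rpow_nonneg (by positivity) _
    have w1 : n * (C1 * M * (((m : ℝ) + 1) / R) ^ γ /
        ((1 - σ i) ^ ((3 : ℝ) / 2) * (R : ℝ) ^ 2)) ≤
        n * (max C1 C2 * M * (((m : ℝ) + 1) / R) ^ γ /
        ((1 - σ i) ^ ((3 : ℝ) / 2) * (R : ℝ) ^ 2)) := by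
      refine mul_le_mul_of_nonneg_left (div_le_div_of_nonneg_right ?_ ?_) hn0
      · exact mul_le_mul_of_nonneg_right (mul_le_mul_of_nonneg_right (le_max_left _ _) hM0) hRR
      · exact mul_nonneg (Real.rpow_nonneg (by linarith [hσ2 i]) _) (sq_nonneg _)
    have w2 : ∀ (Z1 : ℝ) (t : ℤ), 2 ≤ t → remB C2 β M n Z1 t m r2 ≤
        remB (max C1 C2) β M n Z1 t m r2 := by
      intro Z1 t ht
      unfold remB
      have ht0 : (0 : ℝ) ≤ t := by exact_mod_cast (by omega : (0 : ℤ) ≤ t)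
      have hm0 : (0 : ℝ) ≤ m := by exact_mod_cast (by omega : (0 : ℤ) ≤ m)
      have hr0 : (0 : ℝ) ≤ r2 := by exact_mod_cast (by omega : (0 : ℤ) ≤ r2)
      have h1 : (0 : ℝ) ≤ ((t : ℝ) / m) ^ β := Real.rpow_nonneg (div_nonneg ht0 hm0) _
      have h2 : (0 : ℝ) ≤ ((m : ℝ) / r2) ^ β := Real.rpow_nonneg (div_nonneg hm0 hr0) _
      have h3 : C2 ≤ max C1 C2 := le_max_right _ _
      refine mul_le_mul_of_nonneg_left (add_le_add (add_le_add ?_ ?_) le_rfl) (by positivity)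
      · refine mul_le_mul_of_nonneg_left (div_le_div_of_nonneg_right ?_ (by positivity)) hn0
        exact mul_le_mul_of_nonneg_right (mul_le_mul_of_nonneg_right h3 (by linarith)) ht0
      · refine mul_le_mul_of_nonneg_left (pow_le_pow_left₀ (by positivity) ?_ 2) (by positivity)
        exact div_le_div_of_nonneg_right (mul_le_mul_of_nonneg_right h3 ht0) (by positivity)
    have v1 := w2 (Z i) (a0 i) (ha0 i)
    have v2 := w2 (Z' i) a1 ha1
    -- remainders including the ties which are not flat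
    have t1 : ∑ e ∈ FlT i, ‖TmV V B TT fm co La b rk s e -
          TmtV V B TT fm co La b rk s m e‖ +
        2 * M * ∑ e ∈ TF TT fm i \ FlT i, Ex hf B (crn TT fm co La b rk Q (FlT i) (σ i) e) ≤
        remB C2 β M n (Z i) (a0 i) m r2 := by
      refine (add_le_add r1' le_rfl).trans ?_
      unfold remB
      rw [← mul_add, add_assoc, add_assoc, hcr]
      rw [← add_assoc]
      exact mul_le_mul_of_nonneg_left (by linarith [hZ i]) (by positivity)
    have t2 : ∑ e ∈ FlT i, ‖TmV V B TT fm co La b rk (s4 fm i) e -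
          TmtV V B TT fm co La b rk (s4 fm i) m e‖ +
        2 * M * ∑ e ∈ TF TT fm i \ FlT i, Ex hf B (crn TT fm co La b rk Q (FlT i) (1 / 4) e) ≤
        remB C2 β M n (Z' i) a1 m r2 := by
      refine (add_le_add r2' le_rfl).trans ?_
      unfold remB
      rw [← mul_add, add_assoc, add_assoc, hcr]
      rw [← add_assoc]
      exact mul_le_mul_of_nonneg_left (by linarith [hZ' i]) (by positivity)
    have t2' := mul_le_mul_of_nonneg_left (t2.trans v2) (norm_nonneg (D i))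
    rw [mul_add] at t2'
    linarith
  -- the identity
  have hfib : ∀ g : ℤ × ℤ → ℂ, ∑ e ∈ TT, g e = ∑ i, ∑ e ∈ TF TT fm i, g e := by
    intro g
    exact (sum_fiberwise_of_maps_to (s := TT) (t := univ) (g := fm)
      (fun _ _ => mem_univ _) g).symm
  have hz : ∀ i, ∑ e ∈ TT, TmV V B TT fm co La b rk (s4 fm i) e =
      ∑ e ∈ TF TT fm i, TmV V B TT fm co La b rk (s4 fm i) e := by
    intro i
    refine (sum_subset (filter_subset _ _) fun e h1 h2 => ?_).symm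
    refine TmV_zero ?_ h1
    unfold s4
    rw [if_neg fun h3 => h2 (mem_TF.2 ⟨h1, h3⟩)]
  have e1 : TotV V B TT s - f0 -
      ∑ i, D i * (TotV V B TT (s4 fm i) - f0) =
      (TotV V B TT s - f0 - ∑ e ∈ TT, TmV V B TT fm co La b rk s e) +
      ∑ i, (∑ e ∈ TF TT fm i, (TmV V B TT fm co La b rk s e -
        D i * TmV V B TT fm co La b rk (s4 fm i) e) -
        D i * (TotV V B TT (s4 fm i) - f0 -
          ∑ e ∈ TT, TmV V B TT fm co La b rk (s4 fm i) e)) := by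
    rw [hfib (TmV V B TT fm co La b rk s)]
    have e2 : ∀ i, ∑ e ∈ TF TT fm i, (TmV V B TT fm co La b rk s e -
        D i * TmV V B TT fm co La b rk (s4 fm i) e) -
        D i * (TotV V B TT (s4 fm i) - f0 -
          ∑ e ∈ TT, TmV V B TT fm co La b rk (s4 fm i) e) =
        ∑ e ∈ TF TT fm i, TmV V B TT fm co La b rk s e -
        D i * (TotV V B TT (s4 fm i) - f0) := by
      intro i
      rw [hz i, sum_sub_distrib, ← mul_sum]
      ring
    rw [sum_congr rfl fun i _ => e2 i, sum_sub_distrib]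
    ring
  rw [e1]
  refine (norm_add_le _ _).trans (add_le_add hEF ((norm_sum_le _ _).trans (sum_le_sum fun i _ => ?_)))
  refine (norm_sub_le _ _).trans ?_
  rw [norm_mul, add_comm]
  exact add_le_add (mul_le_mul_of_nonneg_left (hEF' i) (norm_nonneg _)) (fam i)

end Pool.Agent.H15.W
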