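import Mathlib
import Pool.Agent.Q1.M6e.Wn.Fine
import Pool.Agent.H49.W.AsmW3

set_option autoImplicit false
open Finset

/-!
# Theorem C for an abstract functional: the interface

`CaseV` : geometry `d : DatW` of one tied environment, functional `V ω P` (`ω` : labels of the layer `d.B`, `P` : the
ties which are tied), labels `Sg` of the roots and of the corners of `V`. `FineV` : the inputs of the assembly.
`FineVP P` : the inputs hold for the class `P` (`P η R x` : `x` is a member of size `R`, regularity `η`).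
-/

namespace Pool.Agent.H15.W

open Pool.Agent.H75.Perc Pool.Agent.H75.TwoArm Pool.Agent.H75.Four Pool.Agent.H49.Perc
open Pool.Agent.H69.Q1 Pool.Agent.H39.Q1 Pool.Agent.H25.Q1.Add
open Pool.Agent.H99.NC Pool.Agent.H60.Q1 Pool.Agent.H20.Q1 Pool.Agent.Q1
open Pool.Agent.Q1.M6e Pool.Agent.Q1.M6e.Wn
open Pool.Agent.H44.FM.AsmW (TW)
open Pool.Agent.H49.W (WallsV asm_wallsV resp_wallV add_wallsV)

section

variable {ι κ : Type} [DecidableEq ι] [DecidableEq κ] (d : DatW ι κ)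
  (V : Finset (ℤ × ℤ) → Finset (ℤ × ℤ) → ℂ)

/-- total, weight `s w` on the wall `w` -/
noncomputable def totV (s : κ → ℂ) : ℂ := TotV V d.B d.TT (fun e => s (d.wl e))

/-- everything tied -/
noncomputable def tot0V : ℂ := Tot0V V d.B d.TT

/-- first order terms -/
noncomputable def fstV (s : κ → ℂ) : ℂ :=
  ∑ e ∈ d.TT, TmV V d.B d.TT d.fm d.co d.La d.b d.rk (fun e => s (d.wl e)) e

/-- bound of the functional for every configuration of the layer and of the ties -/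
def HVV (M : ℝ) : Prop := ∀ ω ⊆ d.B, ∀ P ⊆ d.TT, ‖V ω P‖ ≤ M

/-- **The inputs of the assembly for one environment**, window radius `R'`; `FlT w` : the ties of the wall
`w` whose box of radius `R' + 1` is flat; `Q` : the relevant ties. -/
structure FineV (C c K : ℝ) (R : ℕ) (R' : ℤ) (d : DatW ι κ)
    (V : Finset (ℤ × ℤ) → Finset (ℤ × ℤ) → ℂ) (Sg : Finset (ℤ × ℤ))
    (FlT : κ → Finset (ℤ × ℤ)) (Q : Finset (ℤ × ℤ) → ℤ × ℤ → Prop) : Prop where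
  mul : Multi d.X d.W d.Bb d.B d.TT d.fm d.co d.Wl d.La d.b d.o
  tog : VTog V d.W d.B d.TT d.fm d.co d.Wl d.La d.b d.o
  loc : VLoc V d.X d.W d.Bb d.B d.TT Sg d.fm d.co d.Wl d.La d.b d.o
  wal : WallsV d.X d.W d.Bb d.TT Sg d.fm d.co d.Wl d.La d.b d.o d.rk d.wl d.fw d.ε d.δ FlT R'
  card : ∀ w, ((FlT w).card : ℝ) ≤ C * R
  irr : ∀ ω ⊆ d.B, ∀ e ∈ d.TT, DV V d.TT d.fm d.co d.La d.b e ω ≠ 0 → Q ω e
  fst : ∀ M : ℝ, HVV d V M → ∀ (s : κ → ℂ) (a0 : ℤ),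
    (∀ w, ‖s w‖ < 1) → (∀ w, ‖1 - s w‖ ≤ 16 * (1 - ‖s w‖)) → 2 ≤ a0 → a0 ≤ R' →
    (∀ w, K ≤ (1 - ‖s w‖) ^ ((3 : ℝ) / 2) * a0) →
    ‖totV d V s - tot0V d V - fstV d V s‖ ≤ C * M * ((a0 : ℝ) / R) ^ (1 + c)
  crn : ∀ (w : κ) (σ : ℝ) (a0 : ℤ), 1 / 4 ≤ σ → σ < 1 → 2 ≤ a0 → a0 ≤ R' →
    K ≤ (1 - σ) ^ ((3 : ℝ) / 2) * a0 →
    Ex hf d.B (fun ω => ∑ e ∈ TW d.TT d.wl w,
      crn d.TT d.fm d.co d.La d.b d.rk Q (FlT w) σ e ω) ≤ C * ((a0 : ℝ) / R) * ((R' : ℝ) / R) ^ c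

end

section

variable {ι κ : Type} [DecidableEq ι] [DecidableEq κ] {d : DatW ι κ}
  {V : Finset (ℤ × ℤ) → Finset (ℤ × ℤ) → ℂ} {Sg : Finset (ℤ × ℤ)}
  {C C' c c' K K' M : ℝ} {R : ℕ} {R' : ℤ} {FlT : κ → Finset (ℤ × ℤ)}
  {Q : Finset (ℤ × ℤ) → ℤ × ℤ → Prop}

lemma HVV.nonneg (h : HVV d V M) : 0 ≤ M :=
  (norm_nonneg _).trans (h ∅ (empty_subset _) ∅ (empty_subset _))

/-- the constants may be enlarged -/
lemma FineV.mono (h : FineV C c K R R' d V Sg FlT Q) (hC : C ≤ C') (hc : c' ≤ c) (hK : K ≤ K')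
    (hC0 : 0 ≤ C) (hc0 : 0 < c') (hR : 0 < R) (hR' : (R' : ℝ) ≤ R) :
    FineV C' c' K' R R' d V Sg FlT Q where
  mul := h.mul
  tog := h.tog
  loc := h.loc
  wal := h.wal
  card := fun w => (h.card w).trans (mul_le_mul_of_nonneg_right hC (Nat.cast_nonneg _))
  irr := h.irr
  fst := by
    intro M hM s a0 h1 h2 h3 h4 h5
    have hM0 : 0 ≤ M := hM.nonneg
    have hR0 : (0 : ℝ) < R := by exact_mod_cast hR
    have ha0 : (0 : ℝ) < a0 := by exact_mod_cast (by omega : (0 : ℤ) < a0)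
    have ha1 : (a0 : ℝ) / R ≤ 1 := by
      rw [div_le_one hR0]
      have : (a0 : ℝ) ≤ R' := by exact_mod_cast h4
      linarith
    refine (h.fst M hM s a0 h1 h2 h3 h4 fun w => hK.trans (h5 w)).trans ?_
    refine mul_le_mul (mul_le_mul_of_nonneg_right hC hM0) ?_ (by positivity)
      (mul_nonneg (hC0.trans hC) hM0)
    exact Real.rpow_le_rpow_of_exponent_ge (by positivity) ha1 (by linarith)
  crn := by
    intro w σ a0 h1 h2 h3 h4 h5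
    have hR0 : (0 : ℝ) < R := by exact_mod_cast hR
    have ha0 : (0 : ℝ) < a0 := by exact_mod_cast (by omega : (0 : ℤ) < a0)
    have hR'0 : (0 : ℝ) < R' := by exact_mod_cast (by omega : (0 : ℤ) < R')
    have ha1 : (R' : ℝ) / R ≤ 1 := (div_le_one hR0).2 hR'
    refine (h.crn w σ a0 h1 h2 h3 h4 (hK.trans h5)).trans ?_
    refine mul_le_mul (mul_le_mul_of_nonneg_right hC (by positivity)) ?_ (by positivity)
      (mul_nonneg (hC0.trans hC) (by positivity))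
    exact Real.rpow_le_rpow_of_exponent_ge (by positivity) ha1 hc

end

/-- one tied environment with its functional -/
structure CaseV where
  ι : Type
  κ : Type
  [di : DecidableEq ι]
  [dk : DecidableEq κ]
  [fk : Fintype κ]
  d : DatW ι κ
  V : Finset (ℤ × ℤ) → Finset (ℤ × ℤ) → ℂ
  Sg : Finset (ℤ × ℤ)

attribute [instance] CaseV.di CaseV.dk CaseV.fk

/-- total of a case -/
noncomputable def CaseV.tot (x : CaseV) (s : x.κ → ℂ) : ℂ := totV x.d x.V s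

/-- everything tied -/
noncomputable def CaseV.tot0 (x : CaseV) : ℂ := tot0V x.d x.V

/-- bound of the functional -/
def CaseV.HV (x : CaseV) (M : ℝ) : Prop := HVV x.d x.V M

/-- **the inputs hold for the class `P`** -/
def FineVP (P : ℝ → ℕ → CaseV → Prop) : Prop :=
  ∀ η : ℝ, 0 < η → ∃ (N0 : ℕ) (C c K ζ : ℝ) (R1 : ℕ), 0 < C ∧ 0 < c ∧ 0 < K ∧ 0 < ζ ∧
    ∀ R : ℕ, R1 ≤ R → ∀ x : CaseV, P η R x → Fintype.card x.κ ≤ N0 ∧
    ∀ R' : ℤ, R1 ≤ R' → (R' : ℝ) ≤ ζ * R →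
    ∃ (FlT : x.κ → Finset (ℤ × ℤ)) (Q : Finset (ℤ × ℤ) → ℤ × ℤ → Prop),
      FineV C c K R R' x.d x.V x.Sg FlT Q

/-- assembly for one environment with the inputs `FineV` -/
theorem fineV_bound : ∃ Ka Ca β γ : ℝ, 0 < Ka ∧ 0 < Ca ∧ 0 < β ∧ 0 < γ ∧
    ∀ {ι κ : Type} [DecidableEq ι] [DecidableEq κ] [Fintype κ] (C1 c1 K1 : ℝ) (R : ℕ) (R' : ℤ)
      (d : DatW ι κ) (V : Finset (ℤ × ℤ) → Finset (ℤ × ℤ) → ℂ) (Sg : Finset (ℤ × ℤ))
      (FlT : κ → Finset (ℤ × ℤ)) (Q : Finset (ℤ × ℤ) → ℤ × ℤ → Prop) (M : ℝ),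
      FineV C1 c1 K1 R R' d V Sg FlT Q → HVV d V M → ∀ (s : κ → ℂ) (σ : ℝ) (a0 a1 m r1 r2 : ℤ), (∀ i, ‖s i‖ ≤ σ) →
      (∀ i, ‖1 - s i‖ ≤ 16 * (1 - ‖s i‖)) → 1 / 4 ≤ σ → σ < 1 → 2 ≤ a0 →
      max Ka K1 ≤ (1 - σ) ^ ((3 : ℝ) / 2) * a0 → a0 ≤ m → 2 ≤ a1 → a1 ≤ m →
      max Ka K1 ≤ (1 - 1 / 4 : ℝ) ^ ((3 : ℝ) / 2) * a1 → 2 * m ≤ r1 → 2 * r1 ≤ r2 → r2 ≤ 8 * r1 →
      8 * r2 ≤ 3 * R' →
      ‖totV d V s - tot0V d V - ∑ i, DR 1 m R' (s i) * (totV d V (wS {i}) - tot0V d V)‖ ≤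
      RhsE C1 c1 Ca β γ M σ R R' a0 a1 m r2 (fun i => (FlT i).card) (fun i => ‖DR 1 m R' (s i)‖) := by
  obtain ⟨Ka, Ca, β, γ, hKa, hCa, hβ, hγ, H⟩ := asm_wallsV
  refine ⟨Ka, Ca, β, γ, hKa, hCa, hβ, hγ, ?_⟩
  intro ι κ _ _ _ C1 c1 K1 R R' d V Sg FlT Q M hF hV s σ a0 a1 m r1 r2 hs hs' hσ1 hσ2 ha0 hK0 ham ha1
    ha1m hK1 hmr hr12 hr28 hr2R
  have hle : ∀ i, (1 - σ) ^ ((3 : ℝ) / 2) * (a0 : ℝ) ≤ (1 - ‖s i‖) ^ ((3 : ℝ) / 2) * a0 := by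
    intro i
    have h1 : (0 : ℝ) ≤ a0 := by exact_mod_cast (by omega : (0 : ℤ) ≤ a0)
    exact mul_le_mul_of_nonneg_right (Real.rpow_le_rpow (by linarith) (by linarith [hs i])
      (by norm_num)) h1
  have hle4 : ∀ i j, (1 - 1 / 4 : ℝ) ^ ((3 : ℝ) / 2) * (a1 : ℝ) ≤
      (1 - ‖wS ({i} : Finset κ) j‖) ^ ((3 : ℝ) / 2) * a1 := by
    intro i j
    have h1 : (0 : ℝ) ≤ a1 := by exact_mod_cast (by omega : (0 : ℤ) ≤ a1)
    exact mul_le_mul_of_nonneg_right (Real.rpow_le_rpow (by norm_num) (by linarith [norm_wS {i} j])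
      (by norm_num)) h1
  have key := H d.X d.W d.Bb d.B d.TT Sg d.fm d.co d.Wl d.La d.b d.o V d.rk d.wl d.fw d.ε d.δ FlT
    (fun _ => a0) a1 m r1 r2 R' M (C1 * M * ((a0 : ℝ) / R) ^ (1 + c1))
    (fun _ => C1 * M * ((a1 : ℝ) / R) ^ (1 + c1)) (fun _ => σ)
    (fun _ => C1 * ((a0 : ℝ) / R) * ((R' : ℝ) / R) ^ c1)
    (fun _ => C1 * ((a1 : ℝ) / R) * ((R' : ℝ) / R) ^ c1) s Q hF.mul hF.tog hF.loc hF.wal hV
    hF.irr (fun _ w' _ => hs w') (fun _ => hσ1) (fun _ => hσ2) (fun _ => ha0)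
    (fun _ => (le_max_left _ _).trans hK0) (fun _ => ham) ha1 ha1m ((le_max_left _ _).trans hK1)
    hmr hr12 hr28 hr2R ?_ ?_ ?_ ?_
  · exact key
  · exact hF.fst M hV s a0 (fun i => (hs i).trans_lt hσ2) hs' ha0 (by omega)
      (fun i => ((le_max_right _ _).trans hK0).trans (hle i))
  · intro i
    exact hF.fst M hV (wS {i}) a1 (fun j => (norm_wS _ j).trans_lt (by norm_num))
      (one_sub_wS {i}) ha1 (by omega) (fun j => ((le_max_right _ _).trans hK1).trans (hle4 i j))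
  · intro i
    exact hF.crn i σ a0 hσ1 hσ2 ha0 (by omega) ((le_max_right _ _).trans hK0)
  · intro i
    exact hF.crn i (1 / 4) a1 le_rfl (by norm_num) ha1 (by omega) ((le_max_right _ _).trans hK1)

end Pool.Agent.H15.W
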