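import Mathlib
import Pool.Agent.Q1.M6e.Wn.LRP
import Pool.Agent.H15.W.C.Fine

set_option autoImplicit false
open Finset

/-!
# Linear response for an abstract functional

`lrV` : one response function `G` for all members of the class; the error is `ε ρ M` if the functional is bounded by
`M`.
-/

namespace Pool.Agent.H15.W

open Pool.Agent.H75.Perc Pool.Agent.H75.TwoArm Pool.Agent.H75.Four Pool.Agent.H49.Perc
open Pool.Agent.H69.Q1 Pool.Agent.H39.Q1 Pool.Agent.H25.Q1.Add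
open Pool.Agent.H99.NC Pool.Agent.H60.Q1 Pool.Agent.H20.Q1 Pool.Agent.Q1
open Pool.Agent.Q1.M6e Pool.Agent.Q1.M6e.Wn
open Pool.Agent.H44.FM.AsmW (TW)
open Pool.Agent.H49.W (WallsV asm_wallsV resp_wallV add_wallsV)
open Pool.Agent.H25.Q1.Close Pool.Agent.Q1.M6f
open Pool.Agent.H53.FM (GHypX UBY UB ghypX_DR)

/-- **Linear response for the class `P`**, one response function. -/
theorem lrV : ∃ C c : ℝ, 0 < c ∧ ∀ P : ℝ → ℕ → CaseV → Prop, FineVP P →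
    ∀ η : ℝ, 0 < η → ∀ ε : ℝ, 0 < ε → ∀ Y : ℝ, ∃ ρ1 : ℝ, 0 < ρ1 ∧ ∀ ρ : ℝ, 0 < ρ →
    ρ < ρ1 → ∃ R0 : ℕ, ∀ R : ℕ, R0 ≤ R → ∃ G : ℂ → ℂ, GHypX C c Y G ∧
    ∀ x : CaseV, P η R x → ∀ M : ℝ, x.HV M → ∀ (S : Finset x.κ) (z : x.κ → ℂ),
    (∀ w, 0 ≤ (z w).re ∧ (z w).re ≤ Real.pi ∧ |(z w).im| ≤ 1) →
    ‖x.tot (sz S ⌊ρ * R⌋₊ z) - x.tot0 -
      (⌊ρ * R⌋₊ : ℂ) * ∑ w ∈ S, G (z w) * (x.tot (wS {w}) - x.tot0)‖ ≤
      ε * ρ * M := by
  obtain ⟨C3, c3, K3, hC3, hc3, hK3, hG⟩ := ghypX_DR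
  refine ⟨C3, c3, hc3, fun P hF η hη => ?_⟩
  obtain ⟨N0, C1, c1, K1, ζ1, R1, hC1, hc1, hK1, hζ1, hFi⟩ := hF η hη
  obtain ⟨Ka, Ca, β, γ, hKa, hCa, hβ, hγ, hfb⟩ := fineV_bound
  intro ε hε Y
  set Y2 : ℝ := max Y 2 with hY2
  have hY20 : 0 ≤ Y2 := le_trans (by norm_num) (le_max_right _ _)
  set κ0 : ℝ := 9 / 32 * Real.exp (-(2 / 3)) with hκ0
  have hκ00 : 0 < κ0 := by positivity
  have hκ01 : κ0 ≤ 9 / 32 := by
    have : Real.exp (-(2 / 3)) ≤ 1 := Real.exp_le_one_iff.2 (by norm_num)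
    rw [hκ0]; linarith
  set κ' : ℝ := κ0 ^ ((3 : ℝ) / 2) with hκ
  have hκpos : 0 < κ' := Real.rpow_pos_of_pos hκ00 _
  have hκ1 : κ' ≤ 1 := Real.rpow_le_one hκ00.le (by linarith) (by norm_num)
  have hKpos : 0 < max Ka K1 := lt_max_of_lt_left hKa
  have hCDpos : 0 < C3 * Real.exp 1 := by positivity
  obtain ⟨ρ1, hρ1, hcore⟩ := lr_core N0 (K5 := K3 * Real.exp Y2) hC1 hc1 hCa hβ hγ hCDpos hκpos hκ1
    hKpos (ζm := ζ1) (ε := ε) hζ1 hε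
  refine ⟨ρ1, hρ1, fun ρ hρ hρl => ?_⟩
  obtain ⟨R0, hR0⟩ := hcore ρ hρ hρl R1 (Real.exp Y2)
  refine ⟨R0, fun R hR => ?_⟩
  set n : ℕ := ⌊ρ * R⌋₊ with hn
  obtain ⟨a0, a1, m, r1, r2, R', hn1', hnY, hRpos, hRR, ha02, ha0K, ha0m, ha12, ha1K, ha1m, hmr,
    hr2c, hr2e, hr2a, hmR', hK5, hR'n, hζR, hE⟩ := hR0 R hR n hn
  have hn3 : (1 : ℝ) ≤ n := by exact_mod_cast hn1'
  have hnpos : (0 : ℝ) < n := by linarith
  have hlog : Y2 ≤ Real.log n := by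
    rw [Real.le_log_iff_exp_le hnpos]; exact hnY
  set σ : ℝ := 1 - κ0 * (n : ℝ) ^ (-(2 / 3) : ℝ) with hσ
  have hnp : (n : ℝ) ^ (-(2 / 3) : ℝ) ≤ 1 := Real.rpow_le_one_of_one_le_of_nonpos hn3 (by norm_num)
  have hnp0 : 0 < (n : ℝ) ^ (-(2 / 3) : ℝ) := Real.rpow_pos_of_pos hnpos _
  have hσ1 : 1 / 4 ≤ σ := by
    have := mul_le_mul hκ01 hnp hnp0.le (by norm_num)
    rw [hσ]; linarith
  have hσ2 : σ < 1 := by
    have := mul_pos hκ00 hnp0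
    rw [hσ]; linarith
  have hσκ : (1 - σ) ^ ((3 : ℝ) / 2) = κ' / n := by
    rw [hσ, sub_sub_cancel, Real.mul_rpow hκ00.le hnp0.le, ← Real.rpow_mul hnpos.le,
      show (-(2 / 3) : ℝ) * (3 / 2) = -1 by norm_num, Real.rpow_neg_one, hκ]
    rfl
  have hexp : Real.exp (Real.log n) = n := Real.exp_log hnpos
  have hGH : GHypX C3 c3 Y2 (GD 1 m R' (Real.log n)) := by
    refine hG 1 (Or.inr rfl) Y2 (Real.log n) m R' hY20 hlog ?_ hmR'
    rw [Real.exp_add, hexp]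
    linarith
  refine ⟨GD 1 m R' (Real.log n), Pool.Agent.H53.FM.GHypX.restr hGH (le_max_left _ _), ?_⟩
  intro x hPx MM hHV S z hz
  have hR1R : R1 ≤ R := hRR
  have hR1R' : (R1 : ℤ) ≤ R' := hR'n
  obtain ⟨hcard, hFi2⟩ := hFi R hR1R x hPx
  obtain ⟨FlT, Q, hFine⟩ := hFi2 R' hR1R' hζR
  have hMM0 : 0 ≤ MM := HVV.nonneg hHV
  set s : x.κ → ℂ := sz S n z with hs
  have hσ0 : 0 ≤ σ := by linarith
  have hsb : ∀ i, ‖s i‖ ≤ σ := by
    intro i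
    rw [hs]
    unfold sz
    split_ifs
    · exact swn_le hn1' (hz i).1 (hz i).2.1 (hz i).2.2
    · rw [norm_zero]; exact hσ0
  have hs1 : ∀ i, ‖1 - s i‖ ≤ 16 * (1 - ‖s i‖) := by
    intro i
    rw [hs]
    unfold sz
    split_ifs
    · exact norm_one_sub_sw (by rw [re_shift]; exact (hz i).1) (by rw [re_shift]; exact (hz i).2.1)
    · norm_num
  have hDG : ∀ i ∈ S, DR 1 m R' (s i) = (n : ℂ) * GD 1 m R' (Real.log n) (z i) := by
    intro i hi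
    have e1 : (n : ℂ) * ((Real.exp (-Real.log n) : ℝ) : ℂ) = 1 := by
      rw [Real.exp_neg, hexp]
      push_cast
      exact mul_inv_cancel₀ (by exact_mod_cast hnpos.ne')
    have e2 : s i = swn n (z i) := by rw [hs]; unfold sz; rw [if_pos hi]
    unfold Pool.Agent.H20.Q1.GD
    rw [← mul_assoc, e1, one_mul, e2]
    rfl
  have hD0 : ∀ i, i ∉ S → DR 1 m R' (s i) = 0 := by
    intro i hi
    have e2 : s i = 0 := by rw [hs]; unfold sz; rw [if_neg hi]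
    rw [e2, DR_zero]
  have hpi := Real.pi_pos
  have hDn : ∀ i, ‖DR 1 m R' (s i)‖ ≤ C3 * Real.exp 1 * n := by
    intro i
    by_cases hi : i ∈ S
    · have h1 := hGH.boundX (z i) ⟨⟨by linarith [(hz i).1], by linarith [(hz i).2.1]⟩,
        lt_of_le_of_lt (hz i).2.2 (lt_of_lt_of_le (by norm_num) (le_max_right _ _))⟩
      rw [hDG i hi, norm_mul, Complex.norm_natCast, mul_comm]
      refine mul_le_mul_of_nonneg_right (h1.trans ?_) hnpos.le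
      exact mul_le_mul_of_nonneg_left (Real.exp_le_exp.2 (abs_le.1 (hz i).2.2).2) hC3.le
    · rw [hD0 i hi, norm_zero]
      positivity
  have key := hfb C1 c1 K1 R R' x.d x.V x.Sg FlT Q MM hFine hHV s σ a0 a1 m r1 r2
    hsb hs1 hσ1 hσ2 ha02 (by rw [hσκ]; exact ha0K) ha0m ha12 ha1m ha1K hmr hr2c hr2e hr2a
  have key2 := hE (ι := x.κ) hcard σ hσκ.ge (fun i => ((FlT i).card : ℝ))
    (fun i => ‖DR 1 m R' (s i)‖) (fun i => Nat.cast_nonneg _) hFine.card (fun i => norm_nonneg _)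
    hDn MM hMM0
  have hsum : ∑ i, DR 1 m R' (s i) * (totV x.d x.V (wS {i}) - tot0V x.d x.V) =
      (n : ℂ) * ∑ w ∈ S, GD 1 m R' (Real.log n) (z w) * (x.tot (wS {w}) - x.tot0) := by
    rw [mul_sum, ← sum_subset (subset_univ S)]
    · refine sum_congr rfl fun w hw => ?_
      rw [hDG w hw, mul_assoc]
      rfl
    · intro w _ hw
      rw [hD0 w hw, zero_mul]
  have e0 : x.tot (sz S n z) - x.tot0 = totV x.d x.V s - tot0V x.d x.V := rfl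
  rw [e0, ← hsum]
  exact key.trans key2

end Pool.Agent.H15.W
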