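import Mathlib
import Pool.Agent.Q1.M6e.Wn.P45
import Pool.Agent.H39.W.Fun
import Pool.Agent.H15.W.C.LRV
import Pool.Agent.H15.W.C.NRV

set_option autoImplicit false
open Finset

/-!
# Abstract functionals: unions of classes, the functionals of one environment, the 45 degree rectangles

`ofW x` : the functional of one environment. `fineVP_of` : `FineP P` implies `FineVP (ofP P)`. `fineVP_or` : unions.
`lrVJ` : one response function for the 45 degree rectangles and for the class `P`.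
-/

namespace Pool.Agent.H15.W

open Pool.Agent.H75.Perc Pool.Agent.H75.TwoArm Pool.Agent.H75.Four Pool.Agent.H49.Perc
open Pool.Agent.H69.Q1 Pool.Agent.H39.Q1 Pool.Agent.H25.Q1.Add
open Pool.Agent.H99.NC Pool.Agent.H60.Q1 Pool.Agent.H20.Q1 Pool.Agent.Q1
open Pool.Agent.H33.Q1 Pool.Agent.H74.R45 Pool.Agent.H13.R45 Pool.Agent.H13.Q1
open Pool.Agent.H64.Q1 Pool.Agent.Q1.M6f.Glue Pool.Agent.H25.Q1.Close Pool.Agent.Q1.M6f
open Pool.Agent.H95.R45 (Sc PotJ)
open Pool.Agent.Q1.M6e Pool.Agent.Q1.M6e.Wn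
open Pool.Agent.H44.FM.AsmW (TW)
open Pool.Agent.H49.W (WallsV)
open Pool.Agent.H53.FM (GHypX)

/-- the functional of one environment -/
noncomputable def ofW (x : CaseW) : CaseV where
  ι := x.ι
  κ := x.κ
  d := x.d
  V := VM x.d.X x.Cs x.a x.d.Bb x.d.B x.d.TT x.d.fm x.d.co
  Sg := x.Cs.image lab

/-- the functionals of the environments of the class `P` -/
def ofP (P : ℝ → ℕ → CaseW → Prop) (η : ℝ) (R : ℕ) (y : CaseV) : Prop := ∃ x, P η R x ∧ y = ofW x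

section

variable {ι κ : Type} [DecidableEq ι] [DecidableEq κ] {d : DatW ι κ} {Cs : Finset (ℤ × ℤ)}
  {a : ℤ × ℤ → ℂ} {C c K M : ℝ} {R : ℕ} {R' : ℤ} {FlT : κ → Finset (ℤ × ℤ)}
  {Q : Finset (ℤ × ℤ) → ℤ × ℤ → Prop}

lemma totV_VM (h : Multi d.X d.W d.Bb d.B d.TT d.fm d.co d.Wl d.La d.b d.o) (s : κ → ℂ) :
    totV d (VM d.X Cs a d.Bb d.B d.TT d.fm d.co) s = d.tot Cs a s :=
  Pool.Agent.H39.W.TotV_VM h

lemma tot0V_VM (h : Multi d.X d.W d.Bb d.B d.TT d.fm d.co d.Wl d.La d.b d.o) :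
    tot0V d (VM d.X Cs a d.Bb d.B d.TT d.fm d.co) = d.tot0 Cs a :=
  Pool.Agent.H39.W.Eh_VM h

lemma fstV_VM (s : κ → ℂ) :
    fstV d (VM d.X Cs a d.Bb d.B d.TT d.fm d.co) s = d.fst Cs a s := rfl

/-- the inputs for the functional of one environment -/
lemma fineV_of (h : FineW C c K R R' d Cs FlT Q) :
    FineV C c K R R' d (VM d.X Cs a d.Bb d.B d.TT d.fm d.co) (Cs.image lab) FlT Q where
  mul := h.mul
  tog := Pool.Agent.H39.W.vtog_VM h.mul h.far
  loc := Pool.Agent.H39.W.vloc_VM h.mul h.far fun c hc => mem_image_of_mem lab hc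
  wal :=
    { hfl := fun w => by
        have hf := h.wal.hfl w
        exact
          { sub := hf.sub
            line := hf.line
            inj := hf.inj
            rk := hf.rk
            flat := hf.flat
            root := hf.root
            cs := fun e he l hl => by
              obtain ⟨c, hc, rfl⟩ := mem_image.1 hl
              exact hf.cs e he c hc }
      hfw := h.wal.hfw
      hwl := h.wal.hwl
      hloc := h.wal.hloc }
  card := h.card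
  irr := h.irr a
  fst := by
    intro M hM s a0 h1 h2 h3 h4 h5
    rw [totV_VM h.mul, tot0V_VM h.mul, fstV_VM]
    exact h.fst a M hM s a0 h1 h2 h3 h4 h5
  crn := h.crn

end

theorem fineVP_of {P : ℝ → ℕ → CaseW → Prop} (h : FineP P) : FineVP (ofP P) := by
  intro η hη
  obtain ⟨N0, C, c, K, ζ, R1, hC, hc, hK, hζ, H⟩ := h η hη
  refine ⟨N0, C, c, K, ζ, R1, hC, hc, hK, hζ, ?_⟩
  rintro R hR _ ⟨x, hx, rfl⟩
  obtain ⟨g1, g2⟩ := H R hR x hx
  refine ⟨g1, fun R' h1 h2 => ?_⟩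
  obtain ⟨FlT, Q, hQ⟩ := g2 R' h1 h2
  exact ⟨FlT, Q, fineV_of hQ⟩

/-- union of two classes -/
def orV (P P' : ℝ → ℕ → CaseV → Prop) (η : ℝ) (R : ℕ) (x : CaseV) : Prop := P η R x ∨ P' η R x

theorem fineVP_or {P P' : ℝ → ℕ → CaseV → Prop} (h : FineVP P) (h' : FineVP P') : FineVP (orV P P') := by
  intro η hη
  obtain ⟨N, C, c, K, ζ, R1, hC, hc, hK, hζ, H⟩ := h η hη
  obtain ⟨N', C', c', K', ζ', R1', hC', hc', hK', hζ', H'⟩ := h' η hη
  refine ⟨max N N', max C C', min c c', max K K', min (min ζ ζ') 1, max (max R1 R1') 1,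
    lt_max_of_lt_left hC, lt_min hc hc', lt_max_of_lt_left hK, lt_min (lt_min hζ hζ') one_pos, ?_⟩
  intro R hR x hx
  have hRpos : 0 < R := by
    have := (le_max_right (max R1 R1') 1).trans hR
    omega
  have hRr : (0 : ℝ) < R := by exact_mod_cast hRpos
  rcases hx with hx | hx
  · obtain ⟨g1, g2⟩ := H R (by omega) x hx
    refine ⟨g1.trans (le_max_left _ _), fun R' h1 h2 => ?_⟩
    obtain ⟨FlT, Q, hQ⟩ := g2 R' (by push_cast at h1; omega)
      (h2.trans (mul_le_mul_of_nonneg_right ((min_le_left _ _).trans (min_le_left _ _)) hRr.le))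
    refine ⟨FlT, Q, hQ.mono (le_max_left _ _) (min_le_left _ _) (le_max_left _ _) hC.le
      (lt_min hc hc') hRpos (h2.trans ?_)⟩
    calc min (min ζ ζ') 1 * (R : ℝ) ≤ 1 * R := mul_le_mul_of_nonneg_right (min_le_right _ _) hRr.le
      _ = R := one_mul _
  · obtain ⟨g1, g2⟩ := H' R (by omega) x hx
    refine ⟨g1.trans (le_max_right _ _), fun R' h1 h2 => ?_⟩
    obtain ⟨FlT, Q, hQ⟩ := g2 R' (by push_cast at h1; omega)
      (h2.trans (mul_le_mul_of_nonneg_right ((min_le_left _ _).trans (min_le_right _ _)) hRr.le))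
    refine ⟨FlT, Q, hQ.mono (le_max_right _ _) (min_le_right _ _) (le_max_right _ _) hC'.le
      (lt_min hc hc') hRpos (h2.trans ?_)⟩
    calc min (min ζ ζ') 1 * (R : ℝ) ≤ 1 * R := mul_le_mul_of_nonneg_right (min_le_right _ _) hRr.le
      _ = R := one_mul _

/-- **Linear response for the 45 degree rectangles and the class `P` with one response function.** -/
theorem lrVJ (h45 : Fine45) (hH45 : HV45) : ∃ C c : ℝ, 0 < c ∧
    ∀ P : ℝ → ℕ → CaseV → Prop, FineVP P → ∀ η η' : ℝ, 0 < η → 0 < η' →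
    ∀ ε : ℝ, 0 < ε → ∀ Y : ℝ, ∃ ρ1 : ℝ, 0 < ρ1 ∧ ∀ ρ : ℝ, 0 < ρ →
    ρ < ρ1 → ∃ R0 : ℕ, ∀ R : ℕ, R0 ≤ R → ∃ G : ℂ → ℂ, GHypX C c Y G ∧
    LRat η' R ⌊ρ * R⌋₊ G (ε * ρ * (R : ℝ) ^ (2 / 3 : ℝ)) ∧
    ∀ x : CaseV, P η R x → ∀ M : ℝ, x.HV M → ∀ (S : Finset x.κ) (z : x.κ → ℂ),
    (∀ w, 0 ≤ (z w).re ∧ (z w).re ≤ Real.pi ∧ |(z w).im| ≤ 1) →
    ‖x.tot (sz S ⌊ρ * R⌋₊ z) - x.tot0 -
      (⌊ρ * R⌋₊ : ℂ) * ∑ w ∈ S, G (z w) * (x.tot (wS {w}) - x.tot0)‖ ≤
      ε * ρ * M := by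
  obtain ⟨C, c, hc, H⟩ := lrV
  refine ⟨C, c, hc, fun P hF η η' hη hη' ε hε Y => ?_⟩
  obtain ⟨C2, R2, hHi⟩ := hvP45 hH45 η' hη'
  set M2 : ℝ := max C2 1 with hM2
  have hM2pos : 0 < M2 := lt_max_of_lt_right one_pos
  obtain ⟨ρ1, hρ1, H⟩ := H (orV (ofP (fun _ => P45 η')) P)
    (fineVP_or (fineVP_of fun _ _ => fineP45 h45 η' hη') hF) η hη (min ε (ε / M2))
    (lt_min hε (by positivity)) Y
  refine ⟨ρ1, hρ1, fun ρ hρ hρl => ?_⟩
  obtain ⟨R0, H⟩ := H ρ hρ hρl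
  obtain ⟨N4, C4, c4, K4, ζ4, R4, hC4, hc4, hK4, hζ4, H4⟩ := fineP45 h45 η' hη'
  obtain ⟨R5, hR5⟩ := exists_nat_ge ((R4 : ℝ) / ζ4)
  refine ⟨max (max R0 R2) (max R4 R5), fun R hR => ?_⟩
  have hRR0 : R0 ≤ R := ((le_max_left _ _).trans (le_max_left _ _)).trans hR
  have hRR2 : R2 ≤ R := ((le_max_right _ _).trans (le_max_left _ _)).trans hR
  have hRR4 : R4 ≤ R := ((le_max_left _ _).trans (le_max_right _ _)).trans hR
  have hRR5 : R5 ≤ R := ((le_max_right _ _).trans (le_max_right _ _)).trans hR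
  obtain ⟨G, hG, H⟩ := H R hRR0
  refine ⟨G, hG, ?_, ?_⟩
  swap
  · intro x hx M hM S z hz
    have hM0 : 0 ≤ M := HVV.nonneg hM
    exact (H x (Or.inr hx) M hM S z hz).trans (mul_le_mul_of_nonneg_right
      (mul_le_mul_of_nonneg_right (min_le_left _ _) hρ.le) hM0)
  intro w h O hO top S hS p q hp hq t ht d hd
  have hz : ∀ i : Bool, 0 ≤ (zf t i).re ∧ (zf t i).re ≤ Real.pi ∧ |(zf t i).im| ≤ 1 := fun i =>
    ⟨(U_re (zf_U t i)).1, (U_re (zf_U t i)).2, by rw [zf_im]; exact ht⟩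
  have hP45 : P45 η' R (case45 d p q) := ⟨w, h, O, hO, top, S, hS, p, q, hp, hq, by rw [hd]⟩
  have hR0 : 0 ≤ (R : ℝ) ^ (2 / 3 : ℝ) := Real.rpow_nonneg (Nat.cast_nonneg _) _
  have hHV : (ofW (case45 d p q)).HV (M2 * (R : ℝ) ^ (2 / 3 : ℝ)) := fun ω hω P hP =>
    (hHi R hRR2 _ hP45 ω hω P hP).trans
      (mul_le_mul_of_nonneg_right (le_max_left _ _) hR0)
  have key := H (ofW (case45 d p q)) (Or.inl ⟨_, hP45, rfl⟩) _ hHV (univ : Finset Bool) (zf t) hz
  have hmul : Multi d.X d.W d.Bb d.B d.TT d.fm id d.Wl d.La d.b d.o := by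
    obtain ⟨FlT, Q, hQ⟩ := (H4 R hRR4 _ hP45).2 R4 le_rfl (by
      rw [div_le_iff₀ hζ4] at hR5
      have h5 : (R5 : ℝ) ≤ R := by exact_mod_cast hRR5
      have := mul_le_mul_of_nonneg_right h5 hζ4.le
      push_cast
      linarith)
    exact hQ.mul
  set n : ℕ := ⌊ρ * R⌋₊ with hn
  have hC : ∀ s : Bool → ℂ, (ofW (case45 d p q)).tot s = d.tot (LCq p q) (Laq p q) s := fun s =>
    totV_VM (d := toW d) hmul s
  have hC0 : (ofW (case45 d p q)).tot0 = d.tot0 (LCq p q) (Laq p q) := tot0V_VM (d := toW d) hmul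
  have e1 : (ofW (case45 d p q)).tot (sz (univ : Finset Bool) n (zf t)) =
      d.tot (LCq p q) (Laq p q)
        (fun i => if i = true then sw (rap n t + (Real.pi / 2 : ℝ)) else sw (rap n t)) := by
    refine (hC _).trans (congrArg (d.tot (LCq p q) (Laq p q)) (?_ : sz (univ : Finset Bool) n (zf t) = _))
    funext i
    unfold sz swn zf rap
    rw [if_pos (mem_univ _)]
    cases i
    · simp only [Bool.false_eq_true, if_false]
    · simp only [if_true]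
      congr 1
      ring
  have e2 : ∀ i : Bool, (ofW (case45 d p q)).tot (wS {i}) = d.tot (LCq p q) (Laq p q) (w4 i) := by
    intro i
    refine (hC _).trans (congrArg (d.tot (LCq p q) (Laq p q)) (?_ : wS ({i} : Finset Bool) = _))
    funext j
    unfold wS w4
    simp only [mem_singleton]
  have e4 : ∑ i ∈ (univ : Finset Bool), G (zf t i) * ((ofW (case45 d p q)).tot (wS {i}) -
      (ofW (case45 d p q)).tot0) =
      G (pt t) * (d.tot (LCq p q) (Laq p q) (w4 false) - d.tot0 (LCq p q) (Laq p q)) +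
       G (pt t + (Real.pi / 2 : ℝ)) *
        (d.tot (LCq p q) (Laq p q) (w4 true) - d.tot0 (LCq p q) (Laq p q)) := by
    rw [Fintype.sum_bool, e2, e2, hC0]
    unfold zf
    simp only [Bool.false_eq_true, if_false, if_true]
    ring
  rw [← e1, ← e4, ← hC0]
  refine key.trans ?_
  calc min ε (ε / M2) * ρ * (M2 * (R : ℝ) ^ (2 / 3 : ℝ))
      ≤ ε / M2 * ρ * (M2 * (R : ℝ) ^ (2 / 3 : ℝ)) :=
        mul_le_mul_of_nonneg_right (mul_le_mul_of_nonneg_right (min_le_right _ _) hρ.le)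
          (by positivity)
    _ = ε * ρ * (R : ℝ) ^ (2 / 3 : ℝ) := by field_simp

end Pool.Agent.H15.W
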