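import Mathlib
import Pool.Agent.H60.W.LevR
import Pool.Agent.H39.Q1.CutEnv

set_option autoImplicit false
open Finset

/-!
# An outside for every reference window

Chapter C for an abstract functional needs some outside of the reference window, which one does not matter.
`outR D N` : no far labels, root above the box. `outR_ok` : it satisfies `OutOK`.
-/

namespace Pool.Agent.H15.W

open Pool.Agent.H75.Perc Pool.Agent.H75.TwoArm Pool.Agent.H75.Four Pool.Agent.H69.Q1
open Pool.Agent.Q1 Pool.Agent.H33.Q1
open Pool.Agent.H54.W (Win)
open Pool.Agent.H72.W.N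
open Pool.Agent.H60.W.N (OutOK Ports)
open Pool.Agent.H13.R45 (Ag OutF gp)
open Pool.Agent.H13.Q1 (At)
open Pool.Agent.H74.R45 (exists_lt)

/-- height of the root -/
def rtH (D : Win) (N : ℤ) : ℤ := D.h + |N| + 10

lemma not_mem_GB {D : Win} {N : ℤ} {e : ℤ × ℤ} (h1 : 2 * rtH D N - 3 ≤ e.2) (h2 : e.1 ≤ 1) :
    e ∉ GB D := by
  intro he
  obtain ⟨x, y, rfl⟩ := exists_lt (odd_TB he)
  have h3 := mem_GB.1 he
  unfold InB at h3
  unfold rtH at h1
  unfold lt at h1 h2
  simp only at h1 h2
  have := abs_nonneg N
  omega

/-- **No far labels, root above the box.** -/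
noncomputable def outR (D : Win) (N : ℤ) : OutB D where
  Wo := ∅
  c0 := (0, 2 * rtH D N)
  k0 := 0
  g := (0, rtH D N - 1)
  far := fun x y h => absurd h (notMem_empty _)
  hk := by
    unfold ty
    simp only
    rw [if_pos (by omega), if_pos (by omega)]
    decide
  hroot := by
    unfold plab
    simp only
    rw [if_pos (by omega), if_pos (by omega)]
    exact not_mem_GB (D := D) (N := N) (by simp only; omega) (by simp only; omega)
  hg := by
    have e1 : fi (0, 2 * rtH D N) = (0, rtH D N) := by
      unfold fi
      refine Prod.ext ?_ ?_ <;> simp only <;> omega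
    rw [e1]
    refine ⟨{(-1, 2 * rtH D N - 2)}, Relation.ReflTransGen.single ⟨?_, ?_⟩⟩
    · unfold IsUnit4
      simp only [Prod.ext_iff, Prod.fst_sub, Prod.snd_sub]
      omega
    · refine Pool.Agent.H39.Q1.mem_du_of (a := (0, rtH D N)) (b := (0, rtH D N - 1)) ?_ ?_
      · rw [mem_singleton]
        refine Prod.ext ?_ ?_
        · simp
        · simp only [Prod.snd_sub, Prod.snd_add]; ring
      · rw [union_empty]
        have e2 : ((0, rtH D N) + (0, rtH D N - 1) - (1, 1) : ℤ × ℤ) = (-1, 2 * rtH D N - 2) := by
          refine Prod.ext ?_ ?_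
          · simp
          · simp only [Prod.snd_sub, Prod.snd_add]; ring
        rw [e2]
        exact not_mem_GB (D := D) (N := N) (by simp only; omega) (by simp only; omega)
  hlow := by
    intro v hv
    have e1 : vx (0, 2 * rtH D N) = (0, rtH D N) := by
      unfold vx
      refine Prod.ext ?_ ?_ <;> simp only <;> omega
    rw [e1, union_empty] at hv
    have key : ∀ v, Co (GB D) (0, rtH D N) v → v = (0, rtH D N) := by
      intro v hv
      induction hv with
      | refl => rfl
      | @tail a b _ hab ih =>
        exfalso
        subst ih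
        obtain ⟨h1, h2⟩ := hab
        refine not_mem_GB (D := D) (N := N) (e := (0, rtH D N) + b) ?_ ?_ h2
        · unfold IsUnit4 at h1
          simp only [Prod.ext_iff, Prod.fst_sub, Prod.snd_sub] at h1
          simp only [Prod.snd_add]
          omega
        · unfold IsUnit4 at h1
          simp only [Prod.ext_iff, Prod.fst_sub, Prod.snd_sub] at h1
          simp only [Prod.fst_add]
          omega
    rw [key v hv]
    simp only
    omega

@[simp] lemma outR_Wo {D : Win} {N : ℤ} : (outR D N).Wo = ∅ := rfl

/-- **the outside is good** -/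
theorem outR_ok {D : Win} {N : ℤ} : OutOK (outR D N) N where
  free := fun x y _ _ => notMem_empty _
  port := fun x y _ h => absurd h (notMem_empty _)
  root := by
    rintro ⟨x, y⟩ h
    have h1 : Ag (x, y) (0, 2 * rtH D N) := h
    unfold Ag At gp Pool.Agent.H13.R45.ev vx fi at h1
    unfold OutF
    simp only [Prod.mk.injEq, decide_eq_true_eq] at h1
    simp only
    have h2 : D.h + N ≤ y := by
      have h3 := le_abs_self N
      have h4 : rtH D N = D.h + |N| + 10 := rfl
      split_ifs at h1 <;> omega
    omega

end Pool.Agent.H15.W
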