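import Mathlib
import Pool.Agent.H42.W.Loc
import Pool.Agent.H42.W.RefD
import Pool.Agent.H13.R45.Mul4

set_option autoImplicit false
open Finset

/-! # Chart II: the true world against the single wall reference

`TruII D Wt M` : the true fixed open labels `Wt` near the box `D` (band and ties random, the column of the line,
the wall of the colour `c`, two rows of one colour below and above, the turn tiles as in the reference or no dead ends),
`M` : the mask. `agr_II`, `msk_II` : the hypotheses of `vtog_F'`, `vloc_F'`. `agree_II` : no difference near the wall.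
-/

namespace Pool.Agent.H15.W

open Pool.Agent.H75.Perc Pool.Agent.H75.TwoArm Pool.Agent.H69.Q1
open Pool.Agent.H75.Four hiding ev
open Pool.Agent.Q1 Pool.Agent.H33.Q1 Pool.Agent.H60.Q1 Pool.Agent.H39.Q1
open Pool.Agent.H42.W (RB Tog VF MskO MskC AgrO AgrC Msk Agr)
open Pool.Agent.H42.W.RB (mem_W mem_E mem_TT mem_La mem_Wl mem_Bb odd_S odd_W)
open Pool.Agent.H13.R45 (ev gp ev_true ev_false Tg Gc InR co_rect' grid_V tg_end tile_co pick Gc_mono)
open Pool.Agent.H74.R45 (exists_lt mem_RT)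

/-- **True colours near the box.** -/
structure TruII (D : RB) (Wt M : Finset (ℤ × ℤ)) : Prop where
  bd : ∀ x y, D.Bd x y → lt (x, y) ∉ Wt
  tie : ∀ x y, D.Tp x y → lt (x, y) ∉ Wt
  col : ∀ y, 1 ≤ y → y + 1 < D.H → ¬ D.Tp (D.w - 1) y → (lt (D.w - 1, y) ∈ Wt ↔ D.c = false)
  wal : ∀ x y, D.Wp x y → (lt (x, y) ∈ Wt ↔ D.c = true)
  bot : ∃ k : Bool, ∀ x y, D.x0 ≤ x → x < D.w + D.L → -2 ≤ y → y < 0 →
    ¬ (x = D.w - 1 ∧ y = -1) → (lt (x, y) ∈ Wt ↔ k = true)
  top : ∃ k : Bool, ∀ x y, D.x0 ≤ x → x < D.w + D.L → D.H ≤ y → y < D.H + 2 →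
    ¬ (x = D.w - 1 ∧ y = D.H) → (lt (x, y) ∈ Wt ↔ k = true)
  t0 : (lt (D.w - 1, -1) ∈ Wt ↔ lt (D.w - 1, -1) ∈ D.W) ∨
    ∀ x y, D.x0 ≤ x → x < D.w + D.L → -2 ≤ y → y < 0 → (lt (x, y) ∈ Wt ↔ D.c = true)
  t1 : (lt (D.w - 1, D.H) ∈ Wt ↔ lt (D.w - 1, D.H) ∈ D.W) ∨
    ∀ x y, D.x0 ≤ x → x < D.w + D.L → D.H ≤ y → y < D.H + 2 → (lt (x, y) ∈ Wt ↔ D.c = true)
  msk : ∀ x y, D.x0 ≤ x → x < D.w + D.L → -2 ≤ y → y < D.H + 2 → lt (x, y) ∈ M

variable {D : RB} {Wt M T : Finset (ℤ × ℤ)} {x y u v : ℤ} {e l p q : ℤ × ℤ} {i : Unit}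

/-- fixed labels of the mask with the colour of the wall -/
noncomputable def RcI (D : RB) (Wt M : Finset (ℤ × ℤ)) : Finset (ℤ × ℤ) :=
  if D.c = true then Wt ∩ M else (M \ D.E) \ Wt

lemma mem_RcI (h1 : lt (x, y) ∈ M) (h2 : lt (x, y) ∉ D.E) (h3 : lt (x, y) ∈ Wt ↔ D.c = true) :
    lt (x, y) ∈ RcI D Wt M := by
  unfold RcI
  rcases hc : D.c with _ | _
  · rw [if_neg Bool.false_ne_true, mem_sdiff, mem_sdiff]
    refine ⟨⟨h1, h2⟩, fun h => ?_⟩
    have := h3.1 h
    rw [hc] at this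
    exact Bool.false_ne_true this
  · rw [if_pos rfl, mem_inter]
    exact ⟨h3.2 hc, h1⟩

lemma gc_T (hc : D.c = true) : Gc D.c (RcI D Wt M) = Wt ∩ M := by
  unfold RcI Gc
  rw [hc]
  simp

lemma gc_F (hc : D.c = false) : Gc D.c (RcI D Wt M) = du (M \ D.E) Wt := by
  unfold RcI Gc
  rw [hc]
  simp only [Bool.false_eq_true, if_false]
  unfold du
  rw [sdiff_empty]

/-! ### The reference -/

lemma bd_W (h : D.Bd x y) : lt (x, y) ∉ D.W := by
  intro h1
  rw [mem_W] at h1
  unfold RB.Bd at h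
  unfold RB.Op RB.Wp at h1
  have := D.hx
  split_ifs at h1
  · omega
  · rcases h1 with ⟨-, -, h1 | h1 | h1⟩ <;> omega

lemma tp_W (h : D.Tp x y) : lt (x, y) ∉ D.W := by
  intro h1
  rw [mem_W] at h1
  have h2 := h
  unfold RB.Tp at h2
  unfold RB.Op RB.Wp at h1
  split_ifs at h1
  · omega
  · rcases h1 with ⟨-, -, h1 | h1 | h1⟩
    · omega
    · omega
    · exact h1.2.2.2 h

lemma wp_W (h : D.Wp x y) : lt (x, y) ∈ D.W ↔ D.c = true := by
  rw [mem_W]
  have h' := h
  unfold RB.Wp at h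
  unfold RB.Op
  rcases hc : D.c with _ | _
  · simp only [Bool.false_eq_true, if_false, iff_false]
    omega
  · simp only [if_true, iff_true]
    tauto

lemma col_W (h0 : 0 ≤ y) (h1 : y < D.H) (h : ¬ D.Tp (D.w - 1) y) :
    lt (D.w - 1, y) ∈ D.W ↔ D.c = false := by
  rw [mem_W]
  have := D.hx
  unfold RB.Op RB.Wp
  rcases hc : D.c with _ | _
  · simp only [Bool.false_eq_true, if_false, iff_true]
    exact ⟨by omega, by omega, Or.inr (Or.inr ⟨trivial, h0, h1, h⟩)⟩
  · simp only [if_true, Bool.true_eq_false, iff_false]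
    omega

/-- rows below and above, not the turn tiles -/
lemma row_W (hx1 : x < D.w - 1) (hy : y < 0 ∨ D.H ≤ y) (h : lt (x, y) ∈ D.W) : D.c = false := by
  rw [mem_W] at h
  unfold RB.Op RB.Wp at h
  rcases hc : D.c with _ | _
  · rfl
  · exfalso
    rw [hc] at h
    simp only [if_true] at h
    omega

lemma wp_E (hx : D.w ≤ x) : lt (x, y) ∉ D.E := by
  intro h
  rw [mem_E] at h
  unfold RB.Bd RB.Tp at h
  omega

lemma out_E (hy : y < 0 ∨ D.H ≤ y) : lt (x, y) ∉ D.E := by
  intro h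
  rw [mem_E] at h
  unfold RB.Bd RB.Tp at h
  omega

/-! ### Ends of the ties -/

lemma b_gp (h : D.Tp x y) : D.b (lt (x, y)) = gp (x, if D.c = true then y + 1 else y) ∧
    ev (x, if D.c = true then y + 1 else y) = D.c := by
  obtain ⟨h1, h2, h3, h4, -⟩ := h
  unfold RB.b gp lt
  rcases hc : D.c with _ | _
  · simp only [Bool.false_eq_true, if_false, ev_false]
    exact ⟨trivial, h4⟩
  · simp only [↓reduceIte, Prod.mk.injEq, ev_true]
    omega

lemma o_gp (h : D.Tp x y) : D.o (lt (x, y)) = gp (x + 1, if D.c = true then y else y + 1) ∧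
    ev (x + 1, if D.c = true then y else y + 1) = D.c := by
  obtain ⟨h1, h2, h3, h4, -⟩ := h
  unfold RB.o gp lt
  rcases hc : D.c with _ | _
  · simp only [Bool.false_eq_true, if_false, Prod.mk.injEq, ev_false]
    omega
  · simp only [↓reduceIte, Prod.mk.injEq, ev_true]
    omega

lemma exists_Tp (he : e ∈ D.TT) : ∃ y, e = lt (D.w - 1, y) ∧ D.Tp (D.w - 1) y := by
  obtain ⟨x, y, rfl⟩ := exists_lt (odd_S he)
  rw [mem_TT] at he
  have h1 : x = D.w - 1 := he.1
  subst h1
  exact ⟨y, rfl, he⟩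

/-- points of the layer -/
lemma gridV_II (hT : T ⊆ D.TT) (hx : if D.c = true then VO (D.La i) T D.b p else VC (D.La i) T D.b p) :
    ∃ g : ℤ × ℤ, (D.x0 + 2 ≤ g.1 ∧ g.1 ≤ D.w - 1 ∧ 0 ≤ g.2 ∧ g.2 ≤ D.H) ∧ ev g = D.c ∧ gp g = p := by
  refine grid_V (La := D.La i) (fun e he => odd_S he) (fun x y h g hg => ?_) D.c (fun e he => ?_) hx
  · rw [mem_La] at h
    unfold RB.Ly at h
    unfold InR at hg
    omega
  · obtain ⟨y, rfl, hy⟩ := exists_Tp (hT he)
    obtain ⟨h1, h2⟩ := b_gp hy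
    refine ⟨_, ?_, h2, h1.symm⟩
    have := D.hx
    unfold RB.Tp at hy
    simp only
    split_ifs at hy ⊢ <;> omega

/-- two points of a rectangle of tiles -/
lemma co_bxR {R : Finset (ℤ × ℤ)} {o : Bool} {r0 r1 t0 t1 : ℤ} {g g' : ℤ × ℤ} (hr : r0 < r1) (ht : t0 < t1)
    (hR : ∀ x y, r0 ≤ x → x < r1 → t0 ≤ y → y < t1 → lt (x, y) ∈ R) (hg : InR r0 r1 t0 t1 g)
    (hg' : InR r0 r1 t0 t1 g') (he : ev g = o) (he' : ev g' = o) : Co (Gc o R) (gp g) (gp g') := by
  refine co_rect' hr ht ?_ hg hg' he he'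
  intro e he
  obtain ⟨x, y, rfl, h1, h2, h3, h4⟩ := mem_RT.1 he
  exact hR x y h1 h2 h3 h4

variable (h : TruII D Wt M)
include h

lemma TruII.wall (h1 : D.w ≤ x) (h2 : x < D.w + D.L) (h3 : 0 ≤ y) (h4 : y < D.H) :
    lt (x, y) ∈ RcI D Wt M := by
  have := D.hx
  refine mem_RcI (h.msk x y (by omega) h2 (by omega) (by omega)) (wp_E h1) (h.wal x y ⟨h1, h2, h3, h4⟩)

/-- the outer end of a tie is joined to every point of the wall -/
lemma TruII.toW (he : e ∈ D.TT) {g : ℤ × ℤ} (hg : InR D.w (D.w + D.L) 0 D.H g) (hge : ev g = D.c) :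
    Co (Gc D.c (RcI D Wt M)) (D.o e) (gp g) := by
  obtain ⟨y, rfl, hy⟩ := exists_Tp he
  obtain ⟨h1, h2⟩ := o_gp hy
  rw [h1]
  have := D.hL
  have := D.hH
  refine co_bxR (by omega) (by omega) (fun x y k1 k2 k3 k4 => h.wall k1 k2 k3 k4) ?_ hg h2 hge
  unfold RB.Tp at hy
  unfold InR
  simp only
  split_ifs at hy ⊢ <;> omega

/-- **Labels of the colour of the wall at a point of the layer are joined to the wall.** -/
theorem TruII.fix (hT : T ⊆ D.TT)
    (hx : if D.c = true then VO (D.La i) T D.b p else VC (D.La i) T D.b p)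
    (hpq : IsUnit4 (q - p)) (hl : if D.c = true then p + q = l else p + q - (1, 1) = l)
    (hwl : l ∉ D.Wl i) (h1 : l ∈ Wt ↔ D.c = true) (h2 : l ∈ D.W ↔ D.c = false) (he : e ∈ D.TT) :
    Co (Gc D.c (RcI D Wt M)) (D.o e) p := by
  have hL := D.hL
  have hH := D.hH
  have hx0 := D.hx
  obtain ⟨g, ⟨g1, g2, g3, g4⟩, g5, rfl⟩ := gridV_II hT hx
  obtain ⟨u, v, rfl, hu, hv⟩ : ∃ u v, l = lt (u, v) ∧ (u = g.1 ∨ u = g.1 - 1) ∧
      (v = g.2 ∨ v = g.2 - 1) := by
    rcases tg_end g5 hpq hl with k | k | k | k <;> exact ⟨_, _, k, by omega, by omega⟩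
  have hbb : ¬ D.Bd u v := fun k => by
    have k1 := h.bd u v k
    have k2 := bd_W k
    rcases hc : D.c with _ | _
    · exact k2 (h2.2 hc)
    · exact k1 (h1.2 hc)
  have htt : ¬ D.Tp u v := fun k => by
    have k1 := h.tie u v k
    have k2 := tp_W k
    rcases hc : D.c with _ | _
    · exact k2 (h2.2 hc)
    · exact k1 (h1.2 hc)
  have hgR : InR u (u + 1) v (v + 1) g := by unfold InR; omega
  have hmem : lt (u, v) ∈ RcI D Wt M := by
    refine mem_RcI (h.msk u v (by omega) (by omega) (by omega) (by omega)) (fun k => ?_) h1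
    rw [mem_E] at k
    tauto
  by_cases hv0 : v < 0
  · -- below
    have hv1 : v = -1 := by omega
    subst hv1
    by_cases hu1 : u = D.w - 1
    · subst hu1
      rcases h.t0 with k0 | k0
      · exfalso
        rw [h1, h2] at k0
        rcases hc : D.c with _ | _ <;> rw [hc] at k0 <;> simp at k0
      obtain ⟨a, ha, ha'⟩ := pick D.c D.w 0 (D.w + 1) 0 (by omega)
      have s1 := h.toW he (g := a) (by unfold InR; rcases ha' with rfl | rfl <;> simp only <;> omega) ha
      refine s1.trans (co_bxR (r0 := D.x0) (r1 := D.w + D.L) (t0 := -2) (t1 := 0) (by omega) (by omega)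
        (fun x y j1 j2 j3 j4 => mem_RcI (h.msk x y j1 j2 j3 (by omega)) (out_E (Or.inl j4))
          (k0 x y j1 j2 j3 j4)) ?_ ?_ ha g5)
      · unfold InR; rcases ha' with rfl | rfl <;> simp only <;> omega
      · unfold InR at hgR ⊢; omega
    obtain ⟨k, hk⟩ := h.bot
    have hkc : ∀ x y, D.x0 ≤ x → x < D.w + D.L → -2 ≤ y → y < 0 → ¬ (x = D.w - 1 ∧ y = -1) →
        lt (x, y) ∈ RcI D Wt M := by
      intro x y k1 k2 k3 k4 k5
      refine mem_RcI (h.msk x y k1 k2 k3 (by omega)) (out_E (Or.inl k4)) ?_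
      rw [hk x y k1 k2 k3 k4 k5, ← hk u (-1) (by omega) (by omega) (by omega) (by omega) (by omega)]
      exact h1
    obtain ⟨a, ha, ha'⟩ := pick D.c D.w 0 (D.w + 1) 0 (by omega)
    obtain ⟨b, hb, hb'⟩ := pick D.c D.w (-1) (D.w + 1) (-1) (by omega)
    obtain ⟨d, hd, hd'⟩ := pick D.c u (-1) (u + 1) (-1) (by omega)
    have s1 := h.toW he (g := a) (by unfold InR; rcases ha' with rfl | rfl <;> simp only <;> omega) ha
    have s2 : Co (Gc D.c (RcI D Wt M)) (gp a) (gp b) := co_bxR (r0 := D.w) (r1 := D.w + D.L) (t0 := -2)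
      (t1 := 0) (by omega) (by omega) (fun x y k1 k2 k3 k4 => hkc x y (by omega) k2 k3 k4 (by omega))
      (by unfold InR; rcases ha' with rfl | rfl <;> simp only <;> omega)
      (by unfold InR; rcases hb' with rfl | rfl <;> simp only <;> omega) ha hb
    have s3 : Co (Gc D.c (RcI D Wt M)) (gp b) (gp d) := co_bxR (r0 := D.x0) (r1 := D.w + D.L) (t0 := -2)
      (t1 := -1) (by omega) (by omega) (fun x y k1 k2 k3 k4 => hkc x y (by omega) k2 k3 (by omega) (by omega))
      (by unfold InR; rcases hb' with rfl | rfl <;> simp only <;> omega)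
      (by unfold InR; rcases hd' with rfl | rfl <;> simp only <;> omega) hb hd
    have s4 : Co (Gc D.c (RcI D Wt M)) (gp d) (gp g) := co_bxR (r0 := u) (r1 := u + 1) (t0 := -1)
      (t1 := 0) (by omega) (by omega) (fun x y k1 k2 k3 k4 => by
        have e1 : x = u := by omega
        have e2 : y = -1 := by omega
        rw [e1, e2]; exact hmem)
      (by unfold InR; rcases hd' with rfl | rfl <;> simp only <;> omega)
      (by unfold InR at hgR ⊢; omega) hd g5
    exact ((s1.trans s2).trans s3).trans s4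
  by_cases hvH : D.H ≤ v
  · -- above
    have hv1 : v = D.H := by omega
    subst hv1
    by_cases hu1 : u = D.w - 1
    · subst hu1
      rcases h.t1 with k0 | k0
      · exfalso
        rw [h1, h2] at k0
        rcases hc : D.c with _ | _ <;> rw [hc] at k0 <;> simp at k0
      obtain ⟨a, ha, ha'⟩ := pick D.c D.w D.H (D.w + 1) D.H (by omega)
      have s1 := h.toW he (g := a) (by unfold InR; rcases ha' with rfl | rfl <;> simp only <;> omega) ha
      refine s1.trans (co_bxR (r0 := D.x0) (r1 := D.w + D.L) (t0 := D.H) (t1 := D.H + 2) (by omega)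
        (by omega) (fun x y j1 j2 j3 j4 => mem_RcI (h.msk x y j1 j2 (by omega) j4) (out_E (Or.inr j3))
          (k0 x y j1 j2 j3 j4)) ?_ ?_ ha g5)
      · unfold InR; rcases ha' with rfl | rfl <;> simp only <;> omega
      · unfold InR at hgR ⊢; omega
    obtain ⟨k, hk⟩ := h.top
    have hkc : ∀ x y, D.x0 ≤ x → x < D.w + D.L → D.H ≤ y → y < D.H + 2 → ¬ (x = D.w - 1 ∧ y = D.H) →
        lt (x, y) ∈ RcI D Wt M := by
      intro x y k1 k2 k3 k4 k5
      refine mem_RcI (h.msk x y k1 k2 (by omega) (by omega)) (out_E (Or.inr k3)) ?_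
      rw [hk x y k1 k2 k3 k4 k5, ← hk u D.H (by omega) (by omega) (by omega) (by omega) (by omega)]
      exact h1
    obtain ⟨a, ha, ha'⟩ := pick D.c D.w D.H (D.w + 1) D.H (by omega)
    obtain ⟨b, hb, hb'⟩ := pick D.c D.w (D.H + 1) (D.w + 1) (D.H + 1) (by omega)
    obtain ⟨d, hd, hd'⟩ := pick D.c u (D.H + 1) (u + 1) (D.H + 1) (by omega)
    have s1 := h.toW he (g := a) (by unfold InR; rcases ha' with rfl | rfl <;> simp only <;> omega) ha
    have s2 : Co (Gc D.c (RcI D Wt M)) (gp a) (gp b) := co_bxR (r0 := D.w) (r1 := D.w + D.L) (t0 := D.H)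
      (t1 := D.H + 2) (by omega) (by omega) (fun x y k1 k2 k3 k4 => hkc x y (by omega) k2 k3 k4 (by omega))
      (by unfold InR; rcases ha' with rfl | rfl <;> simp only <;> omega)
      (by unfold InR; rcases hb' with rfl | rfl <;> simp only <;> omega) ha hb
    have s3 : Co (Gc D.c (RcI D Wt M)) (gp b) (gp d) := co_bxR (r0 := D.x0) (r1 := D.w + D.L)
      (t0 := D.H + 1) (t1 := D.H + 2) (by omega) (by omega)
      (fun x y k1 k2 k3 k4 => hkc x y (by omega) k2 (by omega) (by omega) (by omega))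
      (by unfold InR; rcases hb' with rfl | rfl <;> simp only <;> omega)
      (by unfold InR; rcases hd' with rfl | rfl <;> simp only <;> omega) hb hd
    have s4 : Co (Gc D.c (RcI D Wt M)) (gp d) (gp g) := co_bxR (r0 := u) (r1 := u + 1) (t0 := D.H)
      (t1 := D.H + 1) (by omega) (by omega) (fun x y k1 k2 k3 k4 => by
        have e1 : x = u := by omega
        have e2 : y = D.H := by omega
        rw [e1, e2]; exact hmem)
      (by unfold InR; rcases hd' with rfl | rfl <;> simp only <;> omega)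
      (by unfold InR at hgR ⊢; omega) hd g5
    exact ((s1.trans s2).trans s3).trans s4
  -- the column
  have hu1 : u = D.w - 1 := by
    unfold RB.Bd at hbb
    omega
  subst hu1
  obtain ⟨a, ha, ha'⟩ := pick D.c D.w v D.w (v + 1) (by omega)
  refine tile_co hmem hpq (by
    rcases hc : D.c with _ | _
    · rw [hc] at hl; exact hl
    · rw [hc] at hl; exact hl) (g := a) ?_ ha (h.toW he ?_ ha)
  · unfold InR; rcases ha' with rfl | rfl <;> simp only <;> omega
  · unfold InR; rcases ha' with rfl | rfl <;> simp only <;> omega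

/-- the outer ends of the ties are joined -/
lemma TruII.conn {e' : ℤ × ℤ} (he : e ∈ D.TT) (he' : e' ∈ D.TT) :
    Co (Gc D.c (RcI D Wt M)) (D.o e) (D.o e') := by
  obtain ⟨y, rfl, hy⟩ := exists_Tp he'
  obtain ⟨h1, h2⟩ := o_gp hy
  rw [h1]
  have := D.hL
  refine h.toW he ?_ h2
  unfold RB.Tp at hy
  unfold InR
  simp only
  split_ifs at hy ⊢ <;> omega

/-- **Reference and truth.** -/
theorem agr_II : Agr D.E D.W Wt D.TT RB.fm D.co D.Wl D.La (fun _ => M) D.b D.o where
  O := by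
    intro i _ hc
    have hc' : D.c = true := hc
    have hT : TF D.TT RB.fm i ⊆ D.TT := filter_subset _ _
    refine ⟨fun l hl => ?_, fun l hl h2 => ?_, fun e he e' he' => ?_, fun x y hu hV hl e he => ?_⟩
    · obtain ⟨y, rfl, hy⟩ := exists_Tp (hT hl)
      exact h.tie _ _ hy
    · exfalso
      obtain ⟨x, y, rfl⟩ := exists_lt (odd_S hl)
      rw [mem_La] at hl
      refine bd_W (D := D) (x := x) (y := y) ?_ h2
      unfold RB.Ly at hl
      unfold RB.Bd
      omega
    · have := h.conn (hT he) (hT he')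
      rwa [gc_T hc'] at this
    · rw [← gc_T hc']
      have hwl : x + y ∉ D.Wl i := by
        intro h3
        obtain ⟨g, ⟨g1, g2, g3, g4⟩, g5, rfl⟩ := gridV_II (i := i) hT (by rw [if_pos hc']; exact hV)
        have k := tg_end (e := gp g + y) g5 hu (by rw [if_pos hc'])
        obtain ⟨a, b, e1⟩ := exists_lt (odd_S h3)
        rw [e1, mem_Wl] at h3
        rw [e1] at k
        have := Pool.Agent.H13.R45.tg_lt k
        unfold RB.Wp at h3
        omega
      have h4 : x + y ∈ Wt ∧ x + y ∉ D.W := hl.resolve_left hwl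
      exact h.fix hT (by rw [if_pos hc']; exact hV) hu (l := x + y) (by rw [if_pos hc']) hwl
        (by rw [hc']; exact iff_of_true h4.1 rfl) (by rw [hc']; simpa using h4.2) (hT he)
  C := by
    intro i _ hc
    have hc' : D.c = false := hc
    have hT : TF D.TT RB.fm i ⊆ D.TT := filter_subset _ _
    have hne : ¬ (D.c = true) := by rw [hc']; exact Bool.false_ne_true
    refine ⟨fun l hl => ?_, fun l hl h2 => ?_, fun e he e' he' => ?_, fun x y hu hV hl e he => ?_⟩
    · obtain ⟨y, rfl, hy⟩ := exists_Tp (hT hl)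
      exact h.tie _ _ hy
    · exfalso
      obtain ⟨x, y, rfl⟩ := exists_lt (odd_S hl)
      rw [mem_La] at hl
      refine h.bd x y ?_ h2
      unfold RB.Ly at hl
      unfold RB.Bd
      omega
    · have := h.conn (hT he) (hT he')
      rwa [gc_F hc'] at this
    · rw [← gc_F hc']
      have hwl : x + y - (1, 1) ∉ D.Wl i := by
        intro h3
        obtain ⟨g, ⟨g1, g2, g3, g4⟩, g5, rfl⟩ := gridV_II (i := i) hT (by rw [if_neg hne]; exact hV)
        have k := tg_end (e := gp g + y - (1, 1)) g5 hu (by rw [if_neg hne])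
        obtain ⟨a, b, e1⟩ := exists_lt (odd_S h3)
        rw [e1, mem_Wl] at h3
        rw [e1] at k
        have := Pool.Agent.H13.R45.tg_lt k
        unfold RB.Wp at h3
        omega
      have h4 : x + y - (1, 1) ∈ D.W ∧ x + y - (1, 1) ∉ Wt := hl.resolve_left hwl
      exact h.fix hT (by rw [if_neg hne]; exact hV) hu (l := x + y - (1, 1)) (by rw [if_neg hne]) hwl
        (by rw [hc']; simpa using h4.2) (by rw [hc']; exact iff_of_true h4.1 rfl) (hT he)

/-- labels at the points of the layer are in the mask -/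
lemma TruII.adj (hT : T ⊆ D.TT) (hx : if D.c = true then VO (D.La i) T D.b p else VC (D.La i) T D.b p)
    (hpq : IsUnit4 (q - p)) (hl : if D.c = true then p + q = l else p + q - (1, 1) = l) : l ∈ M := by
  have hL := D.hL
  have hx0 := D.hx
  obtain ⟨g, ⟨g1, g2, g3, g4⟩, g5, rfl⟩ := gridV_II hT hx
  rcases tg_end g5 hpq hl with rfl | rfl | rfl | rfl <;> exact h.msk _ _ (by omega) (by omega) (by omega)
    (by omega)

lemma TruII.subM : D.La i ∪ TF D.TT RB.fm i ∪ D.Wl i ⊆ M := by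
  have hL := D.hL
  have hx0 := D.hx
  intro l hl
  rcases mem_union.1 hl with hl | hl
  · rcases mem_union.1 hl with hl | hl
    · obtain ⟨x, y, rfl⟩ := exists_lt (odd_S hl)
      rw [mem_La] at hl
      unfold RB.Ly at hl
      exact h.msk _ _ (by omega) (by omega) (by omega) (by omega)
    · obtain ⟨y, rfl, hy⟩ := exists_Tp (mem_TF.1 hl).1
      unfold RB.Tp at hy
      exact h.msk _ _ (by omega) (by omega) (by omega) (by omega)
  · obtain ⟨x, y, rfl⟩ := exists_lt (odd_S hl)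
    rw [mem_Wl] at hl
    unfold RB.Wp at hl
    exact h.msk _ _ (by omega) (by omega) (by omega) (by omega)

/-- **The mask.** -/
theorem msk_II : Msk D.TT RB.fm D.co D.Wl D.La (fun _ => M) D.b where
  O := by
    intro i _ hc
    have hc' : D.c = true := hc
    refine ⟨h.subM, fun x y hu hV => ?_⟩
    exact h.adj (filter_subset _ _) (by rw [if_pos hc']; exact hV) hu (by rw [if_pos hc'])
  C := by
    intro i _ hc
    have hc' : D.c = false := hc
    have hne : ¬ (D.c = true) := by rw [hc']; exact Bool.false_ne_true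
    refine ⟨h.subM, fun x y hu hV => ?_⟩
    exact h.adj (filter_subset _ _) (by rw [if_neg hne]; exact hV) hu (by rw [if_neg hne])

/-- **No difference near the wall.** -/
theorem agree_II (h1 : D.x0 ≤ x) (h2 : x < D.w + D.L) (h3 : 1 ≤ y) (h4 : y + 1 < D.H) :
    lt (x, y) ∈ Wt ↔ lt (x, y) ∈ D.W := by
  by_cases k1 : x < D.w - 1
  · have hb : D.Bd x y := ⟨h1, k1, by omega, by omega⟩
    exact iff_of_false (h.bd _ _ hb) (bd_W hb)
  by_cases k2 : D.w ≤ x
  · have hw : D.Wp x y := ⟨k2, h2, by omega, by omega⟩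
    rw [h.wal _ _ hw, wp_W hw]
  have k3 : x = D.w - 1 := by omega
  subst k3
  by_cases k4 : D.Tp (D.w - 1) y
  · exact iff_of_false (h.tie _ _ k4) (tp_W k4)
  · rw [h.col y h3 h4 k4, col_W (by omega) (by omega) k4]

end Pool.Agent.H15.W
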