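import Mathlib
import Pool.Agent.H15.W.C.TruII
import Pool.Agent.H42.W.Dead
import Pool.Agent.H42.W.RefM
import Pool.Agent.H60.W.WalD

set_option autoImplicit false
open Finset

/-! # Chart II: the fields of the functional

`TruQ D Wt M` : `TruII` with arbitrary turn tiles. `TruQ.exists_II` : after the removal of dead ends the turn tiles
are those of the reference. `vtogQ`, `vlocQ`, `deepQ` : the fields of `VF F` for every `F` with the toggles of the
true world. -/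

namespace Pool.Agent.H15.W

open Pool.Agent.H75.Perc Pool.Agent.H75.TwoArm Pool.Agent.H69.Q1
open Pool.Agent.H75.Four hiding ev
open Pool.Agent.Q1 Pool.Agent.H33.Q1 Pool.Agent.H60.Q1 Pool.Agent.H39.Q1
open Pool.Agent.H42.W (RB Tog VF MskO MskC AgrO AgrC Msk Agr vtog_F' vloc_F')
open Pool.Agent.H42.W.RB (mem_W mem_E mem_TT mem_La mem_Wl mem_Bb odd_S odd_W)
open Pool.Agent.H13.R45 (ev gp ev_true ev_false Tg Gc InR co_rect' grid_V tg_end tile_co pick Gc_mono)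
open Pool.Agent.H74.R45 (exists_lt mem_RT)

/-- **True colours near the box**, arbitrary turn tiles. -/
structure TruQ (D : RB) (Wt M : Finset (ℤ × ℤ)) : Prop where
  bd : ∀ x y, D.Bd x y → lt (x, y) ∉ Wt
  tie : ∀ x y, D.Tp x y → lt (x, y) ∉ Wt
  col : ∀ y, 1 ≤ y → y + 1 < D.H → ¬ D.Tp (D.w - 1) y → (lt (D.w - 1, y) ∈ Wt ↔ D.c = false)
  wal : ∀ x y, D.Wp x y → (lt (x, y) ∈ Wt ↔ D.c = true)
  bot : ∃ k : Bool, ∀ x y, D.x0 ≤ x → x < D.w + D.L → -2 ≤ y → y < 0 →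
    ¬ (x = D.w - 1 ∧ y = -1) → (lt (x, y) ∈ Wt ↔ k = true)
  top : ∃ k : Bool, ∀ x y, D.x0 ≤ x → x < D.w + D.L → D.H ≤ y → y < D.H + 2 →
    ¬ (x = D.w - 1 ∧ y = D.H) → (lt (x, y) ∈ Wt ↔ k = true)
  msk : ∀ x y, D.x0 ≤ x → x < D.w + D.L → -2 ≤ y → y < D.H + 2 → lt (x, y) ∈ M

variable {D : RB} {E Wt M T : Finset (ℤ × ℤ)} {F : Finset (ℤ × ℤ) → ℂ} {x y u v R : ℤ} {e l p q g t : ℤ × ℤ}
  {i : Unit} {c : Bool}

/-- the turn tile below -/
def T0 (D : RB) : ℤ × ℤ := lt (D.w - 1, -1)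

/-- the turn tile above -/
def T1 (D : RB) : ℤ × ℤ := lt (D.w - 1, D.H)

lemma eq_T0 : lt (x, y) = T0 D ↔ x = D.w - 1 ∧ y = -1 := by
  unfold T0
  constructor
  · intro h
    have := lt_inj h
    rwa [Prod.mk.injEq] at this
  · rintro ⟨rfl, rfl⟩; rfl

lemma eq_T1 : lt (x, y) = T1 D ↔ x = D.w - 1 ∧ y = D.H := by
  unfold T1
  constructor
  · intro h
    have := lt_inj h
    rwa [Prod.mk.injEq] at this
  · rintro ⟨rfl, rfl⟩; rfl

lemma T0_W : T0 D ∈ D.W ↔ D.c = false := by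
  unfold T0
  rw [mem_W]
  have := D.hx
  unfold RB.Op RB.Wp
  rcases hc : D.c with _ | _
  · simp only [Bool.false_eq_true, if_false, iff_true]
    exact ⟨by omega, by omega, Or.inl trivial⟩
  · simp only [if_true, Bool.true_eq_false, iff_false]
    omega

lemma T1_W : T1 D ∈ D.W ↔ D.c = false := by
  unfold T1
  rw [mem_W]
  have := D.hx
  unfold RB.Op RB.Wp
  rcases hc : D.c with _ | _
  · simp only [Bool.false_eq_true, if_false, iff_true]
    exact ⟨by omega, by omega, Or.inr (Or.inl trivial)⟩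
  · simp only [if_true, Bool.true_eq_false, iff_false]
    omega

lemma T0_E : T0 D ∉ D.E := out_E (Or.inl (by norm_num))

lemma T1_E : T1 D ∉ D.E := out_E (Or.inr le_rfl)

/-- the other end of a tile at a point -/
lemma tg_mate (hg : ev g = c) (h : Tg g e) : ∃ p, IsUnit4 (p - gp g) ∧
    (if c = true then gp g + p = e else gp g + p - (1, 1) = e) := by
  obtain ⟨a, b⟩ := g
  cases c
  · rw [ev_false] at hg
    refine ⟨e + (1, 1) - gp (a, b), ?_, by rw [if_neg Bool.false_ne_true]; abel⟩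
    unfold IsUnit4 gp
    rcases h with rfl | rfl | rfl | rfl <;>
    · unfold lt
      simp only [Prod.mk_add_mk, Prod.mk_sub_mk, Prod.mk.injEq]
      omega
  · rw [ev_true] at hg
    refine ⟨e - gp (a, b), ?_, by rw [if_pos rfl]; abel⟩
    unfold IsUnit4 gp
    rcases h with rfl | rfl | rfl | rfl <;>
    · unfold lt
      simp only [Prod.mk_sub_mk, Prod.mk.injEq]
      omega

/-- the labels of `W` with `t` in the colour different from `c` -/
noncomputable def flipT (c : Bool) (t : ℤ × ℤ) (W : Finset (ℤ × ℤ)) : Finset (ℤ × ℤ) :=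
  if c = true then W.erase t else insert t W

lemma mem_flipT {W : Finset (ℤ × ℤ)} : l ∈ flipT c t W ↔ if l = t then c = false else l ∈ W := by
  unfold flipT
  cases c
  · rw [if_neg Bool.false_ne_true, mem_insert]
    by_cases h : l = t <;> simp [h]
  · rw [if_pos rfl, mem_erase]
    by_cases h : l = t <;> simp [h]

/-- **A dead end of colour `c` at a grid point.** -/
theorem dead_step (hF : Tog E Wt M F) (hg : ev g = c) (ht : Tg g t) (htE : t ∉ E)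
    (h : ∀ l, Tg g l → l ≠ t → l ∈ M ∧ l ∉ E ∧ (l ∈ Wt ↔ c = false)) : Tog E (flipT c t Wt) M F := by
  obtain ⟨p, hp, he⟩ := tg_mate hg ht
  unfold flipT
  cases c
  · rw [if_neg Bool.false_ne_true] at he ⊢
    refine hF.add htE hp he fun z hz hne => ?_
    have h1 := h _ (tg_end (e := gp g + z - (1, 1)) hg hz (by rw [if_neg Bool.false_ne_true])) hne
    exact ⟨h1.1, h1.2.2.2 rfl⟩
  · rw [if_pos rfl] at he ⊢
    refine hF.del htE hp he fun z hz hne => ?_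
    have h1 := h _ (tg_end (e := gp g + z) hg hz (by rw [if_pos rfl])) hne
    exact ⟨h1.1, h1.2.1, fun h2 => Bool.true_eq_false.mp (h1.2.2.1 h2)⟩

/-- one turn tile -/
lemma turn_step (hF : Tog D.E Wt M F) {s : ℤ} (hs : s = -1 ∨ s = D.H) {k : Bool}
    (hk : ∀ x y, D.w - 2 ≤ x → x ≤ D.w → (s = -1 → -2 ≤ y ∧ y < 0) → (s = D.H → D.H ≤ y ∧ y < D.H + 2) →
      lt (x, y) ∈ M ∧ (¬ (x = D.w - 1 ∧ y = s) → (lt (x, y) ∈ Wt ↔ k = true)))
    (hkc : k ≠ D.c) : Tog D.E (flipT D.c (lt (D.w - 1, s)) Wt) M F := by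
  have hH := D.hH
  set r : ℤ := if s = -1 then -1 else D.H + 1 with hr
  obtain ⟨g, hg, hg'⟩ := pick D.c D.w r (D.w - 1) r (by omega)
  have hkc' : k = true ↔ D.c = false := by
    revert hkc
    rcases D.c with _ | _ <;> rcases k with _ | _ <;> simp
  refine dead_step hF hg ?_ (out_E (by omega)) fun l hl hne => ?_
  · unfold Tg
    rcases hs with rfl | rfl
    · rw [if_pos rfl] at hr
      rcases hg' with rfl | rfl
      · right; left; rw [hr]
      · left; rw [hr]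
    · rw [if_neg (by omega)] at hr
      rcases hg' with rfl | rfl
      · right; right; right; simp only [hr, add_sub_cancel_right]
      · right; right; left; simp only [hr, add_sub_cancel_right]
  · obtain ⟨a, b, rfl, ha, hb⟩ : ∃ a b, l = lt (a, b) ∧ (a = g.1 ∨ a = g.1 - 1) ∧
        (b = g.2 ∨ b = g.2 - 1) := by
      rcases hl with k | k | k | k <;> exact ⟨_, _, k, by omega, by omega⟩
    have h1 : D.w - 2 ≤ a ∧ a ≤ D.w := by rcases hg' with rfl | rfl <;> simp only at ha <;> omega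
    have h2 : b = r ∨ b = r - 1 := by rcases hg' with rfl | rfl <;> simp only at hb <;> omega
    have h3 : (s = -1 → -2 ≤ b ∧ b < 0) ∧ (s = D.H → D.H ≤ b ∧ b < D.H + 2) := by
      rcases hs with rfl | rfl
      · rw [if_pos rfl] at hr
        constructor <;> intro _ <;> omega
      · rw [if_neg (by omega)] at hr
        constructor <;> intro _ <;> omega
    obtain ⟨h4, h5⟩ := hk a b h1.1 h1.2 h3.1 h3.2
    refine ⟨h4, out_E ?_, ?_⟩
    · rcases hs with rfl | rfl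
      · left; exact (h3.1 rfl).2
      · right; exact (h3.2 rfl).1
    · rw [h5 ?_, hkc']
      rintro ⟨rfl, rfl⟩
      exact hne rfl

/-- **The turn tiles.** -/
theorem TruQ.exists_II (h : TruQ D Wt M) (hF : Tog D.E Wt M F) : ∃ W2, TruII D W2 M ∧
    Tog D.E W2 M F ∧ ∀ l, l ≠ T0 D → l ≠ T1 D → (l ∈ W2 ↔ l ∈ Wt) := by
  have hx := D.hx
  have hH := D.hH
  have hL := D.hL
  have hne : T0 D ≠ T1 D := by
    intro h1
    have := eq_T1.1 h1
    omega
  have hcW : ∀ {a : Prop}, ¬ (a ↔ D.c = false) → (a ↔ D.c = true) := by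
    intro a ha
    rcases hc : D.c with _ | _ <;> rw [hc] at ha <;> simp_all
  -- below
  obtain ⟨W1, hW1, hF1, ht1⟩ : ∃ W1 : Finset (ℤ × ℤ), (∀ l, l ≠ T0 D → (l ∈ W1 ↔ l ∈ Wt)) ∧
      Tog D.E W1 M F ∧ ((T0 D ∈ W1 ↔ T0 D ∈ D.W) ∨
        ∀ x y, D.x0 ≤ x → x < D.w + D.L → -2 ≤ y → y < 0 → (lt (x, y) ∈ W1 ↔ D.c = true)) := by
    obtain ⟨k, hk⟩ := h.bot
    by_cases h0 : T0 D ∈ Wt ↔ T0 D ∈ D.W
    · exact ⟨Wt, fun _ _ => Iff.rfl, hF, Or.inl h0⟩
    rw [T0_W] at h0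
    have h1 := hcW h0
    by_cases hkc : k = D.c
    · refine ⟨Wt, fun _ _ => Iff.rfl, hF, Or.inr fun x y k1 k2 k3 k4 => ?_⟩
      by_cases k5 : x = D.w - 1 ∧ y = -1
      · obtain ⟨rfl, rfl⟩ := k5; exact h1
      · rw [hk x y k1 k2 k3 k4 k5, hkc]
    · refine ⟨flipT D.c (T0 D) Wt, fun l hl => ?_, ?_, Or.inl ?_⟩
      · rw [mem_flipT, if_neg hl]
      · refine turn_step hF (Or.inl rfl) (k := k) (fun x y k1 k2 k3 _ => ?_) hkc
        have := k3 rfl
        exact ⟨h.msk x y (by omega) (by omega) (by omega) (by omega),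
          hk x y (by omega) (by omega) (by omega) (by omega)⟩
      · rw [mem_flipT, if_pos rfl, T0_W]
  -- above
  obtain ⟨W2, hW2, hF2, ht2⟩ : ∃ W2 : Finset (ℤ × ℤ), (∀ l, l ≠ T1 D → (l ∈ W2 ↔ l ∈ W1)) ∧
      Tog D.E W2 M F ∧ ((T1 D ∈ W2 ↔ T1 D ∈ D.W) ∨
        ∀ x y, D.x0 ≤ x → x < D.w + D.L → D.H ≤ y → y < D.H + 2 → (lt (x, y) ∈ W2 ↔ D.c = true)) := by
    obtain ⟨k, hk0⟩ := h.top
    have hk : ∀ x y, D.x0 ≤ x → x < D.w + D.L → D.H ≤ y → y < D.H + 2 →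
        ¬ (x = D.w - 1 ∧ y = D.H) → (lt (x, y) ∈ W1 ↔ k = true) := by
      intro x y k1 k2 k3 k4 k5
      rw [hW1 _ (by rw [Ne, eq_T0]; omega)]
      exact hk0 x y k1 k2 k3 k4 k5
    by_cases h0 : T1 D ∈ W1 ↔ T1 D ∈ D.W
    · exact ⟨W1, fun _ _ => Iff.rfl, hF1, Or.inl h0⟩
    rw [T1_W] at h0
    have h1 := hcW h0
    by_cases hkc : k = D.c
    · refine ⟨W1, fun _ _ => Iff.rfl, hF1, Or.inr fun x y k1 k2 k3 k4 => ?_⟩
      by_cases k5 : x = D.w - 1 ∧ y = D.H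
      · obtain ⟨rfl, rfl⟩ := k5; exact h1
      · rw [hk x y k1 k2 k3 k4 k5, hkc]
    · refine ⟨flipT D.c (T1 D) W1, fun l hl => ?_, ?_, Or.inl ?_⟩
      · rw [mem_flipT, if_neg hl]
      · refine turn_step hF1 (Or.inr rfl) (k := k) (fun x y k1 k2 _ k3 => ?_) hkc
        have := k3 rfl
        exact ⟨h.msk x y (by omega) (by omega) (by omega) (by omega),
          hk x y (by omega) (by omega) (by omega) (by omega)⟩
      · rw [mem_flipT, if_pos rfl, T1_W]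
  have hW : ∀ l, l ≠ T0 D → l ≠ T1 D → (l ∈ W2 ↔ l ∈ Wt) := fun l k0 k1 => by rw [hW2 l k1, hW1 l k0]
  have hWx : ∀ x y, ¬ (x = D.w - 1 ∧ (y = -1 ∨ y = D.H)) → (lt (x, y) ∈ W2 ↔ lt (x, y) ∈ Wt) := by
    intro x y hn
    refine hW _ ?_ ?_
    · rw [Ne, eq_T0]; tauto
    · rw [Ne, eq_T1]; tauto
  refine ⟨W2, ?_, hF2, hW⟩
  refine ⟨fun x y k => ?_, fun x y k => ?_, fun y k1 k2 k3 => ?_, fun x y k => ?_, ?_, ?_, ?_, ht2, h.msk⟩
  · rw [hWx x y (by unfold RB.Bd at k; omega)]; exact h.bd x y k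
  · rw [hWx x y (by obtain ⟨-, k2, k3, -, -⟩ := k; omega)]; exact h.tie x y k
  · rw [hWx _ _ (by omega)]; exact h.col y k1 k2 k3
  · rw [hWx x y (by unfold RB.Wp at k; omega)]; exact h.wal x y k
  · obtain ⟨k, hk⟩ := h.bot
    exact ⟨k, fun x y k1 k2 k3 k4 k5 => by rw [hWx x y (by omega)]; exact hk x y k1 k2 k3 k4 k5⟩
  · obtain ⟨k, hk⟩ := h.top
    exact ⟨k, fun x y k1 k2 k3 k4 k5 => by rw [hWx x y (by omega)]; exact hk x y k1 k2 k3 k4 k5⟩
  · rcases ht1 with k0 | k0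
    · left
      have := hW2 _ hne
      exact this.trans k0
    · right
      intro x y k1 k2 k3 k4
      rw [hW2 _ (by rw [Ne, eq_T1]; omega)]
      exact k0 x y k1 k2 k3 k4

/-- the labels where reference and truth may differ -/
noncomputable def SgQ (D : RB) (Wt : Finset (ℤ × ℤ)) : Finset (ℤ × ℤ) :=
  ((Wt \ D.W) ∪ (D.W \ Wt)) ∪ {T0 D, T1 D}

lemma of_notMem_SgQ (h : l ∉ SgQ D Wt) : (l ∈ Wt ↔ l ∈ D.W) ∧ l ≠ T0 D ∧ l ≠ T1 D := by
  unfold SgQ at h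
  simp only [mem_union, mem_sdiff, mem_insert, mem_singleton, not_or] at h
  tauto

/-- **Field `VTog`.** -/
theorem vtogQ (h : TruQ D Wt M) (hF : Tog D.E Wt M F) :
    VTog (VF F D.Bb D.Bb D.TT RB.fm D.co) D.W D.Bb D.TT RB.fm D.co D.Wl D.La D.b D.o := by
  obtain ⟨W2, h2, hF2, -⟩ := h.exists_II hF
  exact vtog_F' RB.multi (fun _ _ => hF2) (msk_II h2) (agr_II h2)

/-- **Field `VLoc`.** -/
theorem vlocQ (h : TruQ D Wt M) (hF : Tog D.E Wt M F) :
    VLoc (VF F D.Bb D.Bb D.TT RB.fm D.co) D.XR D.W D.Bb D.Bb D.TT (SgQ D Wt) RB.fm D.co D.Wl D.La D.b D.o := by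
  obtain ⟨W2, h2, hF2, hW⟩ := h.exists_II hF
  refine vloc_F' RB.multi (fun _ _ => hF2) (msk_II h2) (agr_II h2) (fun l hl => ?_) fun i _ l hl _ =>
    h2.subM (i := i) (mem_union_right _ hl)
  obtain ⟨k1, k2, k3⟩ := of_notMem_SgQ hl
  rw [hW l k2 k3, k1]

/-- no difference near the wall -/
lemma TruQ.agree (h : TruQ D Wt M) (h1 : D.x0 ≤ x) (h2 : x < D.w + D.L) (h3 : 1 ≤ y) (h4 : y + 1 < D.H) :
    lt (x, y) ∈ Wt ↔ lt (x, y) ∈ D.W := by
  by_cases k1 : x < D.w - 1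
  · have hb : D.Bd x y := ⟨h1, k1, by omega, by omega⟩
    exact iff_of_false (h.bd _ _ hb) (bd_W hb)
  by_cases k2 : D.w ≤ x
  · have hw : D.Wp x y := ⟨k2, h2, by omega, by omega⟩
    rw [h.wal _ _ hw, wp_W hw]
  have k3 : x = D.w - 1 := by omega
  subst k3
  by_cases k4 : D.Tp (D.w - 1) y
  · exact iff_of_false (h.tie _ _ k4) (tp_W k4)
  · rw [h.col y h3 h4 k4, col_W (by omega) (by omega) k4]

/-- **The difference of reference and truth is far from the deep ties.** -/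
theorem deepQ (h : TruQ D Wt M) (hR : 0 ≤ R) (hx : 2 * R + D.x0 + 8 ≤ D.w) (hL : 2 * R + 4 ≤ D.L) :
    ∀ e ∈ D.FlT R (), ∀ l ∈ SgQ D Wt, l ∉ bx D.c (D.b e) R := by
  intro e he l hl hb
  obtain ⟨y, rfl, h1, h2, h3, -, -⟩ := RB.mem_FlT.1 he
  obtain ⟨X, Y, rfl, ⟨k1, k2⟩, k3, k4⟩ := RB.bx_lt h1 hb
  unfold SgQ at hl
  rw [mem_union] at hl
  rcases hl with hl | hl
  · have := h.agree (x := X) (y := Y) (by omega) (by omega) (by omega) (by omega)
    rw [mem_union, mem_sdiff, mem_sdiff] at hl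
    tauto
  · rw [mem_insert, mem_singleton, eq_T0, eq_T1] at hl
    omega

end Pool.Agent.H15.W
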