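import Mathlib
import Pool.Agent.H15.W.C.QII
import Pool.Agent.H60.W.InpD
import Pool.Agent.H62.W.WtII
import Pool.Agent.H62.W.RmBox
import Pool.Agent.H42.W.TogP

set_option autoImplicit false
open Finset

/-! # Chart II: the functionals of the crossed wall are in the class `PD`

`vod_of`, `pd_of` : every functional `F` with the toggles of the true world. `togII`, `truQ_II` : helper62's
functional `FII`. `pdII` : its case is in the class. -/

namespace Pool.Agent.H15.W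

open Pool.Agent.H75.Perc Pool.Agent.H75.TwoArm Pool.Agent.H69.Q1
open Pool.Agent.H75.Four hiding ev
open Pool.Agent.Q1 Pool.Agent.H33.Q1 Pool.Agent.H60.Q1 Pool.Agent.H39.Q1
open Pool.Agent.H42.W (RB Tog VF)
open Pool.Agent.H60.W.II (ScD VOD PD caseD)
open Pool.Agent.H62.W (GII NWo WtII FII ZQ mem_ZQ zf_ZQ zv_ZQ RemZ PhiG rmF_inter KII KII_rows mem_KII TII EII
  wt_band wt_TII wt_rt wt_wall wt_bot wt_top)
open Pool.Agent.H54.W (Win)

section gen

variable {D : RB} {Wt M : Finset (ℤ × ℤ)} {F : Finset (ℤ × ℤ) → ℂ} {η : ℝ} {R : ℕ}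

/-- **The fields of the functional.** -/
theorem vod_of (hs : ScD η R D) (h : TruQ D Wt M) (hF : Tog D.E Wt M F) :
    VOD η R D (VF F D.Bb D.Bb D.TT RB.fm D.co) (SgQ D Wt) where
  tog := vtogQ h hF
  loc := vlocQ h hF
  deep := by
    intro R' h8 hR'
    have h1 := hs.wx
    have h2 := hs.L1
    have h3 : (8 : ℝ) ≤ R' := by exact_mod_cast h8
    push_cast at h1
    refine deepQ h (by omega) ?_ ?_
    · have : ((2 * R' + D.x0 + 8 : ℤ) : ℝ) ≤ D.w := by push_cast; linarith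
      exact_mod_cast this
    · have : ((2 * R' + 4 : ℤ) : ℝ) ≤ D.L := by push_cast; linarith
      exact_mod_cast this

/-- **The case is in the class.** -/
theorem pd_of (hs : ScD η R D) (h : TruQ D Wt M) (hF : Tog D.E Wt M F) :
    PD η R (caseD D (VF F D.Bb D.Bb D.TT RB.fm D.co) (SgQ D Wt)) :=
  ⟨D, _, _, hs, vod_of hs h hF, rfl⟩

end gen

variable {D : Win} {r x0 a b y0 y1 : ℤ} {c0 : Bool} {Wo S E : Finset (ℤ × ℤ)} {ι : Type*} {Λ Dl : Set (ℤ × ℤ)}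
  {X : ι → ℤ × ℤ}

/-- **The toggles of the functional of the crossed wall.** -/
theorem togII (hR : RemZ r Λ Dl (ZQ a b y0 y1)) (hX : RemZ.Out r (ZQ a b y0 y1) X)
    (Ψ : (ι → ι → Prop) → ℂ) : Tog E (WtII D r a c0 (ZQ a b y0 y1) Wo S) (ZQ a b y0 y1)
      (FII D r x0 a c0 (ZQ a b y0 y1) Wo S (PhiG Λ Dl X Ψ)) := by
  refine (Tog.ofPatF (hR.patF hX zf_ZQ zv_ZQ Ψ (q := fun _ => (1 / 2 : ℂ)) (E := Pool.Agent.H62.W.E0II D r x0 (ZQ a b y0 y1)) GII.disj_E0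
    (V := Pool.Agent.H62.W.WpII D Wo S \ (ZQ a b y0 y1).image (Pool.Agent.H62.W.pl r)) sdiff_disjoint)).congr
    fun w _ => ?_
  unfold FII WtII RemZ.FR
  rw [rmF_inter]

/-- **The true colours of the crossed wall.** -/
theorem truQ_II (G : GII D r x0 a b y0 y1 c0) (N : NWo D r a b y0 y1 c0 Wo S) (h1 : a + 8 ≤ D.w) (h2 : 9 ≤ D.h)
    (h3 : D.w + 2 ≤ b) (hy0 : y0 ≤ -2) (hy1 : D.h + 1 ≤ y1) :
    TruQ (G.rb h1 h2 h3) (WtII D r a c0 (ZQ a b y0 y1) Wo S) (ZQ a b y0 y1) where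
  bd := fun x y h => by
    obtain ⟨k1, k2, k3, k4⟩ := h
    exact wt_band k1 k2 k3 k4
  tie := fun x y h => by
    refine wt_TII ?_
    rw [← G.tt_eq h1 h2 h3]
    exact RB.mem_TT.2 h
  col := fun y k1 k2 k3 => by
    change y + 1 < D.h - 1 at k2
    have hp : (D.w - 1 + y) % 2 = 0 := by
      by_contra hc
      refine k3 ⟨rfl, by omega, ?_, ?_, ?_⟩
      · show y < D.h - 1
        omega
      · show (D.w - 1 + y) % 2 = 1
        omega
      · show if c0 = true then y + 1 < D.h - 1 else 0 < y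
        split_ifs <;> omega
    obtain ⟨k, hk, he⟩ : ∃ k ∈ KII D c0, Pool.Agent.H42.Sp.rt k = (D.w - 1, y) := by
      cases c0
      · refine ⟨_, mem_KII.2 ⟨y + 1, by omega, by simp only [Bool.false_eq_true, if_false]; omega, rfl⟩, ?_⟩
        rw [Pool.Agent.H62.W.rt_R, if_neg (by omega), add_sub_cancel_right]
      · refine ⟨_, mem_KII.2 ⟨y, by omega, by simp only [if_true]; omega, rfl⟩, ?_⟩
        rw [Pool.Agent.H62.W.rt_R, if_pos (by omega)]
    have := wt_rt (r := r) (a := a) (b := b) (y0 := y0) (y1 := y1) (Wo := Wo) (S := S) hk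
    rw [he] at this
    exact this
  wal := fun x y h => by
    obtain ⟨k1, k2, k3, k4⟩ := h
    change x < D.w + (b - D.w) at k2
    exact wt_wall G N k1 (by omega) k3 k4
  bot := ⟨D.cb, fun x y k1 k2 k3 k4 k5 => by
    change x < D.w + (b - D.w) at k2
    exact wt_bot G N k1 (by omega) (by omega) k4 k5⟩
  top := ⟨!D.ct, fun x y k1 k2 k3 k4 k5 => by
    change x < D.w + (b - D.w) at k2
    change D.h - 1 ≤ y at k3
    change y < D.h - 1 + 2 at k4
    have := wt_top G N k1 (by omega) k3 (by omega) k5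
    rw [this]
    cases D.ct <;> simp⟩
  msk := fun x y k1 k2 k3 k4 => by
    change a ≤ x at k1
    change x < D.w + (b - D.w) at k2
    change y < D.h - 1 + 2 at k4
    exact mem_ZQ.2 ⟨k1, by omega, by omega, by omega⟩

/-- **The case of the functional of the crossed wall is in the class `PD`.** -/
theorem pdII (G : GII D r x0 a b y0 y1 c0) (N : NWo D r a b y0 y1 c0 Wo S) (h1 : a + 8 ≤ D.w) (h2 : 9 ≤ D.h)
    (h3 : D.w + 2 ≤ b) (hy0 : y0 ≤ -2) (hy1 : D.h + 1 ≤ y1) (hR : RemZ r Λ Dl (ZQ a b y0 y1))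
    (hX : RemZ.Out r (ZQ a b y0 y1) X) (Ψ : (ι → ι → Prop) → ℂ) {η : ℝ} {n : ℕ}
    (s1 : η * n ≤ ((D.h - 1 : ℤ) : ℝ)) (s2 : ((D.h - 1 : ℤ) : ℝ) ≤ n / η) (s3 : η * n ≤ ((D.w - a : ℤ) : ℝ))
    (s4 : η * n ≤ ((b - D.w : ℤ) : ℝ)) :
    PD η n (caseD (G.rb h1 h2 h3) (VF (FII D r x0 a c0 (ZQ a b y0 y1) Wo S (PhiG Λ Dl X Ψ)) (G.rb h1 h2 h3).Bb
      (G.rb h1 h2 h3).Bb (G.rb h1 h2 h3).TT RB.fm (G.rb h1 h2 h3).co)
      (SgQ (G.rb h1 h2 h3) (WtII D r a c0 (ZQ a b y0 y1) Wo S))) :=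
  pd_of ⟨s1, s2, s3, s4⟩ (truQ_II G N h1 h2 h3 hy0 hy1) (togII hR hX Ψ)

end Pool.Agent.H15.W
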