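import Mathlib
import Pool.Agent.H49.W.AsmW2
import Pool.Agent.H59.W.FineW

set_option autoImplicit false
open Finset

/-!
# Freezing the ties of some families

`kp i` : the family `i` is kept. `kT` : the ties of the kept families, `dW` : the open labels of the other ties if
all of them are tied, `frX` : the environment with the other ties tied. The geometry of the kept families passes to
the frozen data `frX X TT fm co kp`, `W ∪ dW TT fm co kp`, `kT TT fm kp`.
-/

namespace Pool.Agent.H15.W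

open Pool.Agent.H75.Perc Pool.Agent.H75.TwoArm Pool.Agent.H75.Four Pool.Agent.H69.Q1
open Pool.Agent.Q1 Pool.Agent.H25.Q1.Add Pool.Agent.H99.NC Pool.Agent.H49.Perc
open Pool.Agent.H39.Q1 hiding hide_LL hide_LF hide_FL hide_FF
open Pool.Agent.H20.Q1 (Eh CS hf)
open Pool.Agent.H40.Sp (Cht CrW CnrW CnrN NB)
open Pool.Agent.H49.W (FlatWallV WallsV)
open Pool.Agent.H44.FM.AsmW (TW mem_TW)
open Pool.Agent.H59.W
open Pool.Agent.H39.R45 (vpi)

section

variable {ι : Type*}

/-- the ties of the kept families -/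
def kT (TT : Finset (ℤ × ℤ)) (fm : ℤ × ℤ → ι) (kp : ι → Bool) : Finset (ℤ × ℤ) :=
  TT.filter fun e => kp (fm e) = true

/-- the ties of the other families -/
def dT (TT : Finset (ℤ × ℤ)) (fm : ℤ × ℤ → ι) (kp : ι → Bool) : Finset (ℤ × ℤ) :=
  TT.filter fun e => kp (fm e) = false

/-- the open labels of the other ties -/
def dW (TT : Finset (ℤ × ℤ)) (fm : ℤ × ℤ → ι) (co kp : ι → Bool) : Finset (ℤ × ℤ) :=
  TT.filter fun e => kp (fm e) = false ∧ co (fm e) = true

/-- the environment with the other ties tied -/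
def frX (X : Env) (TT : Finset (ℤ × ℤ)) (fm : ℤ × ℤ → ι) (co kp : ι → Bool) : Env :=
  X.freeze (X.E \ dT TT fm kp) (dW TT fm co kp)

variable {X : Env} {W Bb B TT Tn ω P : Finset (ℤ × ℤ)}
  {fm : ℤ × ℤ → ι} {co kp : ι → Bool} {e l : ℤ × ℤ} {i : ι}

lemma mem_kT : e ∈ kT TT fm kp ↔ e ∈ TT ∧ kp (fm e) = true := by unfold kT; rw [mem_filter]

lemma mem_dT : e ∈ dT TT fm kp ↔ e ∈ TT ∧ kp (fm e) = false := by unfold dT; rw [mem_filter]

lemma mem_dW : e ∈ dW TT fm co kp ↔ e ∈ TT ∧ kp (fm e) = false ∧ co (fm e) = true := by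
  unfold dW; rw [mem_filter]

lemma kT_sub : kT TT fm kp ⊆ TT := filter_subset _ _

lemma dW_sub : dW TT fm co kp ⊆ TT := filter_subset _ _

lemma dW_dT : dW TT fm co kp ⊆ dT TT fm kp := fun _ h => mem_dT.2 ⟨(mem_dW.1 h).1, (mem_dW.1 h).2.1⟩

lemma kT_dT : TT \ dT TT fm kp = kT TT fm kp := by
  ext e
  rw [mem_sdiff, mem_dT, mem_kT]
  cases kp (fm e) <;> simp

@[simp] lemma frX_c0 : (frX X TT fm co kp).c0 = X.c0 := rfl

@[simp] lemma frX_k0 : (frX X TT fm co kp).k0 = X.k0 := rfl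

@[simp] lemma frX_T : (frX X TT fm co kp).T = X.T := rfl

lemma frX_E : (frX X TT fm co kp).E = X.E \ dT TT fm kp := by
  show X.E ∩ (X.E \ dT TT fm kp) = _
  ext e; simp only [mem_inter, mem_sdiff]; tauto

/-- **the frozen environment is planar** -/
theorem frX_pl (hT : TT ⊆ X.E) (h : X.PlaneLike W) :
    (frX X TT fm co kp).PlaneLike (W ∪ dW TT fm co kp) := by
  intro ω hω j
  have hω' : ω ⊆ X.E ∩ (X.E \ dT TT fm kp) := hω
  have e1 : dW TT fm co kp ∩ (X.E \ (X.E \ dT TT fm kp)) = dW TT fm co kp := by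
    refine inter_eq_left.2 fun l hl => ?_
    rw [mem_sdiff, mem_sdiff, not_and, not_not]
    exact ⟨hT (dW_sub hl), fun _ => dW_dT hl⟩
  unfold frX
  rw [Env.freeze_z hω', e1, h _ ?_ j]
  · rw [union_assoc, union_comm (dW TT fm co kp) W]
    rfl
  · refine union_subset (fun l hl => (mem_inter.1 (hω' hl)).1) (dW_sub.trans hT)

end

section

variable {ι : Type*} [DecidableEq ι] {X : Env} {W Bb B TT Tn Cs ω P : Finset (ℤ × ℤ)}
  {fm : ℤ × ℤ → ι} {co kp : ι → Bool} {Wl La Λ : ι → Finset (ℤ × ℤ)}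
  {b o : ℤ × ℤ → ℤ × ℤ} {e l x y w : ℤ × ℤ} {i : ι} {m R : ℤ}

lemma TF_kT (h : kp i = true) : TF (kT TT fm kp) fm i = TF TT fm i := by
  ext e
  rw [mem_TF, mem_TF, mem_kT]
  constructor
  · rintro ⟨⟨h1, -⟩, h3⟩; exact ⟨h1, h3⟩
  · rintro ⟨h1, h2⟩; exact ⟨⟨h1, by rw [h2]; exact h⟩, h2⟩

lemma TF_dT (h : kp i = false) : TF (kT TT fm kp) fm i = ∅ := by
  ext e
  rw [mem_TF, mem_kT]
  constructor
  · rintro ⟨⟨-, h1⟩, h3⟩; rw [h3, h] at h1; exact absurd h1 (by decide)
  · intro h1; exact absurd h1 (notMem_empty e)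

lemma TF_kT_sub : TF (kT TT fm kp) fm i ⊆ TF TT fm i := fun e h => by
  rw [mem_TF, mem_kT] at h
  exact mem_TF.2 ⟨h.1.1, h.2⟩

lemma cls_kT (h : kp (fm e) = true) : cls (kT TT fm kp) fm co La b ω e = cls TT fm co La b ω e := by
  ext l
  rw [mem_cls, mem_cls, mem_kT]
  constructor
  · rintro ⟨⟨⟨h1, -⟩, h3⟩, h4⟩; exact ⟨⟨h1, h3⟩, h4⟩
  · rintro ⟨⟨h1, h2⟩, h3⟩; exact ⟨⟨⟨h1, by rw [h2]; exact h⟩, h2⟩, h3⟩

lemma opn_kT (hP : P ⊆ kT TT fm kp) :
    opn (kT TT fm kp) fm co P ∪ dW TT fm co kp = opn TT fm co (P ∪ dT TT fm kp) := by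
  ext l
  rw [mem_union, mem_opn, mem_opn, mem_kT, mem_dW, mem_union, mem_dT]
  constructor
  · rintro (⟨⟨h1, h2⟩, h3⟩ | ⟨h1, h2, h3⟩)
    · refine ⟨h1, ?_⟩
      rw [← h3]
      constructor
      · rintro (h4 | ⟨-, h4⟩)
        · exact h4
        · rw [h2] at h4; exact absurd h4 (by decide)
      · exact Or.inl
    · refine ⟨h1, fun _ => h3, fun _ => Or.inr ⟨h1, h2⟩⟩
  · rintro ⟨h1, h2⟩
    rcases hk : kp (fm l) with _ | _
    · exact Or.inr ⟨h1, rfl, h2.1 (Or.inr ⟨h1, hk⟩)⟩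
    · refine Or.inl ⟨⟨h1, rfl⟩, fun h3 => h2.1 (Or.inl h3), fun h3 => ?_⟩
      rcases h2.2 h3 with h4 | ⟨-, h4⟩
      · exact h4
      · rw [hk] at h4; exact absurd h4 (by decide)

lemma VO_mono {La' T T' : Finset (ℤ × ℤ)} (h : T ⊆ T') (hx : VO La' T b x) : VO La' T' b x := by
  rcases hx with ⟨e, he, h1⟩ | h1
  · exact Or.inl ⟨e, h he, h1⟩
  · exact Or.inr h1

lemma VC_mono {La' T T' : Finset (ℤ × ℤ)} (h : T ⊆ T') (hx : VC La' T b x) : VC La' T' b x := by
  rcases hx with ⟨e, he, h1⟩ | h1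
  · exact Or.inl ⟨e, h he, h1⟩
  · exact Or.inr h1

/-- **Freezing the ties of some families.** -/
theorem Multi_frz (h : Multi X W Bb B TT fm co Wl La b o) :
    Multi (frX X TT fm co kp) (W ∪ dW TT fm co kp) Bb B (kT TT fm kp) fm co Wl La b o where
  pl := frX_pl h.tE h.pl
  bE := by
    rw [frX_E]
    intro l hl
    exact mem_sdiff.2 ⟨h.bE hl, fun h1 => disjoint_left.1 h.bT hl (mem_dT.1 h1).1⟩
  tE := by
    rw [frX_E]
    intro l hl
    refine mem_sdiff.2 ⟨h.tE (kT_sub hl), fun h1 => ?_⟩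
    have h2 := (mem_kT.1 hl).2
    rw [(mem_dT.1 h1).2] at h2
    exact absurd h2 (by decide)
  bB := h.bB
  bW := by
    rw [disjoint_union_right]
    exact ⟨h.bW, h.bT.mono_right dW_sub⟩
  bT := h.bT.mono_right kT_sub
  tO := fun i hi => by
    have g := h.tO i hi
    refine ⟨?_, ?_, g.w1.trans subset_union_left, fun e he => g.unit e (TF_kT_sub he),
      fun e he => g.ends e (TF_kT_sub he), fun e he e' he' => g.conn e (TF_kT_sub he) e' (TF_kT_sub he'),
      fun a b' h1 h2 e he => g.conn' a b' h1 h2 e (TF_kT_sub he)⟩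
    · rw [frX_E]
      intro l hl
      refine mem_sdiff.2 ⟨g.sub (TF_kT_sub hl), fun h1 => ?_⟩
      have h2 := (mem_kT.1 (mem_TF.1 hl).1).2
      rw [(mem_dT.1 h1).2] at h2
      exact absurd h2 (by decide)
    · rw [disjoint_union_right]
      refine ⟨g.disj.mono_left TF_kT_sub, ?_⟩
      rw [disjoint_left]
      intro l hl h1
      have h2 := (mem_kT.1 (mem_TF.1 hl).1).2
      rw [(mem_dW.1 h1).2.1] at h2
      exact absurd h2 (by decide)
  tC := fun i hi => by
    have g := h.tC i hi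
    refine ⟨?_, ?_, ?_, ?_, fun e he => g.unit e (TF_kT_sub he),
      fun e he => g.ends e (TF_kT_sub he), fun e he e' he' => g.conn e (TF_kT_sub he) e' (TF_kT_sub he'),
      fun a b' h1 h2 e he => g.conn' a b' h1 h2 e (TF_kT_sub he)⟩
    · rw [frX_E]
      intro l hl
      refine mem_sdiff.2 ⟨g.sub (TF_kT_sub hl), fun h1 => ?_⟩
      have h2 := (mem_kT.1 (mem_TF.1 hl).1).2
      rw [(mem_dT.1 h1).2] at h2
      exact absurd h2 (by decide)
    · rw [disjoint_union_right]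
      refine ⟨g.disj.mono_left TF_kT_sub, ?_⟩
      rw [disjoint_left]
      intro l hl h1
      have h2 := (mem_kT.1 (mem_TF.1 hl).1).2
      rw [(mem_dW.1 h1).2.1] at h2
      exact absurd h2 (by decide)
    · rw [frX_E]
      exact g.kE.mono_right sdiff_subset
    · rw [disjoint_union_right]
      exact ⟨g.kW, g.kE.mono_right (dW_sub.trans h.tE)⟩
  la := h.la
  nbO := fun i hi x y h1 h2 h3 => h.nbO i hi x y h1 (VO_mono TF_kT_sub h2) h3
  nbC := fun i hi x y h1 h2 h3 => h.nbC i hi x y h1 (VC_mono TF_kT_sub h2) h3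

/-- the possible exits of a kept family: the ties of the other families of the other colour are no exits -/
lemma av_frz (hk : kp i = true) (h : av Bb (W ∪ dW TT fm co kp) (kT TT fm kp) fm co Wl i l) :
    av Bb W TT fm co Wl i l ∧ (l ∈ TT → l ∉ Bb → l ∉ W → kp (fm l) = false → co (fm l) = co i) := by
  unfold av at h ⊢
  rcases hc : co i with _ | _
  · rw [hc, if_neg Bool.false_ne_true, TF_kT hk] at h
    rw [if_neg Bool.false_ne_true]
    refine ⟨fun h1 => h ?_, fun h1 h2 h3 h4 => ?_⟩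
    · rcases mem_union.1 h1 with h2 | h2
      · exact mem_union_left _ (mem_union_left _ h2)
      · exact mem_union_right _ h2
    · by_contra h5
      refine h (mem_union_left _ (mem_union_right _ (mem_dW.2 ⟨h1, h4, ?_⟩)))
      cases hl : co (fm l)
      · exact absurd hl h5
      · rfl
  · rw [hc, if_pos rfl, TF_kT hk] at h
    rw [if_pos rfl]
    rcases mem_union.1 h with h1 | h1
    · rcases mem_union.1 h1 with h2 | h2
      · exact ⟨mem_union_left _ (mem_union_left _ h2), fun _ h3 => absurd h2 h3⟩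
      · obtain ⟨h3, h4⟩ := mem_sdiff.1 h2
        refine ⟨mem_union_left _ (mem_union_right _ (mem_sdiff.2 ⟨kT_sub h3, h4⟩)), fun _ _ _ h5 => ?_⟩
        rw [(mem_kT.1 h3).2] at h5
        exact absurd h5 (by decide)
    · obtain ⟨h2, h3⟩ := mem_sdiff.1 h1
      rcases mem_union.1 h2 with h4 | h4
      · exact ⟨mem_union_right _ (mem_sdiff.2 ⟨h4, h3⟩), fun _ _ h5 => absurd h4 h5⟩
      · obtain ⟨h5, h6, h7⟩ := mem_dW.1 h4
        refine ⟨mem_union_left _ (mem_union_right _ (mem_sdiff.2 ⟨h5, fun h8 => ?_⟩)),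
          fun _ _ _ _ => h7⟩
        rw [(mem_TF.1 h8).2, hk] at h6
        exact absurd h6 (by decide)

/-- no open frozen tie in the box of a flat wall -/
lemma dW_far (h : Multi X W Bb B TT fm co Wl La b o) (hk : kp i = true) {U : Finset (ℤ × ℤ)}
    (hin : ∀ l ∈ Bb ∪ (TT \ TF TT fm i), l ∈ U → l ∈ La i) (hl : l ∈ dW TT fm co kp) : l ∉ U := by
  intro hU
  obtain ⟨h1, h2, -⟩ := mem_dW.1 hl
  have h3 : l ∉ TF TT fm i := fun h4 => by
    rw [(mem_TF.1 h4).2, hk] at h2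
    exact absurd h2 (by decide)
  exact disjoint_left.1 h.bT (h.bB (h.la i (hin l (mem_union_right _ (mem_sdiff.2 ⟨h1, h3⟩)) hU))) h1

lemma sub_frz : Bb ∪ (kT TT fm kp \ TF TT fm i) ⊆ Bb ∪ (TT \ TF TT fm i) :=
  union_subset_union_right (sdiff_subset_sdiff kT_sub (Subset.refl _))

/-- **flat walls of the kept families** -/
theorem WallG_frz (h : Multi X W Bb B TT fm co Wl La b o) (hk : kp (fm e) = true)
    (hG : WallG X W Bb TT fm co Wl La b o e w m R) :
    WallG (frX X TT fm co kp) (W ∪ dW TT fm co kp) Bb (kT TT fm kp) fm co Wl La b o e w m R := by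
  unfold WallG at hG ⊢
  rw [TF_kT hk]
  split_ifs at hG ⊢ with hc
  · exact
      { inb := fun l hl => hG.inb l (sub_frz hl)
        root := hG.root
        wsub := by
          intro l hl
          obtain ⟨h1, h2⟩ := mem_inter.1 hl
          rcases mem_union.1 h1 with h3 | h3
          · exact hG.wsub (mem_inter.2 ⟨h3, h2⟩)
          · exact absurd h2 (dW_far h hk hG.inb h3)
        conn := hG.conn
        b1 := hG.b1
        b2 := hG.b2
        sep := hG.sep
        oe := hG.oe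
        ne := hG.ne }
  · exact
      { inb := fun l hl => hG.inb l (sub_frz hl)
        root := hG.root
        cov := hG.cov.trans (union_subset_union_right subset_union_left)
        conn := hG.conn
        b1 := hG.b1
        b2 := hG.b2
        sep := hG.sep
        oe := hG.oe
        ne := hG.ne }

/-- the converse (for `VLoc` of the frozen data from `VLoc` of the data) -/
theorem WallG_of_frz (hk : kp (fm e) = true)
    (hT : ∀ l ∈ dT TT fm kp, l ∈ bx (co (fm e)) w R → l ∈ La (fm e))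
    (hG : WallG (frX X TT fm co kp) (W ∪ dW TT fm co kp) Bb (kT TT fm kp) fm co Wl La b o e w m R)
    (hW : co (fm e) = false → ∀ l ∈ dW TT fm co kp, l ∉ BD w R) :
    WallG X W Bb TT fm co Wl La b o e w m R := by
  unfold WallG at hG ⊢
  rw [TF_kT hk] at hG
  split_ifs at hG ⊢ with hc
  · have hb : bx (co (fm e)) w R = BR w R := by unfold bx; rw [if_pos hc]
    rw [hb] at hT
    exact
      { inb := fun l hl hB => by
          rcases mem_union.1 hl with h1 | h1
          · exact hG.inb l (mem_union_left _ h1) hB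
          · obtain ⟨h2, h3⟩ := mem_sdiff.1 h1
            rcases hkl : kp (fm l) with _ | _
            · exact hT l (mem_dT.2 ⟨h2, hkl⟩) hB
            · exact hG.inb l (mem_union_right _ (mem_sdiff.2 ⟨mem_kT.2 ⟨h2, hkl⟩, h3⟩)) hB
        root := hG.root
        wsub := (inter_subset_inter_right subset_union_left).trans hG.wsub
        conn := hG.conn
        b1 := hG.b1
        b2 := hG.b2
        sep := hG.sep
        oe := hG.oe
        ne := hG.ne }
  · have hb : bx (co (fm e)) w R = BD w R := by unfold bx; rw [if_neg hc]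
    rw [hb] at hT
    exact
      { inb := fun l hl hB => by
          rcases mem_union.1 hl with h1 | h1
          · exact hG.inb l (mem_union_left _ h1) hB
          · obtain ⟨h2, h3⟩ := mem_sdiff.1 h1
            rcases hkl : kp (fm l) with _ | _
            · exact hT l (mem_dT.2 ⟨h2, hkl⟩) hB
            · exact hG.inb l (mem_union_right _ (mem_sdiff.2 ⟨mem_kT.2 ⟨h2, hkl⟩, h3⟩)) hB
        root := hG.root
        cov := fun l hl => by
          rcases mem_union.1 (hG.cov hl) with h1 | h1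
          · exact mem_union_left _ h1
          · rcases mem_union.1 h1 with h2 | h2
            · exact mem_union_right _ h2
            · exact absurd hl (hW (by simpa using hc) l h2)
        conn := hG.conn
        b1 := hG.b1
        b2 := hG.b2
        sep := hG.sep
        oe := hG.oe
        ne := hG.ne }

theorem FlatL_frz (h : Multi X W Bb B TT fm co Wl La b o) (hk : kp i = true) {ε : Bool × Bool}
    {δ : ℤ × ℤ} (hG : FlatL W Bb TT (TF TT fm i) (Wl i) (La i) b o (co i) ε δ w R) :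
    FlatL (W ∪ dW TT fm co kp) Bb (kT TT fm kp) (TF TT fm i) (Wl i) (La i) b o (co i) ε δ w R where
  hδ := hG.hδ
  la := hG.la
  xe := fun l hl => hG.xe l (sub_frz hl)
  tie := hG.tie
  ends := hG.ends
  wl := hG.wl
  wf := hG.wf
  wu := hG.wu
  w := fun l hl => by
    have h0 := hG.w l hl
    split_ifs at h0 ⊢ with hc
    · intro h1
      rcases mem_union.1 h1 with h2 | h2
      · exact h0 h2
      · exfalso
        obtain ⟨h3, h4, -⟩ := mem_dW.1 h2
        have h5 : l ∉ TF TT fm i := fun h6 => by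
          rw [(mem_TF.1 h6).2, hk] at h4
          exact absurd h4 (by decide)
        have h6 := (hG.la l hl).2 (hG.xe l (mem_union_right _ (mem_sdiff.2 ⟨h3, h5⟩)) hl)
        exact disjoint_left.1 h.bT (h.bB (h.la i h6)) h3
    · intro h1 h2
      exact mem_union_left _ (h0 h1 h2)

theorem FlatWallV_frz (h : Multi X W Bb B TT fm co Wl La b o) (hk : kp i = true) {Sg FlT : Finset (ℤ × ℤ)}
    {rk : ℤ × ℤ → ℤ} {ε : Bool × Bool} {δ : ℤ × ℤ}
    (hG : FlatWallV X W Bb TT Sg fm co Wl La b o rk i ε δ FlT R) :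
    FlatWallV (frX X TT fm co kp) (W ∪ dW TT fm co kp) Bb (kT TT fm kp) Sg fm co Wl La b o rk i ε δ
      FlT R where
  sub := by rw [TF_kT hk]; exact hG.sub
  line := hG.line
  inj := by rw [TF_kT hk]; exact hG.inj
  rk := by rw [TF_kT hk]; exact hG.rk
  flat := fun e he => by rw [TF_kT hk]; exact FlatL_frz h hk (hG.flat e he)
  root := hG.root
  cs := hG.cs

/-- **marked corners between kept families** -/
theorem CnrW_frz {L : Finset (ℤ × ℤ)} {iL iF : ι} {κ : Cht} {h Um Vm D : ℤ}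
    (hL : kp iL = true) (hF : kp iF = true)
    (hC : CnrW W Bb B TT Tn fm co Wl La Λ b o L iL iF κ h Um Vm D) :
    CnrW (W ∪ dW TT fm co kp) Bb B (kT TT fm kp) (kT Tn fm kp) fm co Wl La Λ b o L iL iF κ h Um Vm D :=
  { hC with
    dL := by rw [TF_kT hL]; exact hC.dL
    dF := by rw [TF_kT hF]; exact hC.dF
    tn := fun l hl => by
      obtain ⟨h1, h2⟩ := mem_kT.1 hl
      exact mem_kT.2 ⟨hC.tn h1, h2⟩
    tL := fun e he => hC.tL e (kT_sub he)
    tLm := fun e he => hC.tLm e (kT_sub he)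
    tF := fun e he => hC.tF e (kT_sub he)
    tFm := fun e he => hC.tFm e (kT_sub he)
    exL := fun x y h1 h2 h3 h4 => by
      rw [TF_kT hL] at h3
      exact hC.exL x y h1 h2 h3 (av_frz hL h4).1
    exF := fun x y h1 h2 h3 h4 => by
      rw [TF_kT hF] at h3
      exact hC.exF x y h1 h2 h3 (av_frz hF h4).1 }

theorem CnrN_frz {L : Finset (ℤ × ℤ)} {iL iF : ι} {κ : Cht} {h : ℤ}
    (hL : kp iL = true) (hF : kp iF = true) (hC : CnrN TT Tn fm co La b L iL iF κ h) :
    CnrN (kT TT fm kp) (kT Tn fm kp) fm co La b L iL iF κ h :=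
  { hC with
    fullL := fun x h1 h2 h3 => by
      obtain ⟨e, h4, h5, h6⟩ := hC.fullL x h1 h2 h3
      exact ⟨e, mem_kT.2 ⟨h4, by rw [h5]; exact hL⟩, h5, h6⟩
    fullF := fun x h1 h2 h3 => by
      obtain ⟨e, h4, h5, h6⟩ := hC.fullF x h1 h2 h3
      exact ⟨e, mem_kT.2 ⟨h4, by rw [h5]; exact hF⟩, h5, h6⟩
    tieN := fun e he h1 h2 h3 => by
      obtain ⟨h4, h5⟩ := mem_kT.1 he
      exact mem_kT.2 ⟨hC.tieN e h4 h1 h2 h3, h5⟩ }

/-- **all marked corners**: `Γ'` are the marked corners between kept families; the exits at the other marked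
corners have to be excluded -/
theorem CrW_frz {γ : Type*} [DecidableEq γ] {h : ℤ} {Γ Γ' : Finset γ} {Tn : γ → Finset (ℤ × ℤ)}
    {Λ : γ → ι → Finset (ℤ × ℤ)} {L : γ → Finset (ℤ × ℤ)} {iL iF : γ → ι} {κ : γ → Cht}
    {Um Vm D : γ → ℤ} (hC : CrW W Bb B TT fm co Wl La b o h Γ Tn Λ L iL iF κ Um Vm D) (hΓ : Γ' ⊆ Γ)
    (hk : ∀ c ∈ Γ', kp (iL c) = true ∧ kp (iF c) = true)
    (hL : ∀ c ∈ Γ, c ∉ Γ' → kp (iL c) = true → ∀ x y, IsUnit4 (y - x) →
      VN (co (iL c)) (La (iL c)) (TF TT fm (iL c)) b x →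
      av Bb (W ∪ dW TT fm co kp) (kT TT fm kp) fm co Wl (iL c) (el (co (iL c)) x y) →
      (∀ z, IsUnit4 (z - x) → el (co (iL c)) x z ∉ Wl (iL c)) → (κ c).V (nd (co (iL c)) x) = 0 →
      0 ≤ (κ c).U (nd (co (iL c)) x) → (κ c).U (nd (co (iL c)) x) < 2 * h →
      el (co (iL c)) x y ∈ La (iL c) ∨
      ∀ e ∈ TF TT fm (iL c), h ≤ |cU 1 0 0 (nd (co (iL c)) x) - cU 1 0 0 (nd (co (iL c)) (b e))| ∨
        h ≤ |cV 1 0 0 (nd (co (iL c)) x) - cV 1 0 0 (nd (co (iL c)) (b e))|)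
    (hF : ∀ c ∈ Γ, c ∉ Γ' → kp (iF c) = true → ∀ x y, IsUnit4 (y - x) →
      VN (co (iF c)) (La (iF c)) (TF TT fm (iF c)) b x →
      av Bb (W ∪ dW TT fm co kp) (kT TT fm kp) fm co Wl (iF c) (el (co (iF c)) x y) →
      (∀ z, IsUnit4 (z - x) → el (co (iF c)) x z ∉ Wl (iF c)) → (κ c).U (nd (co (iF c)) x) = 0 →
      1 ≤ (κ c).V (nd (co (iF c)) x) → (κ c).V (nd (co (iF c)) x) < 2 * h →
      el (co (iF c)) x y ∈ La (iF c) ∨
      ∀ e ∈ TF TT fm (iF c), h ≤ |cU 1 0 0 (nd (co (iF c)) x) - cU 1 0 0 (nd (co (iF c)) (b e))| ∨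
        h ≤ |cV 1 0 0 (nd (co (iF c)) x) - cV 1 0 0 (nd (co (iF c)) (b e))|)
    :
    CrW (W ∪ dW TT fm co kp) Bb B (kT TT fm kp) fm co Wl La b o h Γ' (fun c => kT (Tn c) fm kp) Λ L iL
      iF κ Um Vm D where
  cnr := fun c hc => CnrW_frz (hk c hc).1 (hk c hc).2 (hC.cnr c (hΓ hc))
  cnn := fun c hc => CnrN_frz (hk c hc).1 (hk c hc).2 (hC.cnn c (hΓ hc))
  ex := fun i x y h1 h2 h3 h4 => by
    rcases hki : kp i with _ | _
    · refine Or.inr (Or.inl fun e he => ?_)
      rw [TF_dT hki] at he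
      exact absurd he (notMem_empty e)
    · rw [TF_kT hki] at h2 ⊢
      rcases hC.ex i x y h1 h2 (av_frz hki h3).1 h4 with h5 | h5 | ⟨c, hc, h5, h6, h7, h8⟩ |
        ⟨c, hc, h5, h6, h7, h8⟩
      · exact Or.inl h5
      · exact Or.inr (Or.inl h5)
      · subst h5
        by_cases hc' : c ∈ Γ'
        · exact Or.inr (Or.inr (Or.inl ⟨c, hc', rfl, h6, h7, h8⟩))
        · rcases hL c hc hc' hki x y h1 h2 h3 h4 h6 h7 h8 with h9 | h9
          · exact Or.inl h9
          · exact Or.inr (Or.inl h9)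
      · subst h5
        by_cases hc' : c ∈ Γ'
        · exact Or.inr (Or.inr (Or.inr ⟨c, hc', rfl, h6, h7, h8⟩))
        · rcases hF c hc hc' hki x y h1 h2 h3 h4 h6 h7 h8 with h9 | h9
          · exact Or.inl h9
          · exact Or.inr (Or.inl h9)

lemma vpi_kT (hk : kp i = true) {ε : Bool × Bool} : vpi (kT TT fm kp) fm co b i ε = vpi TT fm co b i ε := by
  funext l
  unfold vpi
  simp only [TF_kT hk]

lemma VI_kT (hk : kp i = true) {ε : Bool × Bool} : VI (kT TT fm kp) fm b i ε = VI TT fm b i ε := by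
  unfold VI
  rw [TF_kT hk]

end

section

variable {ι κ κ' : Type} [DecidableEq ι] [DecidableEq κ] [DecidableEq κ'] {X : Env}
  {W Bb B TT Sg : Finset (ℤ × ℤ)} {fm : ℤ × ℤ → ι} {co kp : ι → Bool} {Wl La : ι → Finset (ℤ × ℤ)}
  {b o : ℤ × ℤ → ℤ × ℤ} {rk : ℤ × ℤ → ℤ} {wl : ℤ × ℤ → κ} {wl' : ℤ × ℤ → κ'} {g : κ' → κ}
  {fw : κ → ι} {ε : κ → Bool × Bool} {δ : κ → ℤ × ℤ} {x0 : κ → ℤ × ℤ} {N : κ → ℤ} {D R : ℤ} {Q : ℝ}
  {FlT : κ → Finset (ℤ × ℤ)}

/-- **the walls of the kept families**: `g` embeds them into all walls -/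
theorem WD_frz (hg : Function.Injective g) (hwl : ∀ e ∈ kT TT fm kp, g (wl' e) = wl e)
    (hk : ∀ w, kp (fw (g w)) = true) (h : WD B TT fm co La b wl fw ε x0 N D Q) :
    WD B (kT TT fm kp) fm co La b wl' (fun w => fw (g w)) (fun w => ε (g w)) (fun w => x0 (g w))
      (fun w => N (g w)) D Q where
  dBT := h.dBT.mono_right kT_sub
  laB := h.laB
  fww := fun w => by
    have h1 := h.fww (g w)
    have e1 : TW (kT TT fm kp) wl' w = TW TT wl (g w) := by
      ext e
      rw [mem_TW, mem_TW]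
      constructor
      · rintro ⟨h2, h3⟩
        exact ⟨kT_sub h2, by rw [← hwl e h2, h3]⟩
      · rintro ⟨h2, h3⟩
        have h4 := (mem_TF.1 (h1.sub (mem_TW.2 ⟨h2, h3⟩))).2
        have h5 : e ∈ kT TT fm kp := mem_kT.2 ⟨h2, by rw [h4]; exact hk w⟩
        exact ⟨h5, hg (by rw [hwl e h5, h3])⟩
    rw [e1]
    refine ⟨h1.odd, ?_, h1.wall, ?_, ?_⟩
    · rw [TF_kT (hk w)]; exact h1.sub
    · rw [TF_kT (hk w)]; exact h1.full
    · rw [TF_kT (hk w)]; exact h1.inj
  we := fun w => by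
    rw [VI_kT (hk w)]
    exact h.we (g w)
  sep := fun w w' hne => by
    rw [VI_kT (hk w), VI_kT (hk w'), vpi_kT (hk w), vpi_kT (hk w')]
    exact h.sep (g w) (g w') fun h1 => hne (hg h1)
  len := fun w => h.len (g w)

/-- **the flat walls of the kept families** -/
theorem WallsV_frz (hM : Multi X W Bb B TT fm co Wl La b o) (hg : Function.Injective g)
    (hwl : ∀ e ∈ kT TT fm kp, g (wl' e) = wl e) (hk : ∀ w, kp (fw (g w)) = true)
    (h : WallsV X W Bb TT Sg fm co Wl La b o rk wl fw ε δ FlT R) :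
    WallsV (frX X TT fm co kp) (W ∪ dW TT fm co kp) Bb (kT TT fm kp) Sg fm co Wl La b o rk wl'
      (fun w => fw (g w)) (fun w => ε (g w)) (fun w => δ (g w)) (fun w => FlT (g w)) R where
  hfl := fun w => FlatWallV_frz hM (hk w) (h.hfl (g w))
  hfw := fun e he => by
    rw [hwl e he]
    exact h.hfw e (kT_sub he)
  hwl := fun w e he => by
    have h1 := mem_TF.1 ((h.hfl (g w)).sub he)
    have h2 : e ∈ kT TT fm kp := mem_kT.2 ⟨h1.1, by rw [h1.2]; exact hk w⟩
    exact hg (by rw [hwl e h2]; exact h.hwl (g w) e he)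
  hloc := fun w e he e' he' hin => by
    have h1 := mem_TF.1 he'
    have h3 := h.hloc (g w) e he e' (TF_kT_sub he') hin
    exact hg (by rw [hwl e' h1.1]; exact h3)

/-- **walls and marked corners of the kept families** -/
theorem WCr_frz {γ : Type} [DecidableEq γ] {h : ℤ} {Γ Γ' : Finset γ} {Tn : γ → Finset (ℤ × ℤ)}
    {Λ : γ → ι → Finset (ℤ × ℤ)} {L : γ → Finset (ℤ × ℤ)} {iL iF : γ → ι} {χ : γ → Cht}
    {Um Vm Dm : γ → ℤ} (hg : Function.Injective g) (hwl : ∀ e ∈ kT TT fm kp, g (wl' e) = wl e)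
    (hk : ∀ w, kp (fw (g w)) = true) (hΓ : Γ' ⊆ Γ)
    (hW : WCr W Bb B TT fm co Wl La b o h Γ Tn Λ L iL iF χ Um Vm Dm wl fw ε x0 N D Q)
    (hC : CrW (W ∪ dW TT fm co kp) Bb B (kT TT fm kp) fm co Wl La b o h Γ' (fun c => kT (Tn c) fm kp) Λ
      L iL iF χ Um Vm Dm) :
    WCr (W ∪ dW TT fm co kp) Bb B (kT TT fm kp) fm co Wl La b o h Γ' (fun c => kT (Tn c) fm kp) Λ L iL iF
      χ Um Vm Dm wl' (fun w => fw (g w)) (fun w => ε (g w)) (fun w => x0 (g w)) (fun w => N (g w)) D Q where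
  wd := WD_frz hg hwl hk hW.wd
  cr := hC
  sur := fun c hc => hW.sur c (hΓ hc)
  lnk := fun c hc e he ρ h1 h2 h3 => by
    obtain ⟨τ, h4, h5⟩ := hW.lnk c (hΓ hc) e (kT_sub he) ρ h1 h2 h3
    refine ⟨τ, ?_, ?_⟩
    · simp only [hwl e he]; exact h4
    · simp only [hwl e he]; exact h5
  D16 := hW.D16

end

end Pool.Agent.H15.W
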