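import Mathlib
import Pool.Agent.H59.W.FinePW
import Pool.Agent.H40.W.FinPV

set_option autoImplicit false
open Finset

/-!
# `FineVP` for arbitrary functionals over the tied natural windows (HV windows)

`ScG` : the hypotheses on the window at the scale `R`. `VOn` : the hypotheses on the functional. `caseO` : the case,
`PO` : the class. `finePO` : the class satisfies `FineVP`. Used for the crossed wall, with a rectangle as window and a
functional which ignores the other three sides.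
-/

namespace Pool.Agent.H15.W

open Pool.Agent.H75.Perc Pool.Agent.H75.TwoArm Pool.Agent.H75.Four Pool.Agent.H69.Q1
open Pool.Agent.Q1 Pool.Agent.H99.NC Pool.Agent.H49.Perc Pool.Agent.H60.Q1
open Pool.Agent.H39.Q1 Pool.Agent.H59.Q1 Pool.Agent.Q1.M6e Pool.Agent.H39.R45
open Pool.Agent.H46.Sp (Win)
open Pool.Agent.H74.Win (InP sh sh_nonneg sh_le OutB natc odd_TB EN fillc mem_EN)
open Pool.Agent.H42.Sp (Sd kt)
open Pool.Agent.H13.Sp
open Pool.Agent.H13.R45 (gp ev_true ev_false Ag OutF)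
open Pool.Agent.H54.Sp (eS dS flatD)
open Pool.Agent.H44.FM.AsmW (TW mem_TW Walls)
open Pool.Agent.H40.Sp (Cht CrW NatS wcrC farX card_GmC GmC TnX LamX LX iLs iFs kS)
open Pool.Agent.H31.Sp
open Pool.Agent.H20.Sp (Ports OutOK)
open Pool.Agent.Q1.M6e.Wn
open Pool.Agent.H59.W (EdgA edgA fww_D end_D)
open Pool.Agent.H40.W (InpV fineVP_of walls_toV)

/-- **A tied natural window at the scale `R`**: cells of side `n`, outside `O`, world `p`, cut `s0` of the
ring, frozen state `S` -/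
structure ScG (η : ℝ) (R : ℕ) {D : Win} (O : OutB D) (n H : ℤ) (A B : ℤ → ℤ) (YP YQ : ℤ)
    (CL CR : ℤ → Bool) (p : Bool) (s0 : ℤ) (S : Finset (ℤ × ℤ)) : Prop where
  co : CoarseC D n H A B YP YQ CL CR
  n1 : η * R ≤ n
  h2 : (D.h : ℝ) ≤ R / η
  w2 : ((D.b D.yQ - D.a (D.yP - 1) : ℤ) : ℝ) ≤ R / η
  out : OutOK O (LW η R)
  cut : colp D (s0 - 1) ≠ colp D s0
  sub : S ⊆ FR D p
  nat : NatS D p S

namespace ScG

variable {η : ℝ} {R : ℕ} {D : Win} {O : OutB D} {n H : ℤ} {A B : ℤ → ℤ} {YP YQ : ℤ}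
  {CL CR : ℤ → Bool} {p : Bool} {s0 : ℤ} {S : Finset (ℤ × ℤ)}
  (h : ScG η R O n H A B YP YQ CL CR p s0 S)
include h

/-- the number of rows of cells -/
lemma H_le (hη : 0 < η) (hR : 1 ≤ R) : (H : ℝ) ≤ 1 / η ^ 2 := by
  have hRr : (0 : ℝ) < R := by exact_mod_cast hR
  have hH : (0 : ℝ) < H := by exact_mod_cast h.co.HH
  have h1 : ((n * H : ℤ) : ℝ) ≤ R / η := by
    rw [← h.co.hh]; exact h.h2
  push_cast at h1
  have h2 : η * R * H ≤ R / η := (mul_le_mul_of_nonneg_right h.n1 hH.le).trans h1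
  rw [le_div_iff₀ hη] at h2
  rw [le_div_iff₀ (by positivity)]
  have h3 : (H * η ^ 2) * (R : ℝ) ≤ 1 * R := by nlinarith
  exact le_of_mul_le_mul_right h3 hRr

/-- the number of cells of a row -/
lemma AB_le (hη : 0 < η) (hR : 1 ≤ R) {Y : ℤ} (h0 : 0 ≤ Y) (h1 : Y < H) :
    ((B Y - A Y : ℤ) : ℝ) ≤ 1 / η ^ 2 := by
  have hRr : (0 : ℝ) < R := by exact_mod_cast hR
  have hn := h.co.toCoarse.pos
  have hAB := h.co.AB Y h0 h1
  have y0 : 0 ≤ n * Y := mul_nonneg hn.le h0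
  have y1 : n * Y < D.h := by
    rw [h.co.hh]; exact mul_lt_mul_of_pos_left h1 hn
  have g1 := (h.co.toCoarse.a_le y0 y1).2
  have g2 := (h.co.toCoarse.le_b y0 y1).1
  rw [Int.mul_ediv_cancel_left _ hn.ne'] at g1 g2
  have g3 := Pool.Agent.H46.Sp.Win.a_min (D := D) y0 y1
  have g4 := Pool.Agent.H46.Sp.Win.b_max (D := D) y0 y1
  have h2 : ((n * (B Y - A Y) : ℤ) : ℝ) ≤ R / η := by
    refine le_trans ?_ h.w2
    exact_mod_cast (by rw [mul_sub]; omega : n * (B Y - A Y) ≤ D.b D.yQ - D.a (D.yP - 1))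
  push_cast at h2 ⊢
  have hp : (0 : ℝ) < (B Y : ℝ) - A Y := by
    have : (A Y : ℝ) < B Y := by exact_mod_cast hAB
    linarith
  have h3 : η * R * ((B Y : ℝ) - A Y) ≤ R / η := (mul_le_mul_of_nonneg_right h.n1 hp.le).trans h2
  rw [le_div_iff₀ hη] at h3
  rw [le_div_iff₀ (by positivity)]
  have h4 : (((B Y : ℝ) - A Y) * η ^ 2) * (R : ℝ) ≤ 1 * R := by nlinarith
  exact le_of_mul_le_mul_right h4 hRr

/-- the number of walls -/
lemma card_le (hη : 0 < η) (hR : 1 ≤ R) :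
    Fintype.card (Kp H A B) ≤ 8 * (⌊1 / η ^ 2⌋₊ * (⌊1 / η ^ 2⌋₊ + 1)) := by
  classical
  have hH : H.toNat ≤ ⌊1 / η ^ 2⌋₊ := by
    refine Nat.le_floor ?_
    have h1 := h.H_le hη hR
    have h2 : ((H.toNat : ℤ) : ℝ) = (H : ℝ) := by
      exact_mod_cast Int.toNat_of_nonneg h.co.HH.le
    have h3 : (H.toNat : ℝ) = ((H.toNat : ℤ) : ℝ) := by push_cast; rfl
    rw [h3, h2]; exact h1
  rw [Fintype.card_coe]
  have hsub : EdF H A B ⊆ (univ : Finset Pool.Agent.H42.Sp.Sd) ×ˢ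
      ((Ico 0 H).biUnion fun Y => Icc (A Y) (B Y) ×ˢ Icc Y (Y + 1)) := by
    unfold EdF
    exact filter_subset _ _
  refine (Finset.card_le_card hsub).trans ?_
  rw [card_product]
  have c4 : (univ : Finset Pool.Agent.H42.Sp.Sd).card = 4 := rfl
  rw [c4]
  have hb : ((Ico 0 H).biUnion fun Y => Icc (A Y) (B Y) ×ˢ Icc Y (Y + 1)).card ≤
      (Ico 0 H).card * (2 * (⌊1 / η ^ 2⌋₊ + 1)) := by
    refine card_biUnion_le_card_mul _ _ _ fun Y hY => ?_
    rw [mem_Ico] at hY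
    rw [card_product, Int.card_Icc, Int.card_Icc, show (Y + 1 + 1 - Y).toNat = 2 by omega]
    have h1 := h.AB_le hη hR hY.1 hY.2
    have h2 : (B Y - A Y).toNat ≤ ⌊1 / η ^ 2⌋₊ := by
      refine Nat.le_floor ?_
      have h3 := h.co.AB Y hY.1 hY.2
      have h4 : (((B Y - A Y).toNat : ℤ) : ℝ) = ((B Y - A Y : ℤ) : ℝ) := by
        exact_mod_cast Int.toNat_of_nonneg (by omega : 0 ≤ B Y - A Y)
      have h5 : ((B Y - A Y).toNat : ℝ) = (((B Y - A Y).toNat : ℤ) : ℝ) := by push_cast; rfl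
      rw [h5, h4]; exact h1
    have h6 : (B Y + 1 - A Y).toNat ≤ ⌊1 / η ^ 2⌋₊ + 1 := by omega
    nlinarith
  rw [Int.card_Ico, sub_zero] at hb
  calc 4 * _ ≤ 4 * (H.toNat * (2 * (⌊1 / η ^ 2⌋₊ + 1))) := Nat.mul_le_mul_left _ hb
    _ ≤ 4 * (⌊1 / η ^ 2⌋₊ * (2 * (⌊1 / η ^ 2⌋₊ + 1))) :=
      Nat.mul_le_mul_left _ (Nat.mul_le_mul_right _ hH)
    _ = 8 * (⌊1 / η ^ 2⌋₊ * (⌊1 / η ^ 2⌋₊ + 1)) := by ring

end ScG

/-- **the functional `V` over the tied natural window**, layers of thickness `m`; `Sg` : labels of the roots and of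
the corners of `V`, they are deep in the window -/
structure VOn (V : Finset (ℤ × ℤ) → Finset (ℤ × ℤ) → ℂ) (Sg : Finset (ℤ × ℤ)) {D : Win} (O : OutB D)
    (n H : ℤ) (A B : ℤ → ℤ) (p : Bool) (s0 L m : ℤ) (S : Finset (ℤ × ℤ)) (hS : S ⊆ FR D p) : Prop where
  tog : VTog V (WA O p S) (LBA D p (m + 1)) (TA D p) (fmA D p s0) (colp D) (WlA D p s0 L S)
    (LaA D p s0 m) (bA D p) (oA D p)
  togX : ∀ g ∈ GmC D n H, VTogX V (WA O p S) (EN D p) (LBA D p (m + 1)) (TA D p) (fmA D p s0) (colp D)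
    (WlA D p s0 L S) (LamX D p s0 n H A B m g) (bA D p)
  loc : VLoc V (XA O p S hS) (WA O p S) (EN D p) (LBA D p (m + 1)) (TA D p) Sg (fmA D p s0) (colp D)
    (WlA D p s0 L S) (LaA D p s0 m) (bA D p) (oA D p)
  deep : ∃ Cs : Finset (ℤ × ℤ), Sg ⊆ Cs.image lab ∧
    ∀ c ∈ Cs, ∀ g, Ag g c → ∀ x y, OnT g x y → Dp D p m x y

/-- **the functional as a case** -/
noncomputable def caseO {D : Win} (O : OutB D) (n H : ℤ) (A B : ℤ → ℤ) (p : Bool) (s0 L m : ℤ)
    (S : Finset (ℤ × ℤ)) (hS : S ⊆ FR D p) (w0 : Kp H A B)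
    (V : Finset (ℤ × ℤ) → Finset (ℤ × ℤ) → ℂ) (Sg : Finset (ℤ × ℤ)) : CaseV where
  ι := ℤ
  κ := Kp H A B
  d := datD O n H A B p s0 L m S hS w0
  V := V
  Sg := Sg

/-- **The class of the functionals over the tied natural windows.** -/
def PO (η : ℝ) (R : ℕ) (x : CaseV) : Prop :=
  ∃ (D : Win) (O : OutB D) (n H : ℤ) (A B : ℤ → ℤ) (YP YQ : ℤ) (CL CR : ℤ → Bool) (p : Bool) (s0 : ℤ)
    (S : Finset (ℤ × ℤ)) (h : ScG η R O n H A B YP YQ CL CR p s0 S) (w0 : Kp H A B)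
    (V : Finset (ℤ × ℤ) → Finset (ℤ × ℤ) → ℂ) (Sg : Finset (ℤ × ℤ)),
    VOn V Sg O n H A B p s0 (LW η R) (mW η R) S h.sub ∧
    x = caseO O n H A B p s0 (LW η R) (mW η R) S h.sub w0 V Sg

variable {D : Win} {n H : ℤ} {A B : ℤ → ℤ} {p : Bool} {s0 L m : ℤ} {YP YQ : ℤ} {CL CR : ℤ → Bool}
  {O : OutB D} {S : Finset (ℤ × ℤ)} {hS : S ⊆ FR D p} {w0 : Kp H A B}
  {V : Finset (ℤ × ℤ) → Finset (ℤ × ℤ) → ℂ} {Sg : Finset (ℤ × ℤ)}

/-- **The inputs for one case.** `m` : thickness of the layers. -/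
theorem inpO (hC : CoarseC D n H A B YP YQ CL CR) (hcut : colp D (s0 - 1) ≠ colp D s0)
    (hNat : NatS D p S) (hm : 256 ≤ m) (hmn : 16 * m ≤ n) (hL : 2 * m ≤ L) (hO : OutOK O L)
    (hV : VOn V Sg O n H A B p s0 L m S hS)
    {θ Q C : ℝ} {ν R : ℕ}
    (hθ : 32 * θ * R ≤ m) (hQ : (n : ℝ) ≤ Q / 16 * m) (hnC : (n : ℝ) ≤ C * R)
    (hν : Fintype.card (Kp H A B) ≤ ν) (hH : 2 * (H + 1) ≤ ν) :
    Nonempty (InpV θ Q (θ / 4) C ν 8 R (caseO O n H A B p s0 L m S hS w0 V Sg)) := by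
  have hB : ArcB D n H A B p s0 := arcB hC hcut
  have hE : EdgA D n H A B p s0 := edgA hB hC.toCoarse
  have hq := fun w => hqD (p := p) hC.toCoarse (show 16 ≤ n by omega) w
  have hlayer : LBA D p (m + 1) ⊆ EN D p := by
    intro e he
    obtain ⟨x, y, rfl⟩ := Pool.Agent.H74.R45.exists_lt (odd_TB he)
    exact mem_EN.2 (mem_LBA.1 he).1
  have hm' : (256 : ℝ) ≤ m := by exact_mod_cast hm
  obtain ⟨Cs, hSg, hdeep⟩ := hV.deep
  have hmul : Multi (XA O p S hS) (WA O p S) (EN D p) (LBA D p (m + 1)) (TA D p) (fmA D p s0) (colp D)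
      (WlA D p s0 L S) (LaA D p s0 m) (bA D p) (oA D p) :=
    multiA hS (by omega) hO.free (by omega) (Subset.refl _) hlayer
  have h1D : (m : ℝ) ≤ 16 * ((m / 16 : ℤ) : ℝ) + 16 := by
    have : m ≤ 16 * (m / 16) + 16 := by omega
    exact_mod_cast this
  have h2D : (16 : ℝ) ≤ ((m / 16 : ℤ) : ℝ) := by
    have : 16 ≤ m / 16 := by omega
    exact_mod_cast this
  have hQ0 : 0 ≤ Q := by
    have h4 : (0 : ℝ) < n := by exact_mod_cast (show 0 < n by omega)
    by_contra hc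
    push Not at hc
    nlinarith
  have hcr := wcrC (O := O) (p := p) (S := S) (h := m) (Dd := m / 16) (Q := Q) hC hcut hS hNat
    (show 5 ≤ L by omega) (by omega) (by omega) (by omega) (by nlinarith) w0
  refine ⟨
    { γ := Bool × ℤ
      dγ := inferInstance
      Γ := GmC D n H
      h := m
      Tn := TnX D p s0 n H A B m
      Λ := LamX D p s0 n H A B m
      L := LX D p n H A B m
      iL := iLs D p s0 n H A B
      iF := iFs D p s0 n H A B
      χ := kS D p n H A B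
      Um := fun _ => 2 * (2 * m + 2)
      Vm := fun _ => 2 * (2 * m + 2)
      Dm := fun _ => 2 * (2 * m + 2)
      x0 := x0D D n H A B p s0
      N := ND D n H A B p s0
      D := m / 16
      ne := ⟨w0⟩
      card := hν
      cardΓ := ?_
      mul := hmul
      wcr := hcr
      tog := hV.tog
      togΛ := hV.togX
      loc := hV.loc
      rk := ?_
      len := ?_
      flt := ?_ }⟩
  · have := card_GmC (D := D) (n := n) (H := H) hC.HH.le
    exact_mod_cast this.trans hH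
  · exact rk_inj_mk (fun w => fww_D hE hq w0 w m) (hE.hfw w0)
  · nlinarith
  · intro R' h1 h2
    have h3 : 128 * R' ≤ m := by
      have : (128 : ℝ) * R' ≤ m := by nlinarith
      exact_mod_cast this
    have h8 : 8 ≤ R' := by exact_mod_cast h1
    refine ⟨FlD D n H A B p w0 (2 * R' + 9), ?_, ?_, ?_⟩
    · exact walls_toV hSg (walls_mk (fun w => fww_D hE hq w0 w m) (hE.hfw w0) (hsubD w0 _)
        (hlocD hB hC.toCoarse w0 (by omega) (by omega))
        (fun w e he => flatD hC hcut (by omega) (by omega) hS (by omega) (by omega) hO.port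
          (by omega) he)
        (fun w e he => by
          have h4 := hE.hfw w0 e (mem_TW.1 (hsubD w0 _ w he)).1
          rw [(mem_TW.1 (hsubD w0 _ w he)).2] at h4
          have h5 := Pool.Agent.H46.Sp.CG.root_A (O := O) (L := L) (R := R') (s0 := s0) hO.root
            (by omega) (mem_TW.1 (hsubD w0 _ w he)).1
          rwa [h4] at h5)
        (fun w e he c hc => by
          have h4 := hE.hfw w0 e (mem_TW.1 (hsubD w0 _ w he)).1
          rw [(mem_TW.1 (hsubD w0 _ w he)).2] at h4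
          have h5 := Pool.Agent.H46.Sp.CG.cs_A (c := c) (m := m) (R := R') (s0 := s0)
            (hdeep c hc) (by omega) (mem_TW.1 (hsubD w0 _ w he)).1
          rwa [h4] at h5))
    · intro w
      exact (cardD hB hC.toCoarse w0 (by omega) w).trans hnC
    · intro w e he hn
      exact end_D hE hq w0 w (r := 2 * R' + 9) (ρ := 2 * R') (by omega) he hn

/-- **The class of the functionals over the tied natural windows satisfies `FineVP`.** -/
theorem finePO : FineVP PO := by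
  refine fineVP_of fun η hη => ?_
  set k : ℕ := ⌊1 / η ^ 2⌋₊ with hk
  refine ⟨η / 4096, 2048 / η ^ 2, η / 16384, 1 / η, 8 * (k * (k + 1)) + 2 * (k + 1),
    max 8 ⌈16384 / η⌉₊, by positivity, by positivity, ?_⟩
  rintro R hR x ⟨D, O, n, H, A, B, YP, YQ, CL, CR, p, s0, S, h, w0, V, Sg, hV, rfl⟩
  have hR8 : 8 ≤ R := (le_max_left _ _).trans hR
  have hR1 : 16384 / η ≤ R := (Nat.le_ceil _).trans (by exact_mod_cast (le_max_right _ _).trans hR)
  have hRη : 16384 ≤ η * R := by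
    rw [div_le_iff₀ hη] at hR1
    linarith
  have hR0 : 1 ≤ R := by omega
  have hRr : (0 : ℝ) < R := by exact_mod_cast hR0
  have hm : 256 ≤ mW η R := le_mW (by push_cast; linarith)
  have hmr : η * R / 128 ≤ (mW η R : ℝ) := by
    have h1 := Int.lt_floor_add_one (η * R / 64)
    have h2 : (mW η R : ℝ) = (⌊η * (R : ℝ) / 64⌋ : ℝ) := rfl
    rw [h2]
    linarith
  have hmu : (mW η R : ℝ) ≤ η * R / 64 := mW_le
  have hL : 2 * mW η R ≤ LW η R := le_LW (by push_cast; linarith)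
  have hmn : 64 * mW η R ≤ n := by
    have h1 : (mW η R : ℝ) ≤ η * R / 64 := Int.floor_le _
    have h2 : ((64 * mW η R : ℤ) : ℝ) ≤ (n : ℝ) := by
      push_cast
      linarith [h.n1]
    exact_mod_cast h2
  have hH := h.H_le hη hR0
  have hHk : H ≤ k := by
    have h1 : H.toNat ≤ k := by
      refine Nat.le_floor ?_
      have h3 : (H.toNat : ℝ) = ((H.toNat : ℤ) : ℝ) := by push_cast; rfl
      rw [h3, Int.toNat_of_nonneg h.co.HH.le]
      exact hH
    omega
  have hnR : (n : ℝ) ≤ R / η := by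
    refine le_trans ?_ h.h2
    rw [h.co.hh]
    have hn := h.co.toCoarse.pos
    have hH1 := h.co.HH
    exact_mod_cast (by nlinarith : n ≤ n * H)
  obtain ⟨I⟩ := inpO (O := O) (hS := h.sub) (w0 := w0) (θ := η / 4096) (Q := 2048 / η ^ 2) (C := 1 / η)
    (ν := 8 * (k * (k + 1)) + 2 * (k + 1)) (R := R) h.co h.cut h.nat hm (by omega) hL h.out hV
    (by linarith) (by
      refine hnR.trans ?_
      have h1 : 2048 / η ^ 2 / 16 * (η * R / 128) ≤ 2048 / η ^ 2 / 16 * (mW η R : ℝ) :=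
        mul_le_mul_of_nonneg_left hmr (by positivity)
      refine le_trans (le_of_eq ?_) h1
      field_simp
      norm_num) (by
      refine hnR.trans (le_of_eq ?_)
      ring) ((h.card_le hη hR0).trans (Nat.le_add_right _ _)) (by
      push_cast
      have : (0 : ℤ) ≤ 8 * (k * (k + 1)) := by positivity
      linarith)
  exact ⟨
    { I with
      flt := fun R' h1 h2 => I.flt R' (by omega) (by linarith) }⟩

end Pool.Agent.H15.W
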