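import Mathlib
import Pool.Agent.H42.W.Loc

set_option autoImplicit false
open Finset

/-! # Reference walls and true walls

`W` : the open labels of the reference environment, `Wt` : those of the true one. The functional `F` has the toggles
of the true world (`Tog X.E Wt M F`). `TruO`, `TruC` : near the layers of a family `W` and `Wt` differ only at labels
where a class of the family which touches them is joined to its own wall in the true world. Then `VF F` has the
fields `VTog`, `VTogX`, `VLoc` of the reference environment.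
-/

namespace Pool.Agent.H15.W

open Pool.Agent.H75.Perc Pool.Agent.H75.TwoArm Pool.Agent.H75.Four Pool.Agent.H69.Q1
open Pool.Agent.Q1 Pool.Agent.H25.Q1.Add Pool.Agent.H99.NC Pool.Agent.H49.Perc
open Pool.Agent.H60.Q1 Pool.Agent.H39.Q1
open Pool.Agent.H20.Q1 (Eh CS hf near_iff far_iff BR_ends BR_of_ends)
open Pool.Agent.H42.W

section one

variable {X : Env} {W Wt M Λ Ti W1 K1 Go G τ : Finset (ℤ × ℤ)} {tv tu tb te : ℤ × ℤ → ℤ × ℤ}
  {F : Finset (ℤ × ℤ) → ℂ} {e : ℤ × ℤ}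

/-- **reference and truth near the layer `Λ` of an open family** with the ties `T` and the wall `W1` -/
structure TruO (W Wt M Λ T W1 : Finset (ℤ × ℤ)) (b o : ℤ × ℤ → ℤ × ℤ) : Prop where
  w1 : W1 ⊆ Wt
  la : ∀ l ∈ Λ, l ∈ W → l ∈ Wt
  jn : ∀ x y, IsUnit4 (y - x) → x + y ∈ Wt → x + y ∉ W → VO Λ T b x → ∀ e ∈ T, Co (Wt ∩ M) (o e) x

/-- the same for a closed family -/
structure TruC (E W Wt M Λ T K1 : Finset (ℤ × ℤ)) (b o : ℤ × ℤ → ℤ × ℤ) : Prop where
  w1 : Disjoint K1 Wt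
  la : ∀ l ∈ Λ, l ∈ Wt → l ∈ W
  jn : ∀ x y, IsUnit4 (y - x) → x + y - (1, 1) ∈ W → x + y - (1, 1) ∉ Wt → VC Λ T b x →
    ∀ e ∈ T, Co (du (M \ E) Wt) (o e) x

/-- one toggle of an open tie. `Go` : the open random labels other than the ties of this colour. -/
theorem F_tie_open_T (hF : Tog X.E Wt M F) (hM : MskO M Λ Ti W1 tv) (hd : Disjoint X.E Wt)
    (hR : TruO W Wt M Λ Ti W1 tv tu)
    (hT : TiesO X W Ti W1 tv tu) (hGo : Go ⊆ X.E \ Ti) (hτ : τ ⊆ Ti)
    (he : e ∈ Ti) (heτ : e ∉ τ)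
    (hcase : FreeO (Go ∪ (W \ W1)) W1 Λ tv tu e ∨
      ∃ e' ∈ τ, Co ((Go ∪ (W \ W1)) ∩ Λ) (tv e) (tv e')) :
    F (Go ∪ τ) = F (Go ∪ insert e τ) := by
  classical
  set G := Go ∪ (W \ W1) with hG
  have hω : Go ∪ τ ⊆ X.E := union_subset (hGo.trans sdiff_subset) (hτ.trans hT.sub)
  have heW0 : e ∉ Wt := fun h => disjoint_left.1 hd (hT.sub he) h
  have heGo : e ∉ Go ∪ τ := by
    rw [mem_union, not_or]
    exact ⟨fun h => (mem_sdiff.1 (hGo h)).2 he, heτ⟩
  rw [union_insert]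
  have heM : e ∈ M := hM.sub (mem_union_left _ (mem_union_right _ he))
  have hu := hT.unit e he
  have hue := hT.ends e he
  have m1 : G ∩ Λ ⊆ (Go ∪ τ ∪ Wt) ∩ M := by
    intro l hl
    rw [mem_inter] at hl
    refine mem_inter.2 ⟨?_, hM.sub (mem_union_left _ (mem_union_left _ hl.2))⟩
    rcases mem_union.1 hl.1 with h | h
    · exact mem_union_left _ (mem_union_left _ h)
    · exact mem_union_right _ (hR.la l hl.2 (mem_sdiff.1 h).1)
  have m2 : W1 ⊆ (Go ∪ τ ∪ Wt) ∩ M := by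
    intro l hl
    exact mem_inter.2 ⟨mem_union_right _ (hR.w1 hl), hM.sub (mem_union_right _ hl)⟩
  have m3 : Wt ∩ M ⊆ (Go ∪ τ ∪ Wt) ∩ M := inter_subset_inter_right subset_union_right
  have hjoin : ∀ e' ∈ τ, Co (G ∩ Λ) (tv e) (tv e') →
      Co ((Go ∪ τ ∪ Wt) ∩ M) (tu e) (tv e) := by
    intro e' he' h1
    have h3 : Co ((Go ∪ τ ∪ Wt) ∩ M) (tu e') (tv e') := by
      refine Relation.ReflTransGen.single ⟨hT.unit e' (hτ he'), ?_⟩
      rw [hT.ends e' (hτ he')]
      exact mem_inter.2 ⟨mem_union_left _ (mem_union_right _ he'),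
        hM.sub (mem_union_left _ (mem_union_right _ (hτ he')))⟩
    exact (((hT.conn e he e' (hτ he')).mono m2).trans h3).trans (h1.mono m1).symm
  by_cases hA : Co ((Go ∪ τ ∪ Wt) ∩ M) (tu e) (tv e)
  · exact hF.A _ hω e (hT.sub he) heM heW0 heGo _ _ hu hue hA
  · have hsmall : SmallO G Λ (tv e) := by
      rcases hcase with (h | h) | ⟨e', h1, h2⟩
      · exact h
      · exact absurd (h.mono (union_subset m1 m2)) hA
      · exact absurd (hjoin e' h1 h2) hA
    have hfull : ∀ x, Co ((Go ∪ τ ∪ Wt) ∩ M) (tv e) x → Co (G ∩ Λ) (tv e) x := by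
      intro x hx
      induction hx with
      | refl => exact Co.refl _ _
      | @tail a b _ hab ih =>
        have hl := (mem_inter.1 hab.2).1
        have hgo : a + b ∈ G → Co (G ∩ Λ) (tv e) b := fun hl =>
          ih.tail ⟨hab.1, mem_inter.2 ⟨hl, hsmall a b ih hab.1 hl⟩⟩
        rcases mem_union.1 hl with hl | hl
        · rcases mem_union.1 hl with hl | hl
          · exact hgo (mem_union_left _ hl)
          · exfalso
            have h5 := hT.unit _ (hτ hl)
            have h6 := hT.ends _ (hτ hl)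
            rcases end_cases h5 h6 hab.1 rfl with ⟨h7, -⟩ | ⟨h7, -⟩
            · apply hA
              have h8 := (hT.conn e he _ (hτ hl)).mono m2
              rw [← h7] at h8
              exact h8.trans (ih.mono m1).symm
            · apply hA
              exact hjoin _ hl (by rw [← h7]; exact ih)
        · by_cases h1 : a + b ∈ W1
          · exfalso
            apply hA
            exact ((hT.conn' a b hab.1 h1 e he).mono m2).trans (ih.mono m1).symm
          by_cases h2 : a + b ∈ W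
          · exact hgo (mem_union_right _ (mem_sdiff.2 ⟨h2, h1⟩))
          · exfalso
            apply hA
            exact ((hR.jn a b hab.1 hl h2 (VO_of_co (G := G) he ih) e he).mono m3).trans
              (ih.mono m1).symm
    refine hF.B hω (hT.sub he) heM heW0 heGo hu hue (fun h => ?_) fun x y h3 h4 => ?_
    · exact hA ((hfull _ h.symm).mono m1).symm
    · exact hM.adj x y h4 (VO_of_co (G := G) he (hfull x h3))

/-- one toggle of a closed tie. `Go` : the open random labels other than the ties of this colour;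
`τ` : closed ties. -/
theorem F_tie_closed_T (hF : Tog X.E Wt M F) (hM : MskC M Λ Ti K1 tb) (hd : Disjoint X.E Wt)
    (hR : TruC X.E W Wt M Λ Ti K1 tb te)
    (hT : TiesC X W Ti K1 tb te) (hGo : Go ⊆ X.E \ Ti) (hΛ : Disjoint Λ Ti)
    (hτ : τ ⊆ Ti) (he : e ∈ Ti) (heτ : e ∉ τ)
    (hcase : FreeC (Go ∪ W) Ti K1 Λ tb te e ∨
      ∃ e' ∈ τ, Co (du Λ (Go ∪ W)) (tb e) (tb e')) :
    F (Go ∪ (Ti \ τ)) = F (Go ∪ (Ti \ insert e τ)) := by
  classical
  set G := Go ∪ W with hG
  set ω := Go ∪ (Ti \ insert e τ) with hωdef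
  have hω : ω ⊆ X.E := union_subset (hGo.trans sdiff_subset) (sdiff_subset.trans hT.sub)
  have hins : Go ∪ (Ti \ τ) = insert e ω := by
    rw [hωdef]
    ext l
    simp only [mem_union, mem_sdiff, mem_insert]
    by_cases h : l = e
    · subst h; tauto
    · tauto
  have heW0 : e ∉ Wt := fun h => disjoint_left.1 hd (hT.sub he) h
  have heω : e ∉ ω := by
    rw [hωdef, mem_union, not_or]
    refine ⟨fun h => (mem_sdiff.1 (hGo h)).2 he, fun h => ?_⟩
    exact (mem_sdiff.1 h).2 (mem_insert_self _ _)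
  rw [hins]
  symm
  have heM : e ∈ M := hM.sub (mem_union_left _ (mem_union_right _ he))
  have hu := hT.unit e he
  have hue := hT.ends e he
  have hK1 : ∀ l ∈ K1, l ∉ Ti ∧ l ∉ ω ∪ Wt := by
    intro l hl
    have h1 : l ∉ X.E := fun h => disjoint_left.1 hT.kE hl h
    refine ⟨fun h => h1 (hT.sub h), fun h => ?_⟩
    rcases mem_union.1 h with h | h
    · exact h1 (hω h)
    · exact disjoint_left.1 hR.w1 hl h
  have m1 : du Λ G ⊆ du (M.erase e) (ω ∪ Wt) := by
    refine du_mono fun l h1 h2 => ?_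
    have h3 : l ∉ Ti := fun h => disjoint_left.1 hΛ h1 h
    refine ⟨mem_erase.2 ⟨fun h => h3 (h ▸ he), hM.sub (mem_union_left _
      (mem_union_left _ h1))⟩, fun h => ?_⟩
    rcases mem_union.1 h with h | h
    · rcases mem_union.1 h with h | h
      · exact h2 (mem_union_left _ h)
      · exact h3 (mem_sdiff.1 h).1
    · exact h2 (mem_union_right _ (hR.la l h1 h))
  have m3 : du (M \ X.E) Wt ⊆ du (M.erase e) (ω ∪ Wt) := by
    refine du_mono fun l h1 h2 => ?_
    obtain ⟨h3, h4⟩ := mem_sdiff.1 h1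
    refine ⟨mem_erase.2 ⟨fun h => h4 (h ▸ hT.sub he), h3⟩, fun h => ?_⟩
    rcases mem_union.1 h with h | h
    · exact h4 (hω h)
    · exact h2 h
  have m2 : du K1 ∅ ⊆ du (M.erase e) (ω ∪ Wt) := by
    refine du_mono fun l h1 _ => ?_
    obtain ⟨h2, h3⟩ := hK1 l h1
    exact ⟨mem_erase.2 ⟨fun h => h2 (h ▸ he), hM.sub (mem_union_right _ h1)⟩, h3⟩
  have hjoin : ∀ e' ∈ τ, Co (du Λ G) (tb e) (tb e') →
      Co (du (M.erase e) (ω ∪ Wt)) (te e) (tb e) := by
    intro e' he' h1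
    have h3 : Co (du (M.erase e) (ω ∪ Wt)) (te e') (tb e') := by
      refine Relation.ReflTransGen.single ⟨hT.unit e' (hτ he'), ?_⟩
      have h4 : te e' + tb e' - (1, 1) = e' := face_sub (hT.ends e' (hτ he'))
      refine mem_du_of ?_ ?_
      · rw [h4]
        exact mem_erase.2 ⟨fun h => heτ (h ▸ he'), hM.sub (mem_union_left _
          (mem_union_right _ (hτ he')))⟩
      · rw [h4, mem_union, hωdef, mem_union, not_or, not_or]
        refine ⟨⟨fun h => (mem_sdiff.1 (hGo h)).2 (hτ he'), fun h => ?_⟩,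
          fun h => disjoint_left.1 hd (hT.sub (hτ he')) h⟩
        exact (mem_sdiff.1 h).2 (mem_insert_of_mem he')
    exact (((hT.conn e he e' (hτ he')).mono m2).trans h3).trans (h1.mono m1).symm
  by_cases hA : Co (du (M.erase e) (ω ∪ Wt)) (te e) (tb e)
  · exact hF.C _ hω e (hT.sub he) heM heW0 heω _ _ hu hue hA
  · have hsmall : SmallC G Λ (Ti ∪ K1) (tb e) := by
      rcases hcase with (h | h) | ⟨e', h1, h2⟩
      · exact h
      · exact absurd (h.mono (union_subset m1 m2)) hA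
      · exact absurd (hjoin e' h1 h2) hA
    have hfull : ∀ x, Co (du (M.erase e) (ω ∪ Wt)) (tb e) x → Co (du Λ G) (tb e) x := by
      intro x hx
      induction hx with
      | refl => exact Co.refl _ _
      | @tail a b _ hab ih =>
        obtain ⟨hl1, hl⟩ := of_mem_du hab.2
        have hle : a + b - (1, 1) ≠ e := (mem_erase.1 hl1).1
        have hW0 : a + b - (1, 1) ∉ W := fun h => hA
          (((hR.jn a b hab.1 h (fun h' => hl (mem_union_right _ h')) (VC_of_co (G := G) he ih) e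
            he).mono m3).trans (ih.mono m1).symm)
        by_cases h1 : a + b - (1, 1) ∈ Λ
        · refine ih.tail ⟨hab.1, mem_du_of h1 fun h => ?_⟩
          rcases mem_union.1 h with h | h
          · exact hl (mem_union_left _ (mem_union_left _ h))
          · exact hW0 h
        · exfalso
          by_cases h2 : a + b - (1, 1) ∈ Ti
          · have h3 : a + b - (1, 1) ∈ τ := by
              by_contra h3
              apply hl
              refine mem_union_left _ (mem_union_right _ (mem_sdiff.2 ⟨h2, ?_⟩))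
              rw [mem_insert, not_or]; exact ⟨hle, h3⟩
            rcases side_cases (hT.unit _ h2) (hT.ends _ h2) hab.1 (face_add rfl) with
              ⟨h5, -⟩ | ⟨h5, -⟩
            · apply hA
              have h6 := (hT.conn e he _ h2).mono m2
              rw [← h5] at h6
              exact h6.trans (ih.mono m1).symm
            · apply hA
              exact hjoin _ h3 (by rw [← h5]; exact ih)
          · by_cases h3 : a + b - (1, 1) ∈ K1
            · apply hA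
              exact ((hT.conn' a b hab.1 h3 e he).mono m2).trans (ih.mono m1).symm
            · apply h1
              refine hsmall a b ih hab.1 fun h4 => ?_
              rcases mem_union.1 h4 with h4 | h4
              · rcases mem_union.1 h4 with h4 | h4
                · exact hl (mem_union_left _ (mem_union_left _ h4))
                · exact hW0 h4
              · rcases mem_union.1 h4 with h4 | h4
                · exact h2 h4
                · exact h3 h4
    refine hF.D hω (hT.sub he) heM heW0 heω (φ := tb e) (ψ := te e) (usym hu)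
      (by rw [add_comm]; exact hue) (fun h => ?_) fun x y h3 h4 => ?_
    · exact hA ((hfull _ h).mono m1).symm
    · exact hM.adj x y h4 (VC_of_co (G := G) he (hfull x h3))

end one

section fields

variable {ι : Type*} [DecidableEq ι] {X : Env} {W Wt Bb B TT Sg ω ω' θ P : Finset (ℤ × ℤ)}
  {fm : ℤ × ℤ → ι} {co : ι → Bool} {Wl La Λ M : ι → Finset (ℤ × ℤ)}
  {b o : ℤ × ℤ → ℤ × ℤ} {e x w t : ℤ × ℤ} {i : ι} {m ρ r R : ℤ} {F : Finset (ℤ × ℤ) → ℂ}

/-- **One family in the reference and in the true world.** `Λ i` : its layer. -/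
structure TrF (X : Env) (W Wt TT : Finset (ℤ × ℤ)) (fm : ℤ × ℤ → ι) (co : ι → Bool)
    (Wl Λ M : ι → Finset (ℤ × ℤ)) (b o : ℤ × ℤ → ℤ × ℤ) (F : Finset (ℤ × ℤ) → ℂ) (i : ι) : Prop where
  tog : Tog X.E Wt (M i) F
  mO : co i = true → MskO (M i) (Λ i) (TF TT fm i) (Wl i) b
  mC : co i = false → MskC (M i) (Λ i) (TF TT fm i) (Wl i) b
  tO : co i = true → TruO W Wt (M i) (Λ i) (TF TT fm i) (Wl i) b o
  tC : co i = false → TruC X.E W Wt (M i) (Λ i) (TF TT fm i) (Wl i) b o

/-- the common part of `VTog` and `VTogX` -/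
lemma vf_toggle_T (h : Multi X W Bb B TT fm co Wl La b o) (hd : Disjoint X.E Wt)
    (hF : TrF X W Wt TT fm co Wl Λ M b o F i)
    (hΛ : co i = false → Disjoint (Λ i) (TF TT fm i)) (hω : ω ⊆ B) (he : e ∈ TT)
    (hei : fm e = i) (heP : e ∉ P)
    (hcase : ∀ ω' ⊆ Bb \ B,
      (co i = true →
        (FreeO (ω ∪ (ω' ∪ (opn TT fm co P \ TF TT fm i)) ∪ (W \ Wl i)) (Wl i) (Λ i) b o e ∨
        ∃ e' ∈ P ∩ TF TT fm i, Co ((ω ∪ (ω' ∪ (opn TT fm co P \ TF TT fm i)) ∪ (W \ Wl i)) ∩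
          Λ i) (b e) (b e'))) ∧
      (co i = false →
        (FreeC (ω ∪ (ω' ∪ (opn TT fm co P \ TF TT fm i)) ∪ W) (TF TT fm i) (Wl i) (Λ i) b o e ∨
        ∃ e' ∈ P ∩ TF TT fm i, Co (du (Λ i) (ω ∪ (ω' ∪ (opn TT fm co P \ TF TT fm i)) ∪ W))
          (b e) (b e')))) :
    VF F Bb B TT fm co ω P = VF F Bb B TT fm co ω (insert e P) := by
  classical
  unfold VF
  refine Ec_congr fun ω' hω' => ?_
  set T := TF TT fm i with hT
  have heT : e ∈ T := mem_TF.2 ⟨he, hei⟩
  set θ := ω' ∪ (opn TT fm co P \ T) with hθ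
  have hω'B : ω' ⊆ Bb := hω'.trans sdiff_subset
  have hopT : opn TT fm co P \ T ⊆ TT \ T := fun l hl => by
    obtain ⟨h1, h2⟩ := mem_sdiff.1 hl
    exact mem_sdiff.2 ⟨(mem_opn.1 h1).1, h2⟩
  have hθ1 : θ ⊆ Bb ∪ (TT \ T) := union_subset_union hω'B hopT
  have hGo : ω ∪ θ ⊆ X.E \ T := by
    intro l hl
    rw [mem_sdiff]
    rcases mem_union.1 hl with h1 | h1
    · refine ⟨h.bE (h.bB (hω h1)), fun h2 => ?_⟩
      exact disjoint_left.1 h.bT (h.bB (hω h1)) (mem_TF.1 h2).1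
    · rcases mem_union.1 (hθ1 h1) with h3 | h3
      · exact ⟨h.bE h3, fun h2 => disjoint_left.1 h.bT h3 (mem_TF.1 h2).1⟩
      · exact ⟨h.tE (mem_sdiff.1 h3).1, (mem_sdiff.1 h3).2⟩
  have hPT : P ∩ T ⊆ T := inter_subset_right
  have hePT : e ∉ P ∩ T := fun h1 => heP (mem_inter.1 h1).1
  obtain ⟨hcO, hcC⟩ := hcase ω' hω'
  rcases hco : co i with _ | _
  · have key := F_tie_closed_T hF.tog (hF.mC hco) hd (hF.tC hco) (h.tC i hco) hGo (hΛ hco) hPT heT hePT (hcC hco)
    rw [opn_C1 (P := P) hco, opn_C2 (P := P) hco heT]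
    exact key
  · have key := F_tie_open_T hF.tog (hF.mO hco) hd (hF.tO hco) (h.tO i hco) hGo hPT heT hePT (hcO hco)
    rw [opn_O1 (P := P) hco, opn_O2 (P := P) hco heT]
    exact key

/-- **Field `VTog`.** -/
theorem vtog_T (h : Multi X W Bb B TT fm co Wl La b o) (hd : Disjoint X.E Wt)
    (hF : ∀ e ∈ TT, TrF X W Wt TT fm co Wl La M b o F (fm e)) : VTog (VF F Bb B TT fm co) W B TT fm co Wl La b o := by
  classical
  intro ω hω P hP e he heP hcase
  refine vf_toggle_T (Λ := La) h hd (hF e he) (fun hco => ?_) hω he rfl heP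
    fun ω' hω' => ?_
  · exact disjoint_left.2 fun l h1 h2 => disjoint_left.1 h.la_T h1 (mem_TF.1 h2).1
  set i := fm e with hi
  set T := TF TT fm i with hT
  set θ := ω' ∪ (opn TT fm co P \ T) with hθ
  have hopT : opn TT fm co P \ T ⊆ TT \ T := fun l hl => by
    obtain ⟨h1, h2⟩ := mem_sdiff.1 hl
    exact mem_sdiff.2 ⟨(mem_opn.1 h1).1, h2⟩
  have hθ1 : θ ⊆ Bb ∪ (TT \ T) := union_subset_union (hω'.trans sdiff_subset) hopT
  have hθB : Disjoint θ B := by
    rw [hθ, disjoint_union_left]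
    refine ⟨disjoint_left.2 fun l h1 h2 => (mem_sdiff.1 (hω' h1)).2 h2,
      disjoint_left.2 fun l h1 h2 => ?_⟩
    exact disjoint_left.1 h.bT (h.bB h2) (mem_sdiff.1 (hopT h1)).1
  refine ⟨fun hco => ?_, fun hco => ?_⟩
  · rcases hcase with h1 | ⟨e', h1, h2⟩
    · left; exact h.freO hθ1 hθB he hco h1
    · right
      obtain ⟨⟨h3, h4⟩, h5⟩ := mem_cls.1 h2
      refine ⟨e', mem_inter.2 ⟨h1, mem_TF.2 ⟨h3, h4⟩⟩, ?_⟩
      rw [h.capO hθB]
      unfold gr at h5
      rw [← hi, if_pos hco] at h5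
      exact h5
  · rcases hcase with h1 | ⟨e', h1, h2⟩
    · left; exact h.freC hθB hco h1
    · right
      obtain ⟨⟨h3, h4⟩, h5⟩ := mem_cls.1 h2
      refine ⟨e', mem_inter.2 ⟨h1, mem_TF.2 ⟨h3, h4⟩⟩, ?_⟩
      rw [h.duC hθB]
      unfold gr at h5
      rw [← hi, if_neg (by rw [hco]; exact Bool.false_ne_true)] at h5
      exact h5

/-- **Field `VTogX`.** -/
theorem vtogX_T (h : Multi X W Bb B TT fm co Wl La b o) (hd : Disjoint X.E Wt)
    (hF : ∀ e ∈ TT, TrF X W Wt TT fm co Wl Λ M b o F (fm e)) : VTogX (VF F Bb B TT fm co) W Bb B TT fm co Wl Λ b := by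
  classical
  intro i hΛ ω hω P hP e he hei heP hcase
  refine vf_toggle_T (Λ := Λ) (o := o) h hd (hei ▸ hF e he) hΛ hω he hei heP
    fun ω' hω' => ?_
  have hcs' := hcase ω' hω'
  set T := TF TT fm i with hT
  set θ := ω' ∪ (opn TT fm co P \ T) with hθ
  refine ⟨fun hco => ?_, fun hco => ?_⟩
  · have eG : GS W TT fm co Wl i P ω ω' = ω ∪ θ ∪ (W \ Wl i) := by
      unfold GS; rw [hco, if_pos rfl]
    rcases hcs' with h1 | ⟨e', h1, h2, h3, h4⟩
    · left; left
      intro x y h5 h6 h7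
      unfold Conf at h1
      rw [hco, eG] at h1
      refine h1 x y ?_ h6 ?_
      · unfold HS; rw [if_pos rfl]; exact h5
      · rw [if_pos rfl]; exact h7
    · right
      refine ⟨e', mem_inter.2 ⟨h1, mem_TF.2 ⟨h3, h2⟩⟩, ?_⟩
      rw [hco, eG] at h4
      unfold HS at h4; rw [if_pos rfl] at h4
      exact h4
  · have hne : ¬ (false = true) := Bool.false_ne_true
    have eG : GS W TT fm co Wl i P ω ω' = ω ∪ θ ∪ W := by
      unfold GS; rw [hco, if_neg hne]
    rcases hcs' with h1 | ⟨e', h1, h2, h3, h4⟩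
    · left; left
      intro x y h5 h6 h7
      unfold Conf at h1
      rw [hco, eG] at h1
      refine h1 x y ?_ h6 ?_
      · unfold HS; rw [if_neg hne]; exact h5
      · rw [if_neg hne]; exact h7
    · right
      refine ⟨e', mem_inter.2 ⟨h1, mem_TF.2 ⟨h3, h2⟩⟩, ?_⟩
      rw [hco, eG] at h4
      unfold HS at h4; rw [if_neg hne] at h4
      exact h4

lemma clO_cap {G G' Λ' Ti : Finset (ℤ × ℤ)} {tv : ℤ × ℤ → ℤ × ℤ} (h : G ∩ Λ' = G' ∩ Λ') :
    clO G Λ' Ti tv e = clO G' Λ' Ti tv e := by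
  unfold clO
  rw [h]

lemma clC_cap {G G' Λ' Ti : Finset (ℤ × ℤ)} {tv : ℤ × ℤ → ℤ × ℤ} (h : du Λ' G = du Λ' G') :
    clC G Λ' Ti tv e = clC G' Λ' Ti tv e := by
  unfold clC
  rw [h]

/-- open ties -/
theorem locFO_T (h : Multi X W Bb B TT fm co Wl La b o) (hd0 : Disjoint X.E Wt)
    (hF : TrF X W Wt TT fm co Wl La M b o F (fm e)) (hi : co (fm e) = true)
    (hbx : Wt ∩ BR w R = W ∩ BR w R)
    (hG : WallO X W Bb TT (TF TT fm (fm e)) (Wl (fm e)) (La (fm e)) b o e w m R)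
    (hmρ : m < ρ) (hρr : ρ < r) (hrR : r ≤ R) (he : e ∈ TT) (hω : ω ⊆ B)
    (hx : Gx w ρ r (gr co La (fm e) ω ∩ (BR w r \ BR w ρ)) t)
    (ht : Co (gr co La (fm e) ω) (b e) t)
    (hcn : ∀ v, WV (TF TT fm (fm e)) b v → Co (gr co La (fm e) ω) (b e) v → inR w m v)
    (hnt : ¬ Tch (gr co La (fm e) ω) (Wl (fm e)) (b e)) :
    DV (VF F Bb B TT fm co) TT fm co La b e ω =
      psiFO F Bb B TT fm co (fm e) ((La (fm e) ∪ TF TT fm (fm e)) ∩ BR w ρ) (ω \ BR w ρ) := by
  classical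
  have egr : gr co La (fm e) ω = ω ∩ La (fm e) := by
    unfold gr; rw [if_pos hi]
  have hTt : TiesO X Wt (TF TT fm (fm e)) (Wl (fm e)) b o :=
    { h.tO _ hi with
      disj := disjoint_left.2 fun l h1 h2 => disjoint_left.1 hd0 ((h.tO _ hi).sub h1) h2
      w1 := (hF.tO hi).w1 }
  have hLt : ∀ l ∈ La (fm e), l ∉ Wt := fun l h1 h2 =>
    disjoint_left.1 hd0 (h.bE (h.bB (h.la _ h1))) h2
  rw [DV_O h hi]
  unfold psiFO
  refine Ec_congr fun ω' hω' => ?_
  set i := fm e with hidef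
  set T := TF TT fm i with hT
  set η := gr co La i ω with hη
  set Go := ω ∪ (ω' ∪ oth TT fm co i) with hGo
  set S := (La i ∪ T) ∩ BR w ρ with hS
  have heT : e ∈ T := mem_TF.2 ⟨he, rfl⟩
  have hTO := h.tO i hi
  have hcapt : (Go ∪ (Wt \ Wl i)) ∩ La i = (Go ∪ (W \ Wl i)) ∩ La i := by
    ext l
    have h1 : l ∈ La i → l ∉ W := fun h1 h2 => disjoint_left.1 h.la_W h1 h2
    have h2 := hLt l
    simp only [mem_inter, mem_union, mem_sdiff]
    tauto
  have hρR : ρ < R := by omega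
  have hBR : ∀ {l : ℤ × ℤ}, l ∈ Go → l ∈ BR w R → l ∈ ω ∧ l ∈ La i := by
    intro l h1 h2
    have h3 := hG.inb l (h.go_in hω hω' h1) h2
    exact ⟨h.go_la hω' h1 h3, h3⟩
  have hinm : inR w m (b e) := hcn _ ⟨e, heT, rfl⟩ (Co.refl _ _)
  have hxρ : inR w ρ (b e) := by
    rw [inR_iff] at hinm ⊢; omega
  have eζ : Go ∩ (BR w r \ S) = η ∩ (BR w r \ BR w ρ) := by
    ext l
    have m1 : l ∈ Go ∩ (BR w r \ S) ↔ l ∈ Go ∧ l ∈ BR w r ∧ l ∉ S := by
      rw [mem_inter, mem_sdiff]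
    have m2 : l ∈ η ∩ (BR w r \ BR w ρ) ↔ l ∈ η ∧ l ∈ BR w r ∧ l ∉ BR w ρ := by
      rw [mem_inter, mem_sdiff]
    rw [m1, m2]
    constructor
    · rintro ⟨h1, h2, h3⟩
      obtain ⟨h4, h5⟩ := hBR h1 (BR_mono' hrR h2)
      refine ⟨by rw [egr]; exact mem_inter.2 ⟨h4, h5⟩, h2, fun h6 => h3 ?_⟩
      exact mem_inter.2 ⟨mem_union_left _ h5, h6⟩
    · rintro ⟨h1, h2, h3⟩
      rw [egr] at h1
      exact ⟨mem_union_left _ (mem_inter.1 h1).1, h2, fun h4 => h3 (mem_inter.1 h4).2⟩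
  have hB : BoxO X Wt T (Wl i) o S w (o e) ρ r := by
    refine ⟨hG.conn ρ hmρ hρR, fun l hl => ?_, ?_, inter_subset_right, hρr, hG.b1 r (by omega) hrR,
      hG.b2 r (by omega) hrR, fun l hl => ?_, fun hl => hG.root (BR_mono' hrR hl)⟩
    · rcases mem_union.1 (mem_inter.1 hl).1 with h1 | h1
      · exact h.bE (h.bB (h.la i h1))
      · exact hTO.sub h1
    · rw [disjoint_left]
      intro l hl h2
      rcases mem_union.1 (mem_inter.1 hl).1 with h1 | h1
      · exact hLt l h1 h2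
      · exact disjoint_left.1 hTt.disj h1 h2
    · rw [mem_inter] at hl
      refine hG.wsub ?_
      rw [← hbx]
      exact mem_inter.2 ⟨hl.1, BR_mono' hrR hl.2⟩
  have hone : OneX Go S w ρ r t := by
    intro u v h1 h2 h3
    rw [eζ] at h3 ⊢
    exact (hx.2.2 u v (near_iff.2 h1) (far_iff.2 h2) h3).symm
  have hd : Disjoint (ω' ∪ oth TT fm co i) B := by
    rw [disjoint_union_left]
    refine ⟨disjoint_left.2 fun l h1 h2 => (mem_sdiff.1 (hω' h1)).2 h2,
      disjoint_left.2 fun l h1 h2 => ?_⟩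
    exact disjoint_left.1 h.bT (h.bB h2) (mem_oth.1 h1).1.1
  have hcap : (Go ∪ (W \ Wl i)) ∩ La i = η := by
    rw [egr]; exact h.capO hd
  rw [← clO_cap hcapt]
  have key := F_loc_open (Λ := La i) (e0 := e) (t := t) hF.tog (hF.mO hi) hTt
    (h.go_sub hω hω') hB inter_subset_left (fun l hl => ?_) hone heT hxρ ?_ ?_ ?_
  · rw [key.1, key.2]
    have e1 : Go \ S = ω \ BR w ρ ∪ (ω' ∪ oth TT fm co i) := by
      ext l
      have m1 : l ∈ Go \ S ↔ l ∈ Go ∧ l ∉ S := mem_sdiff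
      have m2 : l ∈ ω \ BR w ρ ∪ (ω' ∪ oth TT fm co i) ↔
          (l ∈ ω ∧ l ∉ BR w ρ) ∨ l ∈ ω' ∪ oth TT fm co i := by rw [mem_union, mem_sdiff]
      rw [m1, m2]
      constructor
      · rintro ⟨h1, h2⟩
        rcases mem_union.1 h1 with h3 | h3
        · refine Or.inl ⟨h3, fun h4 => h2 (mem_inter.2 ⟨mem_union_left _ ?_, h4⟩)⟩
          exact (hBR h1 (BR_mono' hρR.le h4)).2
        · exact Or.inr h3
      · rintro (⟨h1, h2⟩ | h1)
        · exact ⟨mem_union_left _ h1, fun h3 => h2 (mem_inter.1 h3).2⟩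
        · refine ⟨mem_union_right _ h1, fun h2 => ?_⟩
          have h3 := hBR (mem_union_right _ h1) (BR_mono' hρR.le (mem_inter.1 h2).2)
          exact disjoint_left.1 hd h1 (hω h3.1)
    rw [e1]
  · obtain ⟨h1, h2⟩ := mem_inter.1 hl
    exact (hBR h1 (BR_mono' hrR h2)).2
  · have hxr : |(b e).1 - w.1| < r ∧ |(b e).2 - w.2| < r := by
      rw [abs_lt, abs_lt]
      rw [inR_iff] at hinm
      omega
    obtain ⟨v', h1, h2⟩ := open_exit ht hxr hx.1
    refine ⟨v', far_iff.1 h1, h2.mono fun l hl => ?_⟩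
    obtain ⟨h3, h4⟩ := mem_inter.1 hl
    rw [egr] at h3
    exact mem_inter.2 ⟨mem_union_left _ (mem_inter.1 h3).1, h4⟩
  · intro e' he'
    rw [mem_clO, hcapt, hcap] at he'
    have h1 := hcn _ ⟨e', he'.1, rfl⟩ he'.2
    refine mem_inter.2 ⟨mem_union_right _ he'.1, ?_⟩
    rw [← hTO.ends e' he'.1]
    exact tie_box hmρ (hTO.unit e' he'.1) h1
  · rw [hcapt, hcap]
    intro h1
    apply hnt
    refine tch_of_co (fun z hz hl => ?_) hG.ne h1
    rw [egr] at hl
    exact hG.oe z hz (mem_inter.1 hl).2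

/-- closed ties -/
theorem locFC_T (h : Multi X W Bb B TT fm co Wl La b o) (hd0 : Disjoint X.E Wt)
    (hF : TrF X W Wt TT fm co Wl La M b o F (fm e)) (hi : co (fm e) = false)
    (hbx : Wt ∩ BD w R = W ∩ BD w R)
    (hG : WallC X W Bb TT (TF TT fm (fm e)) (Wl (fm e)) (La (fm e)) b o e w m R)
    (hmρ : m < ρ) (hρr : ρ < r) (hrR : r ≤ R) (he : e ∈ TT) (hω : ω ⊆ B)
    (hx : Gx w ρ r (gr co La (fm e) ω ∩ (BR w r \ BR w ρ)) t)
    (ht : Co (gr co La (fm e) ω) (b e) t)
    (hcn : ∀ v, WV (TF TT fm (fm e)) b v → Co (gr co La (fm e) ω) (b e) v → inR w m v)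
    (hnt : ¬ Tch (gr co La (fm e) ω) (du (Wl (fm e)) ∅) (b e)) :
    DV (VF F Bb B TT fm co) TT fm co La b e ω =
      psiFC F Bb B TT fm co (fm e) ((La (fm e) ∪ TF TT fm (fm e)) ∩ BD w ρ) (ω \ BD w ρ) := by
  classical
  have egr : gr co La (fm e) ω = du (La (fm e)) ω := by
    unfold gr; rw [if_neg (by rw [hi]; exact Bool.false_ne_true)]
  have hTt : TiesC X Wt (TF TT fm (fm e)) (Wl (fm e)) b o :=
    { h.tC _ hi with
      disj := disjoint_left.2 fun l h1 h2 => disjoint_left.1 hd0 ((h.tC _ hi).sub h1) h2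
      kW := (hF.tC hi).w1 }
  have hLt : ∀ l ∈ La (fm e), l ∉ Wt := fun l h1 h2 =>
    disjoint_left.1 hd0 (h.bE (h.bB (h.la _ h1))) h2
  rw [DV_C h hi]
  unfold psiFC
  refine Ec_congr fun ω' hω' => ?_
  set i := fm e with hidef
  set T := TF TT fm i with hT
  set η := gr co La i ω with hη
  set Go := ω ∪ (ω' ∪ oth TT fm co i) with hGo
  set S := (La i ∪ T) ∩ BD w ρ with hS
  have heT : e ∈ T := mem_TF.2 ⟨he, rfl⟩
  have hTC := h.tC i hi
  have hcapt : du (La i) (Go ∪ Wt) = du (La i) (Go ∪ W) := by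
    ext l
    have h1 : l - (1, 1) ∈ La i → l - (1, 1) ∉ W := fun h1 h2 => disjoint_left.1 h.la_W h1 h2
    have h2 := hLt (l - (1, 1))
    have m1 : l ∈ du (La i) (Go ∪ Wt) ↔ l - (1, 1) ∈ La i ∧ ¬ (l - (1, 1) ∈ Go ∨ l - (1, 1) ∈ Wt) := by
      rw [mem_du', mem_union]
    have m2 : l ∈ du (La i) (Go ∪ W) ↔ l - (1, 1) ∈ La i ∧ ¬ (l - (1, 1) ∈ Go ∨ l - (1, 1) ∈ W) := by
      rw [mem_du', mem_union]
    rw [m1, m2]
    tauto
  have hρR : ρ < R := by omega
  have hBR : ∀ {l : ℤ × ℤ}, l ∈ Go → l ∈ BD w R → l ∈ ω ∧ l ∈ La i := by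
    intro l h1 h2
    have h3 := hG.inb l (h.go_in hω hω' h1) h2
    exact ⟨h.go_la hω' h1 h3, h3⟩
  have hinm : inR w m (b e) := hcn _ ⟨e, heT, rfl⟩ (Co.refl _ _)
  have hxρ : inR w ρ (b e) := by
    rw [inR_iff] at hinm ⊢; omega
  have hd : Disjoint (ω' ∪ oth TT fm co i) B := by
    rw [disjoint_union_left]
    refine ⟨disjoint_left.2 fun l h1 h2 => (mem_sdiff.1 (hω' h1)).2 h2,
      disjoint_left.2 fun l h1 h2 => ?_⟩
    exact disjoint_left.1 h.bT (h.bB h2) (mem_oth.1 h1).1.1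
  have hcap : du (La i) (Go ∪ W) = η := by
    rw [egr]; exact h.duC hd
  have eζ : du ((La i ∩ BD w r) \ S) (Go ∪ W) = η ∩ (BR w r \ BR w ρ) := by
    ext l
    rw [mem_inter, ← hcap, mem_du', mem_du', mem_sdiff, mem_inter, mem_sdiff, hS, mem_inter,
      mem_union, mem_BD', mem_BD', sub_add_one]
    tauto
  have hB : BoxC X Wt T (Wl i) (La i) o S w (o e) ρ r := by
    refine ⟨hG.conn ρ hmρ hρR, fun l hl => ?_, ?_, inter_subset_right, hρr, hG.b1 r (by omega) hrR,
      hG.b2 r (by omega) hrR, fun l hl => ?_, fun hl => hG.root (BD_mono hrR hl)⟩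
    · rcases mem_union.1 (mem_inter.1 hl).1 with h1 | h1
      · exact h.bE (h.bB (h.la i h1))
      · exact hTC.sub h1
    · rw [disjoint_left]
      intro l hl h2
      rcases mem_union.1 (mem_inter.1 hl).1 with h1 | h1
      · exact hLt l h1 h2
      · exact disjoint_left.1 hTt.disj h1 h2
    · have hl' := BD_mono hrR hl
      rcases mem_union.1 (hG.cov hl') with h1 | h1
      · exact mem_union_left _ h1
      · refine mem_union_right _ ?_
        have h2 : l ∈ W ∩ BD w R := mem_inter.2 ⟨h1, hl'⟩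
        rw [← hbx] at h2
        exact (mem_inter.1 h2).1
  have eζt : du ((La i ∩ BD w r) \ S) (Go ∪ Wt) = η ∩ (BR w r \ BR w ρ) := by
    rw [← eζ]
    ext l
    have h1 : l ∈ du (La i) (Go ∪ Wt) ↔ l ∈ du (La i) (Go ∪ W) := by rw [hcapt]
    rw [mem_du', mem_du'] at h1
    rw [mem_du', mem_du', mem_sdiff, mem_inter]
    tauto
  have hone : OneXC (Go ∪ Wt) (La i) S w ρ r t := by
    intro u v h1 h2 h3
    rw [eζt] at h3 ⊢
    exact (hx.2.2 u v (near_iff.2 h1) (far_iff.2 h2) h3).symm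
  rw [← clC_cap hcapt]
  have key := F_loc_closed (Λ := La i) (e0 := e) (t := t) hF.tog (hF.mC hi) hTt
    (h.go_sub hω hω') hB inter_subset_left hone heT hxρ ?_ ?_ ?_
  · rw [key.1, key.2]
    have e1 : Go \ S = ω \ BD w ρ ∪ (ω' ∪ oth TT fm co i) := by
      ext l
      have m1 : l ∈ Go \ S ↔ l ∈ Go ∧ l ∉ S := mem_sdiff
      have m2 : l ∈ ω \ BD w ρ ∪ (ω' ∪ oth TT fm co i) ↔
          (l ∈ ω ∧ l ∉ BD w ρ) ∨ l ∈ ω' ∪ oth TT fm co i := by rw [mem_union, mem_sdiff]
      rw [m1, m2]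
      constructor
      · rintro ⟨h1, h2⟩
        rcases mem_union.1 h1 with h3 | h3
        · refine Or.inl ⟨h3, fun h4 => h2 (mem_inter.2 ⟨mem_union_left _ ?_, h4⟩)⟩
          exact (hBR h1 (BD_mono hρR.le h4)).2
        · exact Or.inr h3
      · rintro (⟨h1, h2⟩ | h1)
        · exact ⟨mem_union_left _ h1, fun h3 => h2 (mem_inter.1 h3).2⟩
        · refine ⟨mem_union_right _ h1, fun h2 => ?_⟩
          have h3 := hBR (mem_union_right _ h1) (BD_mono hρR.le (mem_inter.1 h2).2)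
          exact disjoint_left.1 hd h1 (hω h3.1)
    rw [e1]
  · have hxr : |(b e).1 - w.1| < r ∧ |(b e).2 - w.2| < r := by
      rw [abs_lt, abs_lt]
      rw [inR_iff] at hinm
      omega
    obtain ⟨v', h1, h2⟩ := open_exit ht hxr hx.1
    refine ⟨v', far_iff.1 h1, h2.mono fun l hl => ?_⟩
    obtain ⟨h3, h4⟩ := mem_inter.1 hl
    rw [← hcap, ← hcapt, mem_du'] at h3
    rw [mem_du', mem_inter, mem_BD', sub_add_one]
    exact ⟨⟨h3.1, h4⟩, h3.2⟩
  · intro e' he'
    rw [mem_clC, hcapt, hcap] at he'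
    have h1 := hcn _ ⟨e', he'.1, rfl⟩ he'.2
    refine mem_inter.2 ⟨mem_union_right _ he'.1, ?_⟩
    rw [mem_BD', ← hTC.ends e' he'.1]
    exact tie_box hmρ (hTC.unit e' he'.1) h1
  · rw [hcapt, hcap]
    intro h1
    apply hnt
    refine tch_of_co (fun z hz hl => ?_) hG.ne h1
    rw [egr, mem_du'] at hl
    exact hG.oe z hz hl.1

/-- **Field `VLoc`.** -/
theorem vloc_T (h : Multi X W Bb B TT fm co Wl La b o) (hd0 : Disjoint X.E Wt)
    (hF : ∀ e ∈ TT, TrF X W Wt TT fm co Wl La M b o F (fm e))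
    (hS1 : ∀ l ∈ W, l ∉ Wt → l ∈ Sg) (hS2 : ∀ l ∈ Wt, l ∉ W → l ∈ Sg) :
    VLoc (VF F Bb B TT fm co) X W Bb B TT Sg fm co Wl La b o := by
  classical
  intro e he w m ρ r R hG hmρ hρr hrR hSg
  have hTog := vtog_T h hd0 hF
  have hbx : Wt ∩ bx (co (fm e)) w R = W ∩ bx (co (fm e)) w R := by
    ext l
    rw [mem_inter, mem_inter]
    constructor
    · rintro ⟨h1, h2⟩
      refine ⟨?_, h2⟩
      by_contra h3
      exact hSg l (hS2 l h1 h3) h2
    · rintro ⟨h1, h2⟩
      refine ⟨?_, h2⟩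
      by_contra h3
      exact hSg l (hS1 l h1 h3) h2
  set i := fm e with hi
  set T := TF TT fm i with hT
  have heT : e ∈ T := mem_TF.2 ⟨he, rfl⟩
  set Wg := if co i = true then Wl i else du (Wl i) ∅ with hWg
  set psi := if co i = true then
      psiFO F Bb B TT fm co i ((La i ∪ T) ∩ BR w ρ) else
      psiFC F Bb B TT fm co i ((La i ∪ T) ∩ BD w ρ) with hpsi
  refine ⟨fun z => if ∃ t, Gx w ρ r (gr co La i z ∩ (BR w r \ BR w ρ)) t ∧
    ¬ Tch (gr co La i z \ BR w ρ) Wg t then psi z else 0, ?_⟩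
  intro ω hω t hx ht hcn
  set z := ω \ bx (co i) w ρ with hz
  have e1 : gr co La i z \ BR w ρ = gr co La i ω \ BR w ρ := gr_out
  have e2 : gr co La i z ∩ (BR w r \ BR w ρ) = gr co La i ω ∩ (BR w r \ BR w ρ) := by
    have h1 : ∀ η : Finset (ℤ × ℤ), η ∩ (BR w r \ BR w ρ) = (η \ BR w ρ) ∩ BR w r := by
      intro η; ext l; simp only [mem_inter, mem_sdiff]; tauto
    rw [h1, h1, e1]
  have hinm : inR w m (b e) := hcn _ ⟨e, heT, rfl⟩ (Co.refl _ _)
  have hxρ : inR w ρ (b e) := by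
    rw [inR_iff] at hinm ⊢; omega
  have hsep : ∀ y z, IsUnit4 (z - y) → y + z ∈ Wg → Co (gr co La i ω) (b e) y →
      ¬ inR w R y := by
    intro y z h1 h2 h3
    unfold WallG at hG
    rw [← hi] at hG
    rw [hWg] at h2
    unfold gr at h3
    rcases hco : co i with _ | _
    · rw [hco] at hG h2 h3
      rw [if_neg Bool.false_ne_true] at hG h2 h3
      exact hG.sep y z h1 (of_mem_du h2).1 (VC_of_co heT h3)
    · rw [hco] at hG h2 h3
      rw [if_pos rfl] at hG h2 h3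
      exact hG.sep y z h1 h2 (VO_of_co heT h3)
  have hiff := tch_iff (η := gr co La i ω) (Wg := Wg) hxρ hρr hrR hx ht hsep
  by_cases hT' : Tch (gr co La i ω) Wg (b e)
  · have h0 : DV (VF F Bb B TT fm co) TT fm co La b e ω = 0 := by
      refine DV_free h hTog hω he ?_
      unfold fre
      rw [← hi]
      rw [hWg] at hT'
      unfold gr at hT'
      rcases hco : co i with _ | _
      · rw [hco] at hT'
        rw [if_neg Bool.false_ne_true, if_neg Bool.false_ne_true] at hT'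
        rw [if_neg Bool.false_ne_true]
        right
        rw [h.duC']
        refine co_of_tch (fun a b' h1 h2 => ?_) hT'
        exact (h.tC i hco).conn' a b' h1 (of_mem_du h2).1 e heT
      · rw [hco] at hT'
        rw [if_pos rfl, if_pos rfl] at hT'
        rw [if_pos rfl]
        right
        rw [h.capO']
        exact co_of_tch (fun a b' h1 h2 => (h.tO i hco).conn' a b' h1 h2 e heT) hT'
    rw [h0]
    simp only
    rw [if_neg]
    rintro ⟨t', h1, h2⟩
    rw [e2] at h1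
    rw [e1] at h2
    apply h2
    obtain ⟨y, z', h3, h4, h5⟩ := hiff.1 hT'
    refine ⟨y, z', h3, h4, ?_⟩
    have h6 := (Gx.unique h1 hx).mono (show gr co La i ω ∩ (BR w r \ BR w ρ) ⊆
      gr co La i ω \ BR w ρ from fun l hl => by
        obtain ⟨g1, g2⟩ := mem_inter.1 hl
        exact mem_sdiff.2 ⟨g1, (mem_sdiff.1 g2).2⟩)
    exact h6.trans h5
  · simp only
    rw [if_pos ⟨t, by rw [e2]; exact hx, by rw [e1]; exact fun h1 => hT' (hiff.2 h1)⟩]
    rw [hpsi]
    unfold WallG at hG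
    rw [← hi] at hG
    rcases hco : co i with _ | _
    · rw [hco] at hG
      rw [if_neg Bool.false_ne_true] at hG ⊢
      rw [hWg, hco, if_neg Bool.false_ne_true] at hT'
      have := locFC_T h hd0 (hF e he) hco (by
        unfold bx at hbx
        rw [hco, if_neg Bool.false_ne_true] at hbx
        exact hbx) hG hmρ hρr hrR he hω hx ht hcn hT'
      rw [this, hz]
      unfold bx
      rw [hco, if_neg Bool.false_ne_true]
    · rw [hco] at hG
      rw [if_pos rfl] at hG ⊢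
      rw [hWg, hco, if_pos rfl] at hT'
      have := locFO_T h hd0 (hF e he) hco (by
        unfold bx at hbx
        rw [hco, if_pos rfl] at hbx
        exact hbx) hG hmρ hρr hrR he hω hx ht hcn hT'
      rw [this, hz]
      unfold bx
      rw [hco, if_pos rfl]

end fields

end Pool.Agent.H15.W
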